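import Pool.Agent.Run7.h32.Fo.Base

/-!
The forced dyadic model on a tree in which every node has `D` children: definitions, sums over the
tree, existence for the truncated systems and energy.
-/

set_option autoImplicit false

open Set Filter Topology MeasureTheory Metric
open scoped InnerProductSpace NNReal

namespace Pool.Agent.Run7.h32.Tr

open Run7.h969.Dy (pow_mul_nat)
open Pool.Agent.Run7.h32.Fo (ii_of young)

/-- The nodes: `i :: j` is the child number `i` of `j`, and `[]` is the root. -/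
abbrev Nd (D : ℕ) := List (Fin D)

variable {D : ℕ}

/-- the sum over the children -/
def ch (y : Nd D → ℝ) (j : Nd D) : ℝ := ∑ i : Fin D, y (i :: j)

/-- what a node receives from its parent -/
noncomputable def inp (β : ℝ) (y : Nd D → ℝ) : Nd D → ℝ
  | [] => 0
  | _ :: j => (2 : ℝ) ^ (β * j.length) * y j ^ 2

/-- The right hand side of the dyadic model on the tree. -/
noncomputable def trhs (β ν : ℝ) (y : Nd D → ℝ) (j : Nd D) : ℝ :=
  inp β y j - (2 : ℝ) ^ (β * j.length) * (y j * ch y j) - ν * 4 ^ j.length * y j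

/-- the nodes of the generation `n` -/
noncomputable def lev (D n : ℕ) : Finset (Nd D) := (List.finite_length_eq (Fin D) n).toFinset

/-- the nodes up to the generation `N` -/
noncomputable def tre (D N : ℕ) : Finset (Nd D) := (List.finite_length_le (Fin D) N).toFinset

lemma mem_lev {n : ℕ} {j : Nd D} : j ∈ lev D n ↔ j.length = n := by
  simp [lev]

lemma mem_tre {N : ℕ} {j : Nd D} : j ∈ tre D N ↔ j.length ≤ N := by
  simp [tre]

lemma sum_lev_zero (f : Nd D → ℝ) : ∑ j ∈ lev D 0, f j = f [] := by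
  have : lev D 0 = {[]} := by
    ext j
    rw [mem_lev, Finset.mem_singleton, List.length_eq_zero_iff]
  rw [this, Finset.sum_singleton]

lemma sum_lev_succ (n : ℕ) (f : Nd D → ℝ) :
    ∑ j ∈ lev D (n + 1), f j = ∑ j ∈ lev D n, ∑ i : Fin D, f (i :: j) := by
  rw [← Finset.sum_product']
  symm
  apply Finset.sum_bij (fun p _ => p.2 :: p.1)
  · intro p hp
    rw [Finset.mem_product, mem_lev] at hp
    rw [mem_lev, List.length_cons, hp.1]
  · intro p _ p' _ h
    rw [List.cons.injEq] at h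
    exact Prod.ext h.2 h.1
  · intro j hj
    rw [mem_lev] at hj
    cases j with
    | nil => simp at hj
    | cons i j =>
      refine ⟨(j, i), ?_, rfl⟩
      rw [Finset.mem_product, mem_lev]
      rw [List.length_cons] at hj
      exact ⟨by simpa using hj, Finset.mem_univ _⟩
  · intro p _
    rfl

lemma sum_tre_zero (f : Nd D → ℝ) : ∑ j ∈ tre D 0, f j = f [] := by
  have : tre D 0 = {[]} := by
    ext j
    rw [mem_tre, Finset.mem_singleton, Nat.le_zero, List.length_eq_zero_iff]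
  rw [this, Finset.sum_singleton]

lemma sum_tre_succ (N : ℕ) (f : Nd D → ℝ) :
    ∑ j ∈ tre D (N + 1), f j = ∑ j ∈ tre D N, f j + ∑ j ∈ lev D (N + 1), f j := by
  have h1 : tre D (N + 1) = tre D N ∪ lev D (N + 1) := by
    ext j
    rw [Finset.mem_union, mem_tre, mem_tre, mem_lev]
    omega
  rw [h1, Finset.sum_union]
  rw [Finset.disjoint_left]
  intro j h2 h3
  rw [mem_tre] at h2
  rw [mem_lev] at h3
  omega

lemma tre_mono {M N : ℕ} (h : M ≤ N) : tre D M ⊆ tre D N := by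
  intro j hj
  rw [mem_tre] at hj ⊢
  omega

lemma lev_sub (n : ℕ) : lev D n ⊆ tre D n := by
  intro j hj
  rw [mem_lev] at hj
  rw [mem_tre]
  omega

/-- the energy balance of the vector field -/
lemma energy_sumT (β ν : ℝ) (y : Nd D → ℝ) (N : ℕ) :
    ∑ j ∈ tre D N, y j * trhs β ν y j
      = -(∑ j ∈ lev D N, (2 : ℝ) ^ (β * N) * (y j ^ 2 * ch y j))
        - ν * ∑ j ∈ tre D N, 4 ^ j.length * y j ^ 2 := by
  induction N with
  | zero =>
    rw [sum_tre_zero, sum_lev_zero, sum_tre_zero]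
    simp only [trhs, inp, List.length_nil, Nat.cast_zero, mul_zero, Real.rpow_zero, pow_zero]
    ring
  | succ N ih =>
    rw [sum_tre_succ, ih, sum_tre_succ N (fun j => (4 : ℝ) ^ j.length * y j ^ 2)]
    have h1 : ∑ j ∈ lev D (N + 1), y j * trhs β ν y j
        = ∑ j ∈ lev D (N + 1), y j * inp β y j
          - ∑ j ∈ lev D (N + 1), (2 : ℝ) ^ (β * (N + 1 : ℕ)) * (y j ^ 2 * ch y j)
          - ν * ∑ j ∈ lev D (N + 1), (4 : ℝ) ^ j.length * y j ^ 2 := by
      rw [Finset.mul_sum, ← Finset.sum_sub_distrib, ← Finset.sum_sub_distrib]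
      refine Finset.sum_congr rfl fun j hj => ?_
      rw [mem_lev] at hj
      simp only [trhs, hj]
      ring
    have h2 : ∑ j ∈ lev D (N + 1), y j * inp β y j
        = ∑ j ∈ lev D N, (2 : ℝ) ^ (β * N) * (y j ^ 2 * ch y j) := by
      rw [sum_lev_succ]
      refine Finset.sum_congr rfl fun j hj => ?_
      rw [mem_lev] at hj
      simp only [inp, ch, hj]
      rw [Finset.mul_sum, Finset.mul_sum]
      exact Finset.sum_congr rfl fun i _ => by ring
    rw [h1, h2]
    ring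

/-! ### the truncated systems -/

/-- `X` solves the forced equations of the nodes up to the generation `N` on `[0, T]`, and
`X_j = 0` for the other nodes. -/
structure GalT (β ν T : ℝ) (N : ℕ) (x : Nd D → ℝ) (f X : Nd D → ℝ → ℝ) : Prop where
  init : ∀ j, j.length ≤ N → X j 0 = x j
  zero : ∀ j, N < j.length → ∀ t, X j t = 0
  ode : ∀ j, j.length ≤ N → ∀ t ∈ Icc 0 T,
    HasDerivWithinAt (X j) (trhs β ν (fun k => X k t) j + f j t) (Icc 0 T) t

variable {β ν T : ℝ} {N : ℕ} {x : Nd D → ℝ} {f X : Nd D → ℝ → ℝ}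

lemma GalT.cont (h : GalT β ν T N x f X) (j : Nd D) : ContinuousOn (X j) (Icc 0 T) := by
  rcases le_or_gt j.length N with hn | hn
  · exact fun t ht => (h.ode j hn t ht).continuousWithinAt
  · have : X j = fun _ => 0 := by
      funext t
      exact h.zero j hn t
    rw [this]
    exact continuousOn_const

lemma GalT.mono {T' : ℝ} (h : GalT β ν T N x f X) (hT : T' ≤ T) : GalT β ν T' N x f X :=
  ⟨h.init, h.zero, fun n hn t ht => (h.ode n hn t ⟨ht.1, ht.2.trans hT⟩).mono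
    (Icc_subset_Icc_right hT)⟩

lemma ch_cont {S : Set ℝ} (hX : ∀ j, ContinuousOn (X j) S) (j : Nd D) :
    ContinuousOn (fun t => ch (fun k => X k t) j) S :=
  continuousOn_finsetSum _ fun _ _ => hX _

lemma trhs_cont {S : Set ℝ} (hX : ∀ j, ContinuousOn (X j) S) (j : Nd D) :
    ContinuousOn (fun t => trhs β ν (fun k => X k t) j) S := by
  have h1 : ContinuousOn (fun t => inp β (fun k => X k t) j) S := by
    cases j with
    | nil => exact continuousOn_const
    | cons i j => exact continuousOn_const.mul ((hX j).pow 2)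
  exact (h1.sub (continuousOn_const.mul ((hX j).mul (ch_cont hX j)))).sub
    (continuousOn_const.mul (hX j))

/-- extension by zero -/
noncomputable def ext (v : EuclideanSpace ℝ {j // j ∈ tre D N}) (j : Nd D) : ℝ :=
  if h : j ∈ tre D N then v ⟨j, h⟩ else 0

lemma ext_in (v : EuclideanSpace ℝ {j // j ∈ tre D N}) {j : Nd D} (h : j ∈ tre D N) :
    ext v j = v ⟨j, h⟩ := dif_pos h

lemma ext_out (v : EuclideanSpace ℝ {j // j ∈ tre D N}) {j : Nd D} (h : j ∉ tre D N) :
    ext v j = 0 := dif_neg h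

lemma ext_c (j : Nd D) :
    ContDiff ℝ 1 fun v : EuclideanSpace ℝ {j // j ∈ tre D N} => ext v j := by
  by_cases h : j ∈ tre D N
  · have : (fun v : EuclideanSpace ℝ {j // j ∈ tre D N} => ext v j) = fun v => v ⟨j, h⟩ := by
      funext v
      exact ext_in v h
    rw [this]
    fun_prop
  · have : (fun v : EuclideanSpace ℝ {j // j ∈ tre D N} => ext v j) = fun _ => 0 := by
      funext v
      exact ext_out v h
    rw [this]
    exact contDiff_const

lemma trhs_c {E : Type*} [NormedAddCommGroup E] [NormedSpace ℝ E] (β ν : ℝ) {Y : E → Nd D → ℝ}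
    (h : ∀ k, ContDiff ℝ 1 fun v => Y v k) (j : Nd D) :
    ContDiff ℝ 1 fun v => trhs β ν (Y v) j := by
  have h1 : ContDiff ℝ 1 fun v => inp β (Y v) j := by
    cases j with
    | nil => exact contDiff_const
    | cons i j => exact contDiff_const.mul ((h j).pow 2)
  have h2 : ContDiff ℝ 1 fun v => ch (Y v) j := ContDiff.sum fun _ _ => h _
  exact (h1.sub (contDiff_const.mul ((h j).mul h2))).sub (contDiff_const.mul (h j))

/-- the vector field of the truncated system -/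
noncomputable def fld (β ν : ℝ) (v : EuclideanSpace ℝ {j // j ∈ tre D N}) :
    EuclideanSpace ℝ {j // j ∈ tre D N} := WithLp.toLp 2 fun i => trhs β ν (ext v) i

lemma fld_c (β ν : ℝ) : ContDiff ℝ 1
    (fld β ν : EuclideanSpace ℝ {j // j ∈ tre D N} → EuclideanSpace ℝ {j // j ∈ tre D N}) := by
  rw [contDiff_euclidean]
  intro i
  exact trhs_c β ν (fun k => ext_c k) (i : Nd D)

lemma fld_inner (β ν : ℝ) (hν : 0 < ν) (v : EuclideanSpace ℝ {j // j ∈ tre D N}) :
    ⟪fld β ν v, v⟫_ℝ ≤ -ν * ‖v‖ ^ 2 := by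
  have h1 : ⟪fld β ν v, v⟫_ℝ = ∑ j ∈ tre D N, ext v j * trhs β ν (ext v) j := by
    rw [PiLp.inner_apply, ← Finset.sum_coe_sort (tre D N)]
    refine Finset.sum_congr rfl fun i _ => ?_
    rw [ext_in v i.2]
    simp only [fld, Subtype.coe_eta]
    rfl
  have h2 : ‖v‖ ^ 2 = ∑ j ∈ tre D N, ext v j ^ 2 := by
    rw [EuclideanSpace.norm_sq_eq, ← Finset.sum_coe_sort (tre D N)]
    refine Finset.sum_congr rfl fun i _ => ?_
    rw [ext_in v i.2, Real.norm_eq_abs, sq_abs]
  have h5 : ∑ j ∈ lev D N, (2 : ℝ) ^ (β * N) * (ext v j ^ 2 * ch (ext v) j) = 0 := by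
    refine Finset.sum_eq_zero fun j hj => ?_
    have h6 : ch (ext v) j = 0 := by
      refine Finset.sum_eq_zero fun i _ => ?_
      apply ext_out
      rw [mem_tre, List.length_cons]
      rw [mem_lev] at hj
      omega
    rw [h6, mul_zero, mul_zero]
  rw [h1, energy_sumT, h5, h2]
  have h3 : ∑ j ∈ tre D N, ext v j ^ 2 ≤ ∑ j ∈ tre D N, (4 : ℝ) ^ j.length * ext v j ^ 2 := by
    refine Finset.sum_le_sum fun j _ => ?_
    have : (1 : ℝ) ≤ 4 ^ j.length := one_le_pow₀ (by norm_num)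
    nlinarith [sq_nonneg (ext v j)]
  have h4 := mul_le_mul_of_nonneg_left h3 hν.le
  linarith

/-- **Existence for the truncated systems.** -/
theorem exist_galT (β : ℝ) {ν T : ℝ} (N : ℕ) (x : Nd D → ℝ) {f : Nd D → ℝ → ℝ} (hν : 0 < ν)
    (hT : 0 < T) (hf : ∀ j, ContinuousOn (f j) (Icc 0 T)) :
    ∃ X : Nd D → ℝ → ℝ, GalT β ν T N x f X := by
  obtain ⟨F, hF⟩ : ∃ F : ℝ → EuclideanSpace ℝ {j // j ∈ tre D N},
      F = fun t => WithLp.toLp 2 fun i : {j // j ∈ tre D N} => f i t := ⟨_, rfl⟩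
  have hFc : ContinuousOn F (Icc 0 T) := by
    rw [hF]
    exact (PiLp.continuous_toLp 2 _).comp_continuousOn (continuousOn_pi.2 fun i => hf i)
  obtain ⟨M, hM⟩ := isCompact_Icc.exists_bound_of_continuousOn hFc
  have hM0 : 0 ≤ M := (norm_nonneg _).trans (hM 0 ⟨le_rfl, hT.le⟩)
  have hlip : ∀ R : ℝ, ∃ C : ℝ≥0, ∀ t ∈ Icc 0 T, LipschitzOnWith C
      (fun v => (fld β ν v + F t : EuclideanSpace ℝ {j // j ∈ tre D N}))
      (closedBall 0 R) := by
    intro R
    obtain ⟨C, hC⟩ := ((fld_c (D := D) (N := N) β ν).locallyLipschitz.locallyLipschitzOn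
      (s := closedBall (0 : EuclideanSpace ℝ {j // j ∈ tre D N}) R)).exists_lipschitzOnWith_of_compact
      (isCompact_closedBall _ _)
    refine ⟨C, fun t _ => ?_⟩
    intro v hv w hw
    simp only [edist_add_right]
    exact hC hv hw
  obtain ⟨v, hv0, hv, -⟩ := H772R2.NSR.exists_global
    (fun (t : ℝ) (v : EuclideanSpace ℝ {j // j ∈ tre D N}) => fld β ν v + F t)
    hT.le hlip (fun _ => continuousOn_const.add hFc)
    (WithLp.toLp 2 fun i : {j // j ∈ tre D N} => x i) (c := M ^ 2 / (4 * ν)) (by positivity)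
    (fun t ht w => by
      rw [inner_add_left]
      have h1 := fld_inner β ν hν w
      have h2 : ⟪F t, w⟫_ℝ ≤ M * ‖w‖ := (real_inner_le_norm _ _).trans
        (mul_le_mul_of_nonneg_right (hM t ht) (norm_nonneg _))
      have h3 : M * ‖w‖ ≤ M ^ 2 / (4 * ν) + ν * ‖w‖ ^ 2 := by
        have h4 : M ^ 2 / (4 * ν) + ν * ‖w‖ ^ 2 - M * ‖w‖ = (M - 2 * ν * ‖w‖) ^ 2 / (4 * ν) := by
          field_simp
          ring
        have h5 : 0 ≤ (M - 2 * ν * ‖w‖) ^ 2 / (4 * ν) := by positivity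
        linarith
      linarith)
  refine ⟨fun j t => ext (v t) j, ?_, ?_, ?_⟩
  · intro j hj
    change ext (v 0) j = x j
    rw [hv0, ext_in _ (mem_tre.2 hj)]
  · intro j hj t
    apply ext_out
    rw [mem_tre]
    omega
  · intro j hj t ht
    have hj' : j ∈ tre D N := mem_tre.2 hj
    have h1 : HasDerivWithinAt (fun t => v t ⟨j, hj'⟩) ((fld β ν (v t) + F t) ⟨j, hj'⟩)
        (Icc 0 T) t :=
      ((EuclideanSpace.proj (𝕜 := ℝ) (⟨j, hj'⟩ : {j // j ∈ tre D N})).hasFDerivAt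
        ).comp_hasDerivWithinAt t (hv t ht)
    have h2 : (fun t => ext (v t) j) = fun t => v t ⟨j, hj'⟩ := by
      funext t
      exact ext_in _ hj'
    rw [h2]
    refine h1.congr_deriv ?_
    rw [hF]
    rfl

/-! ### energy -/

/-- the derivative of the truncated energy -/
lemma energy_hdT {S : Set ℝ} {t : ℝ} (M : ℕ)
    (hd : ∀ j, j.length ≤ M →
      HasDerivWithinAt (X j) (trhs β ν (fun k => X k t) j + f j t) S t) :
    HasDerivWithinAt (fun s => ∑ j ∈ tre D M, X j s ^ 2)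
      (-2 * (∑ j ∈ lev D M, (2 : ℝ) ^ (β * M) * (X j t ^ 2 * ch (fun k => X k t) j))
        - 2 * ν * ∑ j ∈ tre D M, 4 ^ j.length * X j t ^ 2
        + 2 * ∑ j ∈ tre D M, f j t * X j t) S t := by
  have h1 : HasDerivWithinAt (fun s => ∑ j ∈ tre D M, X j s ^ 2)
      (∑ j ∈ tre D M, (2 * (X j t * trhs β ν (fun k => X k t) j)
        + 2 * (f j t * X j t))) S t := by
    refine HasDerivWithinAt.fun_sum fun j hj => ?_
    have := (hd j (mem_tre.1 hj)).fun_pow 2
    refine this.congr_deriv ?_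
    norm_num
    ring
  refine h1.congr_deriv ?_
  rw [Finset.sum_add_distrib, ← Finset.mul_sum, ← Finset.mul_sum,
    energy_sumT β ν (fun k => X k t) M]
  ring

lemma sumf_cont (hf : ∀ j, ContinuousOn (f j) (Icc 0 T)) (hX : ∀ j, ContinuousOn (X j) (Icc 0 T))
    (M : ℕ) : ContinuousOn (fun s => ∑ j ∈ tre D M, f j s * X j s) (Icc 0 T) :=
  continuousOn_finsetSum _ fun j _ => (hf j).mul (hX j)

lemma sum4_cont (hX : ∀ j, ContinuousOn (X j) (Icc 0 T)) (M : ℕ) :
    ContinuousOn (fun s => ∑ j ∈ tre D M, (4 : ℝ) ^ j.length * X j s ^ 2) (Icc 0 T) :=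
  continuousOn_finsetSum _ fun j _ => continuousOn_const.mul ((hX j).pow 2)

lemma sum14_cont (hX : ∀ j, ContinuousOn (X j) (Icc 0 T)) (M : ℕ) :
    ContinuousOn (fun s => ∑ j ∈ tre D M, X j s ^ 2 / 4 ^ j.length) (Icc 0 T) :=
  continuousOn_finsetSum _ fun j _ => ((hX j).pow 2).div_const _

lemma flux_cont (hX : ∀ j, ContinuousOn (X j) (Icc 0 T)) (M : ℕ) :
    ContinuousOn (fun s => ∑ j ∈ lev D M, (2 : ℝ) ^ (β * M) * (X j s ^ 2 * ch (fun k => X k s) j))
      (Icc 0 T) :=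
  continuousOn_finsetSum _ fun j _ => continuousOn_const.mul (((hX j).pow 2).mul (ch_cont hX j))

lemma flux_zero (h : GalT β ν T N x f X) (t : ℝ) :
    ∑ j ∈ lev D N, (2 : ℝ) ^ (β * N) * (X j t ^ 2 * ch (fun k => X k t) j) = 0 := by
  refine Finset.sum_eq_zero fun j hj => ?_
  have h6 : ch (fun k => X k t) j = 0 := by
    refine Finset.sum_eq_zero fun i _ => ?_
    apply h.zero
    rw [List.length_cons]
    rw [mem_lev] at hj
    omega
  rw [h6, mul_zero, mul_zero]

/-- the energy identity of the truncated system -/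
theorem galT_id (h : GalT β ν T N x f X) (hf : ∀ j, ContinuousOn (f j) (Icc 0 T)) {t : ℝ}
    (ht : t ∈ Icc 0 T) :
    ∑ j ∈ tre D N, X j t ^ 2
      + 2 * ν * ∫ s in (0 : ℝ)..t, ∑ j ∈ tre D N, 4 ^ j.length * X j s ^ 2
      = ∑ j ∈ tre D N, x j ^ 2
        + 2 * ∫ s in (0 : ℝ)..t, ∑ j ∈ tre D N, f j s * X j s := by
  have h0T : (0 : ℝ) ∈ Icc 0 T := ⟨le_rfl, ht.1.trans ht.2⟩
  have hsub : Icc 0 t ⊆ Icc 0 T := Icc_subset_Icc_right ht.2
  have hc := h.cont
  have hE : ∀ s ∈ Icc 0 T, HasDerivWithinAt (fun s => ∑ j ∈ tre D N, X j s ^ 2)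
      (2 * ∑ j ∈ tre D N, f j s * X j s
        - 2 * ν * ∑ j ∈ tre D N, 4 ^ j.length * X j s ^ 2) (Icc 0 T) s := by
    intro s hs
    refine (energy_hdT N fun j hj => h.ode j hj s hs).congr_deriv ?_
    rw [flux_zero h s]
    ring
  have hi1 := ii_of (sum4_cont hc N) h0T ht
  have hi2 := ii_of (sumf_cont hf hc N) h0T ht
  have h1 : ∫ s in (0 : ℝ)..t, (2 * ∑ j ∈ tre D N, f j s * X j s
        - 2 * ν * ∑ j ∈ tre D N, 4 ^ j.length * X j s ^ 2)
      = ∑ j ∈ tre D N, X j t ^ 2 - ∑ j ∈ tre D N, X j 0 ^ 2 := by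
    refine intervalIntegral.integral_eq_sub_of_hasDerivAt_of_le ht.1
      (f := fun s => ∑ j ∈ tre D N, X j s ^ 2) ?_ ?_ ?_
    · exact fun s hs => ((hE s (hsub hs)).mono hsub).continuousWithinAt
    · intro s hs
      exact (hE s ⟨hs.1.le, hs.2.le.trans ht.2⟩).hasDerivAt
        (Icc_mem_nhds hs.1 (hs.2.trans_le ht.2))
    · exact (hi2.const_mul 2).sub (hi1.const_mul (2 * ν))
  have h2 : ∑ j ∈ tre D N, X j 0 ^ 2 = ∑ j ∈ tre D N, x j ^ 2 :=
    Finset.sum_congr rfl fun j hj => by rw [h.init j (mem_tre.1 hj)]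
  rw [intervalIntegral.integral_sub (hi2.const_mul 2) (hi1.const_mul (2 * ν)),
    intervalIntegral.integral_const_mul 2, intervalIntegral.integral_const_mul (2 * ν), h2] at h1
  linarith

/-- **The energy estimate of the truncated system.** -/
theorem galT_energy (hν : 0 < ν) (h : GalT β ν T N x f X)
    (hf : ∀ j, ContinuousOn (f j) (Icc 0 T)) {t : ℝ} (ht : t ∈ Icc 0 T) :
    ∑ j ∈ tre D N, X j t ^ 2
      + ν * ∫ s in (0 : ℝ)..t, ∑ j ∈ tre D N, 4 ^ j.length * X j s ^ 2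
      ≤ ∑ j ∈ tre D N, x j ^ 2
        + 1 / ν * ∫ s in (0 : ℝ)..t, ∑ j ∈ tre D N, f j s ^ 2 / 4 ^ j.length := by
  have h0T : (0 : ℝ) ∈ Icc 0 T := ⟨le_rfl, ht.1.trans ht.2⟩
  have hc := h.cont
  have hid := galT_id h hf ht
  have hi1 := ii_of (sum4_cont hc N) h0T ht
  have hi2 := ii_of (sumf_cont hf hc N) h0T ht
  have hi3 := ii_of (sum14_cont hf N) h0T ht
  have h1 : ∫ s in (0 : ℝ)..t, 2 * ∑ j ∈ tre D N, f j s * X j s
      ≤ ∫ s in (0 : ℝ)..t, (ν * ∑ j ∈ tre D N, 4 ^ j.length * X j s ^ 2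
        + 1 / ν * ∑ j ∈ tre D N, f j s ^ 2 / 4 ^ j.length) := by
    refine intervalIntegral.integral_mono_on ht.1 (hi2.const_mul 2)
      ((hi1.const_mul ν).add (hi3.const_mul _)) fun s _ => ?_
    rw [Finset.mul_sum, Finset.mul_sum, Finset.mul_sum, ← Finset.sum_add_distrib]
    exact Finset.sum_le_sum fun j _ => young hν j.length
  rw [intervalIntegral.integral_add (hi1.const_mul ν) (hi3.const_mul _),
    intervalIntegral.integral_const_mul 2, intervalIntegral.integral_const_mul ν,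
    intervalIntegral.integral_const_mul (1 / ν)] at h1
  linarith

lemma le_energyT {E Φ : ℝ} (hν : 0 < ν) (h : GalT β ν T N x f X)
    (hf : ∀ j, ContinuousOn (f j) (Icc 0 T))
    (hE : ∀ M : ℕ, ∑ j ∈ tre D M, x j ^ 2 ≤ E)
    (hΦ : ∀ M : ℕ, ∫ s in (0 : ℝ)..T, ∑ j ∈ tre D M, f j s ^ 2 / 4 ^ j.length ≤ Φ) {t : ℝ}
    (ht : t ∈ Icc 0 T) :
    ∑ j ∈ tre D N, X j t ^ 2
      + ν * ∫ s in (0 : ℝ)..t, ∑ j ∈ tre D N, 4 ^ j.length * X j s ^ 2 ≤ E + Φ / ν := by
  have h0T : (0 : ℝ) ∈ Icc 0 T := ⟨le_rfl, ht.1.trans ht.2⟩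
  have hTT : T ∈ Icc 0 T := ⟨ht.1.trans ht.2, le_rfl⟩
  have h1 := galT_energy hν h hf ht
  have h2 : ∫ s in (0 : ℝ)..t, ∑ j ∈ tre D N, f j s ^ 2 / 4 ^ j.length ≤ Φ := by
    refine le_trans ?_ (hΦ N)
    have h3 := intervalIntegral.integral_add_adjacent_intervals
      (ii_of (sum14_cont hf N) h0T ht) (ii_of (sum14_cont hf N) ht hTT)
    have h4 : 0 ≤ ∫ s in t..T, ∑ j ∈ tre D N, f j s ^ 2 / 4 ^ j.length :=
      intervalIntegral.integral_nonneg ht.2 fun s _ => Finset.sum_nonneg fun j _ => by positivity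
    linarith
  have h3 := mul_le_mul_of_nonneg_left h2 (by positivity : 0 ≤ 1 / ν)
  have h4 := hE N
  have e : 1 / ν * Φ = Φ / ν := by ring
  linarith

lemma abs_le_energyT {E Φ : ℝ} (hν : 0 < ν) (h : GalT β ν T N x f X)
    (hf : ∀ j, ContinuousOn (f j) (Icc 0 T))
    (hE : ∀ M : ℕ, ∑ j ∈ tre D M, x j ^ 2 ≤ E)
    (hΦ : ∀ M : ℕ, ∫ s in (0 : ℝ)..T, ∑ j ∈ tre D M, f j s ^ 2 / 4 ^ j.length ≤ Φ) {t : ℝ}
    (ht : t ∈ Icc 0 T) (j : Nd D) : |X j t| ≤ √(E + Φ / ν) := by
  by_cases hj : j.length ≤ N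
  · apply Real.abs_le_sqrt
    have h1 : X j t ^ 2 ≤ ∑ j ∈ tre D N, X j t ^ 2 :=
      Finset.single_le_sum (f := fun j => X j t ^ 2) (fun j _ => sq_nonneg _)
        (mem_tre.2 hj)
    have h2 := le_energyT hν h hf hE hΦ ht
    have h3 : 0 ≤ ν * ∫ s in (0 : ℝ)..t, ∑ j ∈ tre D N, 4 ^ j.length * X j s ^ 2 :=
      mul_nonneg hν.le (intervalIntegral.integral_nonneg ht.1 fun s _ =>
        Finset.sum_nonneg fun j _ => by positivity)
    linarith
  · rw [h.zero j (by omega), abs_zero]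
    exact Real.sqrt_nonneg _

end Pool.Agent.Run7.h32.Tr
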