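import Pool.Agent.Run7.h32.Tr.Base
import Pool.Agent.Run7.h969.Dz.WS

/-!
The forced dyadic model on a tree: the truncated solutions form a Cauchy sequence.
-/

set_option autoImplicit false

open Set Filter Topology MeasureTheory

namespace Pool.Agent.Run7.h32.Tr

open Pool.Agent.Run7.h32.Fo (ii_of)
open Run7.h969.Dy (pow_mul_nat)

variable {D : ℕ}

lemma card_lev (n : ℕ) : ∑ _j ∈ lev D n, (1 : ℝ) = (D : ℝ) ^ n := by
  induction n with
  | zero => rw [sum_lev_zero, pow_zero]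
  | succ n ih =>
    rw [sum_lev_succ]
    simp only [Finset.sum_const, Finset.card_univ, Fintype.card_fin, nsmul_eq_mul, mul_one]
    simp only [Finset.sum_const, nsmul_eq_mul, mul_one] at ih
    rw [ih, pow_succ]

/-- the weighted cross terms of a generation -/
noncomputable def cr (b : ℕ → ℝ) (d : Nd D → ℝ) (n : ℕ) : ℝ :=
  b n * ∑ j ∈ lev D n, |d j| * ch (fun k => |d k|) j

/-- the weighted squares of a generation -/
noncomputable def sqr (b : ℕ → ℝ) (d : Nd D → ℝ) (n : ℕ) : ℝ :=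
  b n * ∑ j ∈ lev D n, d j ^ 2

lemma cr_le {b : ℕ → ℝ} {d : Nd D → ℝ} {n : ℕ} (hb0 : 0 ≤ b n) (hb : b n ≤ b (n + 1)) :
    cr b d n ≤ D * sqr b d n + 1 / 4 * sqr b d (n + 1) := by
  have h1 : ∑ j ∈ lev D n, |d j| * ch (fun k => |d k|) j
      ≤ D * ∑ j ∈ lev D n, d j ^ 2 + 1 / 4 * ∑ j ∈ lev D (n + 1), d j ^ 2 := by
    rw [sum_lev_succ, Finset.mul_sum, Finset.mul_sum, ← Finset.sum_add_distrib]
    refine Finset.sum_le_sum fun j _ => ?_
    have h2 : |d j| * ch (fun k => |d k|) j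
        ≤ ∑ i : Fin D, (d j ^ 2 + 1 / 4 * d (i :: j) ^ 2) := by
      rw [ch, Finset.mul_sum]
      refine Finset.sum_le_sum fun i _ => ?_
      rw [← sq_abs (d j), ← sq_abs (d (i :: j))]
      nlinarith [sq_nonneg (|d j| - |d (i :: j)| / 2)]
    rw [Finset.sum_add_distrib, Finset.sum_const, Finset.card_univ, Fintype.card_fin,
      nsmul_eq_mul, ← Finset.mul_sum] at h2
    exact h2
  have h2 := mul_le_mul_of_nonneg_left h1 hb0
  have h3 : 0 ≤ ∑ j ∈ lev D (n + 1), d j ^ 2 := Finset.sum_nonneg fun _ _ => sq_nonneg _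
  have h4 := mul_le_mul_of_nonneg_right hb h3
  unfold cr sqr
  linarith

lemma sqr_nn {b : ℕ → ℝ} {d : Nd D → ℝ} {n : ℕ} (hb0 : 0 ≤ b n) : 0 ≤ sqr b d n :=
  mul_nonneg hb0 (Finset.sum_nonneg fun _ _ => sq_nonneg _)

/-- one node: the terms with the children -/
lemma node_le {p ν : ℝ} {n : ℕ} {bn : ℝ} {x z : Nd D → ℝ} {j : Nd D} (hp : 0 ≤ p)
    (hz : p * |z j| ≤ bn) (hx' : ∀ i : Fin D, p * |x (i :: j)| ≤ bn) :
    (x j - z j) * ((-(p * (x j * ch x j)) - ν * 4 ^ n * x j)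
        - (-(p * (z j * ch z j)) - ν * 4 ^ n * z j))
      ≤ D * (bn * (x j - z j) ^ 2) + bn * (|x j - z j| * ch (fun k => |x k - z k|) j)
        - ν * 4 ^ n * (x j - z j) ^ 2 := by
  have e0 : ch (fun k => x k - z k) j = ch x j - ch z j := by
    simp only [ch, Finset.sum_sub_distrib]
  obtain ⟨d, hd⟩ : ∃ d, d = x j - z j := ⟨_, rfl⟩
  have e1 : (x j - z j) * ((-(p * (x j * ch x j)) - ν * 4 ^ n * x j)
        - (-(p * (z j * ch z j)) - ν * 4 ^ n * z j))
      = -(p * ch x j) * d ^ 2 - p * z j * (d * ch (fun k => x k - z k) j) - ν * 4 ^ n * d ^ 2 := by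
    rw [e0, hd]
    ring
  rw [e1, ← hd]
  have i1 : -(p * ch x j) ≤ D * bn := by
    have h1 : ∑ _i : Fin D, -bn ≤ p * ch x j := by
      rw [ch, Finset.mul_sum]
      refine Finset.sum_le_sum fun i _ => ?_
      have h2 := hx' i
      have h3 := mul_le_mul_of_nonneg_left (neg_abs_le (x (i :: j))) hp
      linarith
    rw [Finset.sum_const, Finset.card_univ, Fintype.card_fin, nsmul_eq_mul] at h1
    linarith
  have i1' := mul_le_mul_of_nonneg_right i1 (sq_nonneg d)
  have i2 : |ch (fun k => x k - z k) j| ≤ ch (fun k => |x k - z k|) j :=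
    Finset.abs_sum_le_sum_abs _ _
  have i3 : -(p * z j * (d * ch (fun k => x k - z k) j))
      ≤ bn * (|d| * ch (fun k => |x k - z k|) j) := by
    have hbn : 0 ≤ bn := (mul_nonneg hp (abs_nonneg _)).trans hz
    calc -(p * z j * (d * ch (fun k => x k - z k) j))
        ≤ |p * z j * (d * ch (fun k => x k - z k) j)| := neg_le_abs _
      _ = p * |z j| * (|d| * |ch (fun k => x k - z k) j|) := by
          rw [abs_mul, abs_mul, abs_mul d, abs_of_nonneg hp]
      _ ≤ bn * (|d| * ch (fun k => |x k - z k|) j) :=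
          mul_le_mul hz (mul_le_mul_of_nonneg_left i2 (abs_nonneg _)) (by positivity) hbn
  linarith

/-- the level estimate -/
lemma lev_le {β ν : ℝ} {x z : Nd D → ℝ} {b : ℕ → ℝ}
    (hx : ∀ j : Nd D, (2 : ℝ) ^ (β * j.length) * |x j| ≤ b j.length)
    (hz : ∀ j : Nd D, (2 : ℝ) ^ (β * j.length) * |z j| ≤ b j.length)
    (hx' : ∀ (j : Nd D) (i : Fin D), (2 : ℝ) ^ (β * j.length) * |x (i :: j)| ≤ b j.length)
    (n : ℕ) :
    ∑ j ∈ lev D (n + 1), (x j - z j) * (trhs β ν x j - trhs β ν z j)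
      ≤ 2 * cr b (fun k => x k - z k) n + D * sqr b (fun k => x k - z k) (n + 1)
        + cr b (fun k => x k - z k) (n + 1)
        - ν * ∑ j ∈ lev D (n + 1), 4 ^ j.length * (x j - z j) ^ 2 := by
  have h1 : ∑ j ∈ lev D (n + 1), (x j - z j) * (trhs β ν x j - trhs β ν z j)
      ≤ ∑ j ∈ lev D (n + 1), ((x j - z j) * (inp β x j - inp β z j)
        + (D * (b (n + 1) * (x j - z j) ^ 2)
          + b (n + 1) * (|x j - z j| * ch (fun k => |x k - z k|) j)
          - ν * (4 ^ j.length * (x j - z j) ^ 2))) := by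
    refine Finset.sum_le_sum fun j hj => ?_
    have hl := mem_lev.1 hj
    have h2 := node_le (p := (2 : ℝ) ^ (β * j.length)) (ν := ν) (n := j.length)
      (bn := b j.length) (x := x) (z := z) (j := j) (Real.rpow_nonneg two_pos.le _) (hz j) (hx' j)
    rw [← hl]
    simp only [trhs]
    linarith
  refine h1.trans ?_
  rw [Finset.sum_add_distrib, Finset.sum_sub_distrib, Finset.sum_add_distrib, ← Finset.mul_sum,
    ← Finset.mul_sum, ← Finset.mul_sum, ← Finset.mul_sum]
  have h3 : ∑ j ∈ lev D (n + 1), (x j - z j) * (inp β x j - inp β z j)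
      ≤ 2 * cr b (fun k => x k - z k) n := by
    rw [sum_lev_succ, cr, Finset.mul_sum, Finset.mul_sum]
    refine Finset.sum_le_sum fun j hj => ?_
    have hl := mem_lev.1 hj
    rw [ch, Finset.mul_sum, Finset.mul_sum, Finset.mul_sum]
    refine Finset.sum_le_sum fun i _ => ?_
    obtain ⟨p, hp⟩ : ∃ p : ℝ, p = (2 : ℝ) ^ (β * (j.length : ℝ)) := ⟨_, rfl⟩
    have hp0 : 0 ≤ p := by rw [hp]; exact Real.rpow_nonneg two_pos.le _
    have e1 : (x (i :: j) - z (i :: j)) * (inp β x (i :: j) - inp β z (i :: j))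
        = p * (x j + z j) * ((x j - z j) * (x (i :: j) - z (i :: j))) := by
      simp only [inp]
      rw [← hp]
      ring
    rw [e1]
    have hx1 := hx j
    have hz1 := hz j
    rw [← hp, hl] at hx1 hz1
    have j1 : |p * (x j + z j)| ≤ 2 * b n := by
      rw [abs_mul, abs_of_nonneg hp0]
      have := mul_le_mul_of_nonneg_left (abs_add_le (x j) (z j)) hp0
      linarith
    have hb0 : 0 ≤ b n := (mul_nonneg hp0 (abs_nonneg _)).trans hx1
    calc p * (x j + z j) * ((x j - z j) * (x (i :: j) - z (i :: j)))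
        ≤ |p * (x j + z j) * ((x j - z j) * (x (i :: j) - z (i :: j)))| := le_abs_self _
      _ = |p * (x j + z j)| * (|x j - z j| * |x (i :: j) - z (i :: j)|) := by
          rw [abs_mul, abs_mul (x j - z j)]
      _ ≤ 2 * b n * (|x j - z j| * |x (i :: j) - z (i :: j)|) :=
          mul_le_mul_of_nonneg_right j1 (by positivity)
      _ = 2 * (b n * (|x j - z j| * |x (i :: j) - z (i :: j)|)) := by ring
  unfold sqr
  unfold cr at h3 ⊢
  linarith

/-- the pointwise estimate of the weighted difference -/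
lemma wdiffT_le {β ν : ℝ} {x z : Nd D → ℝ} {b : ℕ → ℝ} (hD : 0 < D)
    (hx : ∀ j : Nd D, (2 : ℝ) ^ (β * j.length) * |x j| ≤ b j.length)
    (hz : ∀ j : Nd D, (2 : ℝ) ^ (β * j.length) * |z j| ≤ b j.length)
    (hx' : ∀ (j : Nd D) (i : Fin D), (2 : ℝ) ^ (β * j.length) * |x (i :: j)| ≤ b j.length)
    (hb0 : ∀ n, 0 ≤ b n) (hb : ∀ n, b n ≤ b (n + 1)) (N : ℕ) :
    ∑ j ∈ tre D N, (1 / (4 * D) : ℝ) ^ j.length
        * ((x j - z j) * (trhs β ν x j - trhs β ν z j))
      ≤ 4 * D * ∑ j ∈ tre D N, (1 / (4 * D) : ℝ) ^ j.length * (b j.length * (x j - z j) ^ 2)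
        - ν * ∑ j ∈ tre D N, (1 / (4 * D) : ℝ) ^ j.length * (4 ^ j.length * (x j - z j) ^ 2)
        - 3 / 2 * D * ((1 / (4 * D) : ℝ) ^ N * sqr b (fun k => x k - z k) N)
        + (1 / (4 * D) : ℝ) ^ N * cr b (fun k => x k - z k) N := by
  have hD1 : (1 : ℝ) ≤ D := by exact_mod_cast hD
  have hD0 : (0 : ℝ) < D := by linarith
  obtain ⟨ω, hω⟩ : ∃ ω : ℝ, ω = 1 / (4 * D) := ⟨_, rfl⟩
  have hω0 : 0 < ω := by rw [hω]; positivity
  have hωD : 4 * D * ω = 1 := by
    rw [hω]
    field_simp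
  have hω4 : ω ≤ 1 / 4 := by nlinarith
  rw [← hω]
  induction N with
  | zero =>
    rw [sum_tre_zero, sum_tre_zero, sum_tre_zero, pow_zero, cr, sqr, sum_lev_zero, sum_lev_zero]
    have h2 := node_le (p := (2 : ℝ) ^ (β * (([] : Nd D).length : ℝ))) (ν := ν) (n := 0)
      (bn := b 0) (x := x) (z := z) (j := []) (Real.rpow_nonneg two_pos.le _) (hz []) (hx' [])
    have h3 : 0 ≤ b 0 * (x [] - z []) ^ 2 := mul_nonneg (hb0 0) (sq_nonneg _)
    have h4 : 0 ≤ D * (b 0 * (x [] - z []) ^ 2) := mul_nonneg hD0.le h3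
    simp only [trhs, inp, List.length_nil, pow_zero, one_mul, mul_one] at h2 ⊢
    have e1 : (x [] - z []) * (0 - (2 : ℝ) ^ (β * ((0 : ℕ) : ℝ)) * (x [] * ch x []) - ν * x []
        - (0 - (2 : ℝ) ^ (β * ((0 : ℕ) : ℝ)) * (z [] * ch z []) - ν * z []))
        = (x [] - z []) * (-((2 : ℝ) ^ (β * ((0 : ℕ) : ℝ)) * (x [] * ch x [])) - ν * x []
        - (-((2 : ℝ) ^ (β * ((0 : ℕ) : ℝ)) * (z [] * ch z [])) - ν * z [])) := by ring
    refine e1.le.trans (h2.trans ?_)
    linarith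
  | succ N ih =>
    rw [sum_tre_succ, sum_tre_succ N (fun j => ω ^ j.length * (b j.length * (x j - z j) ^ 2)),
      sum_tre_succ N (fun j => ω ^ j.length * (4 ^ j.length * (x j - z j) ^ 2))]
    have hlev : ∀ g : Nd D → ℝ, ∑ j ∈ lev D (N + 1), ω ^ j.length * g j
        = ω ^ (N + 1) * ∑ j ∈ lev D (N + 1), g j := by
      intro g
      rw [Finset.mul_sum]
      exact Finset.sum_congr rfl fun j hj => by rw [mem_lev.1 hj]
    have hlevb : ∑ j ∈ lev D (N + 1), b j.length * (x j - z j) ^ 2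
        = sqr b (fun k => x k - z k) (N + 1) := by
      rw [sqr, Finset.mul_sum]
      exact Finset.sum_congr rfl fun j hj => by rw [mem_lev.1 hj]
    rw [hlev, hlev, hlev, hlevb]
    have h1 := lev_le (ν := ν) hx hz hx' N
    have h2 := cr_le (d := fun k => x k - z k) (hb0 N) (hb N)
    have hw0 : 0 < ω ^ N := by positivity
    have hw1 : 0 < ω ^ (N + 1) := by positivity
    have k1 := mul_le_mul_of_nonneg_left h1 hw1.le
    have k2 : ω ^ N * ((1 + 2 * ω) * cr b (fun k => x k - z k) N)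
        ≤ ω ^ N * (3 / 2 * (D * sqr b (fun k => x k - z k) N
          + 1 / 4 * sqr b (fun k => x k - z k) (N + 1))) := by
      apply mul_le_mul_of_nonneg_left _ hw0.le
      have h3 : 0 ≤ cr b (fun k => x k - z k) N :=
        mul_nonneg (hb0 N) (Finset.sum_nonneg fun j _ => mul_nonneg (abs_nonneg _)
          (Finset.sum_nonneg fun i _ => abs_nonneg _))
      calc (1 + 2 * ω) * cr b (fun k => x k - z k) N
          ≤ 3 / 2 * cr b (fun k => x k - z k) N :=
            mul_le_mul_of_nonneg_right (by linarith) h3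
        _ ≤ _ := mul_le_mul_of_nonneg_left h2 (by norm_num)
    have e1 : ω ^ N = 4 * D * ω ^ (N + 1) := by
      rw [pow_succ]
      calc ω ^ N = ω ^ N * (4 * D * ω) := by rw [hωD, mul_one]
        _ = _ := by ring
    have e2 : ω ^ N * (3 / 2 * (D * sqr b (fun k => x k - z k) N
          + 1 / 4 * sqr b (fun k => x k - z k) (N + 1)))
        = 3 / 2 * D * (ω ^ N * sqr b (fun k => x k - z k) N)
          + 3 / 2 * D * (ω ^ (N + 1) * sqr b (fun k => x k - z k) (N + 1)) := by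
      have e3 : ω ^ N * (3 / 2 * (D * sqr b (fun k => x k - z k) N
          + 1 / 4 * sqr b (fun k => x k - z k) (N + 1)))
        = 3 / 2 * D * (ω ^ N * sqr b (fun k => x k - z k) N)
          + 3 / 8 * ω ^ N * sqr b (fun k => x k - z k) (N + 1) := by ring
      rw [e3]
      have e4 : 3 / 8 * ω ^ N * sqr b (fun k => x k - z k) (N + 1)
          = 3 / 8 * (4 * D * ω ^ (N + 1)) * sqr b (fun k => x k - z k) (N + 1) := by rw [← e1]
      rw [e4]
      ring
    have e5 : ω ^ N * ((1 + 2 * ω) * cr b (fun k => x k - z k) N)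
        = ω ^ N * cr b (fun k => x k - z k) N
          + ω ^ (N + 1) * (2 * cr b (fun k => x k - z k) N) := by
      rw [pow_succ]
      ring
    rw [e2, e5] at k2
    linarith

/-- **The Cauchy estimate.** -/
theorem cauchy_galT {β ν T q A K : ℝ} {N M : ℕ} {x : Nd D → ℝ} {f X Z : Nd D → ℝ → ℝ}
    (hD : 0 < D) (hν : 0 < ν)
    (hT : 0 ≤ T) (hq : 1 ≤ q) (hA : 0 ≤ A) (hK0 : 0 ≤ K)
    (hK : ∀ n : ℕ, (2 : ℝ) ^ (β * n) * (A / q ^ n) ≤ 1 / (4 * D) * ν * 4 ^ n + K)
    (hNM : N ≤ M) (hX : GalT β ν T N x f X) (hZ : GalT β ν T M x f Z)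
    (hXA : ∀ t ∈ Icc 0 T, ∀ j : Nd D, |X j t| ≤ A / q ^ j.length)
    (hZA : ∀ t ∈ Icc 0 T, ∀ j : Nd D, |Z j t| ≤ A / q ^ j.length) {t : ℝ} (ht : t ∈ Icc 0 T) :
    ∑ j ∈ tre D N, (1 / (4 * D) : ℝ) ^ j.length * (X j t - Z j t) ^ 2
      ≤ 4 * D * A ^ 2 * (ν + K) * T / (q ^ N) ^ 2 * Real.exp (8 * D * K * t) := by
  have hD1 : (1 : ℝ) ≤ D := by exact_mod_cast hD
  have hD0 : (0 : ℝ) < D := by linarith
  have hq0 : 0 < q := by linarith
  have h0T : (0 : ℝ) ∈ Icc 0 T := ⟨le_rfl, hT⟩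
  have hcX := hX.cont
  have hcZ := hZ.cont
  obtain ⟨ω, hω⟩ : ∃ ω : ℝ, ω = 1 / (4 * D) := ⟨_, rfl⟩
  have hω0 : 0 < ω := by rw [hω]; positivity
  rw [← hω] at hK ⊢
  have hyc : ContinuousOn (fun t => ∑ j ∈ tre D N, ω ^ j.length * (X j t - Z j t) ^ 2)
      (Icc 0 T) :=
    continuousOn_finsetSum _ fun n _ => continuousOn_const.mul (((hcX n).sub (hcZ n)).pow 2)
  refine Run7.h969.Dz.gron hyc (by positivity) (fun t ht => ?_) t ht
  have hsub : Icc 0 t ⊆ Icc 0 T := Icc_subset_Icc_right ht.2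
  have hcr : ContinuousOn (fun r => 2 * ∑ k ∈ tre D N, ω ^ k.length *
      ((X k r - Z k r) * (trhs β ν (fun k => X k r) k - trhs β ν (fun k => Z k r) k))) (Icc 0 T) :=
    continuousOn_const.mul (continuousOn_finsetSum _ fun k _ => continuousOn_const.mul
      (((hcX k).sub (hcZ k)).mul ((trhs_cont hcX k).sub (trhs_cont hcZ k))))
  have hint : ∫ r in (0 : ℝ)..t, 2 * ∑ k ∈ tre D N, ω ^ k.length *
      ((X k r - Z k r) * (trhs β ν (fun k => X k r) k - trhs β ν (fun k => Z k r) k))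
      = ∑ k ∈ tre D N, ω ^ k.length * (X k t - Z k t) ^ 2
        - ∑ k ∈ tre D N, ω ^ k.length * (X k 0 - Z k 0) ^ 2 := by
    refine intervalIntegral.integral_eq_sub_of_hasDerivAt_of_le ht.1
      (f := fun r => ∑ k ∈ tre D N, ω ^ k.length * (X k r - Z k r) ^ 2) ?_ ?_
      (ii_of hcr h0T ht)
    · exact hyc.mono hsub
    · intro r hr
      have hrI : r ∈ Icc 0 T := ⟨hr.1.le, hr.2.le.trans ht.2⟩
      have hnh : Icc 0 T ∈ 𝓝 r := Icc_mem_nhds hr.1 (hr.2.trans_le ht.2)
      have h1 : HasDerivAt (fun r => ∑ k ∈ tre D N, ω ^ k.length * (X k r - Z k r) ^ 2)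
          (∑ k ∈ tre D N, 2 * (ω ^ k.length * ((X k r - Z k r) *
          (trhs β ν (fun k => X k r) k - trhs β ν (fun k => Z k r) k)))) r := by
        refine HasDerivAt.fun_sum fun k hk => ?_
        have hkN := mem_tre.1 hk
        have e1 := (hX.ode k hkN r hrI).hasDerivAt hnh
        have e2 := (hZ.ode k (hkN.trans hNM) r hrI).hasDerivAt hnh
        refine (((e1.fun_sub e2).fun_pow 2).const_mul _).congr_deriv ?_
        norm_num
        ring
      rw [Finset.mul_sum]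
      exact h1
  have h0 : ∑ k ∈ tre D N, ω ^ k.length * (X k 0 - Z k 0) ^ 2 = 0 := by
    refine Finset.sum_eq_zero fun k hk => ?_
    have hkN := mem_tre.1 hk
    rw [hX.init k hkN, hZ.init k (hkN.trans hNM)]
    ring
  have hpt : ∀ r ∈ Icc 0 t, 2 * ∑ k ∈ tre D N, ω ^ k.length *
      ((X k r - Z k r) * (trhs β ν (fun k => X k r) k - trhs β ν (fun k => Z k r) k))
      ≤ 4 * D * A ^ 2 * (ν + K) / (q ^ N) ^ 2
        + 8 * D * K * ∑ k ∈ tre D N, ω ^ k.length * (X k r - Z k r) ^ 2 := by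
    intro r hr
    have hrI := hsub hr
    have hXr := hXA r hrI
    have hZr := hZA r hrI
    have hstep : ∀ n : ℕ, A / q ^ (n + 1) ≤ A / q ^ n := fun n => by
      apply div_le_div_of_nonneg_left hA (by positivity)
      exact pow_le_pow_right₀ hq (Nat.le_succ n)
    have hp : ∀ n : ℕ, (0 : ℝ) ≤ (2 : ℝ) ^ (β * n) := fun n => Real.rpow_nonneg two_pos.le _
    have hb0 : ∀ n : ℕ, 0 ≤ ω * ν * 4 ^ n + K := fun n => by positivity
    have h1 := wdiffT_le (β := β) (ν := ν) (x := fun k => X k r) (z := fun k => Z k r)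
      (b := fun n => ω * ν * 4 ^ n + K) hD
      (fun j => (mul_le_mul_of_nonneg_left (hXr j) (hp _)).trans (hK _))
      (fun j => (mul_le_mul_of_nonneg_left (hZr j) (hp _)).trans (hK _))
      (fun j i => (mul_le_mul_of_nonneg_left ((hXr (i :: j)).trans (hstep _)) (hp _)).trans (hK _))
      hb0
      (fun n => by
        have h2 : (4 : ℝ) ^ n ≤ 4 ^ (n + 1) := pow_le_pow_right₀ (by norm_num) (Nat.le_succ n)
        have h3 := mul_le_mul_of_nonneg_left h2 (by positivity : 0 ≤ ω * ν)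
        linarith) N
    rw [← hω] at h1
    have h4Dω : 4 * D * ω = 1 := by
      rw [hω]
      field_simp
    have h2 : 4 * D * ∑ j ∈ tre D N, ω ^ j.length * ((ω * ν * 4 ^ j.length + K)
        * (X j r - Z j r) ^ 2)
        = ν * ∑ j ∈ tre D N, ω ^ j.length * (4 ^ j.length * (X j r - Z j r) ^ 2)
          + 4 * D * K * ∑ j ∈ tre D N, ω ^ j.length * (X j r - Z j r) ^ 2 := by
      rw [Finset.mul_sum, Finset.mul_sum, Finset.mul_sum, ← Finset.sum_add_distrib]
      refine Finset.sum_congr rfl fun j _ => ?_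
      calc 4 * D * (ω ^ j.length * ((ω * ν * 4 ^ j.length + K) * (X j r - Z j r) ^ 2))
          = (4 * D * ω) * (ν * (ω ^ j.length * (4 ^ j.length * (X j r - Z j r) ^ 2)))
            + 4 * D * K * (ω ^ j.length * (X j r - Z j r) ^ 2) := by ring
        _ = _ := by rw [h4Dω, one_mul]
    rw [h2] at h1
    have h3 : 0 ≤ 3 / 2 * D * (ω ^ N * sqr (fun n => ω * ν * 4 ^ n + K)
        (fun k => X k r - Z k r) N) := by
      have := sqr_nn (b := fun n => ω * ν * 4 ^ n + K) (d := fun k => X k r - Z k r) (hb0 N)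
      positivity
    -- the boundary term
    have h6 : ω ^ N * cr (fun n => ω * ν * 4 ^ n + K) (fun k => X k r - Z k r) N
        ≤ 2 * D * A ^ 2 * (ν + K) / (q ^ N) ^ 2 := by
      have k1 : ∑ j ∈ lev D N, |X j r - Z j r| * ch (fun k => |X k r - Z k r|) j
          ≤ ∑ _j ∈ lev D N, 2 * D * (A / q ^ N) ^ 2 * 1 := by
        refine Finset.sum_le_sum fun j hj => ?_
        have hl := mem_lev.1 hj
        have h4 : |X j r - Z j r| ≤ 2 * (A / q ^ N) := by
          have i1 := abs_sub (X j r) (Z j r)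
          have i2 := hXr j
          have i3 := hZr j
          rw [hl] at i2 i3
          linarith
        have h5 : ch (fun k => |X k r - Z k r|) j ≤ D * (A / q ^ N) := by
          have i1 : ch (fun k => |X k r - Z k r|) j ≤ ∑ _i : Fin D, A / q ^ N := by
            refine Finset.sum_le_sum fun i _ => ?_
            show |X (i :: j) r - Z (i :: j) r| ≤ A / q ^ N
            rw [hX.zero (i :: j) (by rw [List.length_cons, hl]; omega) r, zero_sub, abs_neg]
            have i2 := (hZr (i :: j)).trans (hstep _)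
            rw [hl] at i2
            exact i2
          rw [Finset.sum_const, Finset.card_univ, Fintype.card_fin, nsmul_eq_mul] at i1
          exact i1
        have h6 : 0 ≤ ch (fun k => |X k r - Z k r|) j := Finset.sum_nonneg fun i _ => abs_nonneg _
        calc |X j r - Z j r| * ch (fun k => |X k r - Z k r|) j
            ≤ 2 * (A / q ^ N) * (D * (A / q ^ N)) := mul_le_mul h4 h5 h6 (by positivity)
          _ = _ := by ring
      rw [← Finset.mul_sum, card_lev] at k1
      have k2 : ω ^ N * (ω * ν * 4 ^ N + K) * (D : ℝ) ^ N ≤ ν + K := by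
        have e1 : ω ^ N * D ^ N * 4 ^ N = 1 := by
          rw [← mul_pow, ← mul_pow, hω]
          have : 1 / (4 * (D : ℝ)) * D * 4 = 1 := by field_simp
          rw [this, one_pow]
        have e2 : ω ^ N * (D : ℝ) ^ N ≤ 1 := by
          rw [← mul_pow]
          apply pow_le_one₀ (by positivity)
          rw [hω]
          have : 1 / (4 * (D : ℝ)) * D = 1 / 4 := by field_simp
          rw [this]
          norm_num
        have e3 : ω ^ N * (D : ℝ) ^ N * K ≤ 1 * K := mul_le_mul_of_nonneg_right e2 hK0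
        have e4 : ω ≤ 1 := by nlinarith
        have e5 : ω * ν ≤ 1 * ν := mul_le_mul_of_nonneg_right e4 hν.le
        calc ω ^ N * (ω * ν * 4 ^ N + K) * (D : ℝ) ^ N
            = ω * ν * (ω ^ N * D ^ N * 4 ^ N) + ω ^ N * (D : ℝ) ^ N * K := by ring
          _ ≤ ω * ν * 1 + 1 * K := by rw [e1]; linarith
          _ ≤ ν + K := by linarith
      unfold cr
      calc ω ^ N * ((ω * ν * 4 ^ N + K)
            * ∑ j ∈ lev D N, |X j r - Z j r| * ch (fun k => |X k r - Z k r|) j)
          ≤ ω ^ N * ((ω * ν * 4 ^ N + K) * (2 * D * (A / q ^ N) ^ 2 * (D : ℝ) ^ N)) :=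
            mul_le_mul_of_nonneg_left (mul_le_mul_of_nonneg_left k1 (hb0 N)) (by positivity)
        _ = ω ^ N * (ω * ν * 4 ^ N + K) * (D : ℝ) ^ N * (2 * D * (A / q ^ N) ^ 2) := by ring
        _ ≤ (ν + K) * (2 * D * (A / q ^ N) ^ 2) := mul_le_mul_of_nonneg_right k2 (by positivity)
        _ = _ := by
            field_simp
    have h7 : 4 * D * A ^ 2 * (ν + K) / (q ^ N) ^ 2
        = 2 * (2 * D * A ^ 2 * (ν + K) / (q ^ N) ^ 2) := by
      ring
    rw [h7]
    linarith
  have h2 := intervalIntegral.integral_mono_on ht.1 (ii_of hcr h0T ht)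
    (intervalIntegrable_const.add ((ii_of hyc h0T ht).const_mul (8 * D * K))) hpt
  rw [hint, h0, sub_zero, intervalIntegral.integral_add intervalIntegrable_const
    ((ii_of hyc h0T ht).const_mul (8 * D * K)), intervalIntegral.integral_const,
    intervalIntegral.integral_const_mul, smul_eq_mul, sub_zero] at h2
  have h3 : t * (4 * D * A ^ 2 * (ν + K) / (q ^ N) ^ 2)
      ≤ 4 * D * A ^ 2 * (ν + K) * T / (q ^ N) ^ 2 := by
    have h4 : 0 ≤ 4 * D * A ^ 2 * (ν + K) / (q ^ N) ^ 2 := by positivity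
    have h5 := mul_le_mul_of_nonneg_right ht.2 h4
    calc _ ≤ _ := h5
      _ = _ := by ring
  linarith

end Pool.Agent.Run7.h32.Tr
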