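import Pool.Agent.Run7.h969.Dz.Par

/-!
The invariant regions for the dyadic model on a tree.
-/

set_option autoImplicit false

open Set Filter Topology

namespace Pool.Agent.Run7.h32.Tr

open Run7.h969.Dy (Pol)
open Run7.h969.Dz (Reg)

/-- The parameters of an invariant region with the margin `μ`. -/
structure RegT (κ Q ρ a₁ a₂ b₂ c d lam μ : ℝ) : Prop where
  κ0 : 0 < κ
  κQ : κ ≤ Q
  Q1 : 1 ≤ Q
  ρ1 : 1 < ρ
  a1 : 1 < a₁
  a14 : a₁ ≤ 4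
  a2 : 1 ≤ a₂
  a24 : a₂ ≤ 4
  b2 : 0 < b₂
  ab2 : a₂ - b₂ ≤ 1
  c4 : 1 / 4 ≤ c
  c1 : c ≤ 1
  d0 : 0 < d
  cd : 1 ≤ c + d
  l0 : 0 < lam
  l1 : lam < 1
  kl : ∀ ν : ℝ, 0 < ν → 1 ≤ κ + lam * ν
  low1 : ∀ w x y z ν : ℝ, 0 < ν → 0 ≤ w → w ≤ 1 → 0 ≤ x → x ≤ 1 → 0 ≤ y → y ≤ 1 → 0 ≤ z →
    a₁ * w - (a₁ - 1) ≤ κ * x + lam * (ν / ρ) → a₂ * x - b₂ ≤ κ * y + lam * ν → z ≤ c * y + d →
    κ * y + lam * ν = a₁ * x - (a₁ - 1) →
      μ ≤ κ * (4 / ρ) * (x ^ 2 - κ * (y * z) - ρ * ν * y) - a₁ * (w ^ 2 - κ * (x * y) - ν * x)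
  low2 : ∀ w x y z ν : ℝ, 0 < ν → 0 ≤ w → w ≤ 1 → 0 ≤ x → x ≤ 1 → 0 ≤ y → y ≤ 1 → 0 ≤ z →
    a₁ * w - (a₁ - 1) ≤ κ * x + lam * (ν / ρ) → a₁ * x - (a₁ - 1) ≤ κ * y + lam * ν →
    z ≤ c * y + d → κ * y + lam * ν = a₂ * x - b₂ →
      μ ≤ κ * (4 / ρ) * (x ^ 2 - κ * (y * z) - ρ * ν * y) - a₂ * (w ^ 2 - κ * (x * y) - ν * x)
  upp : ∀ w x y z ν : ℝ, 0 < ν → 0 ≤ w → w ≤ 1 → 0 ≤ x → x ≤ 1 → 0 ≤ y → y ≤ 1 → 0 ≤ z →
    x ≤ c * w + d → a₁ * y - (a₁ - 1) ≤ κ * z + lam * (ρ * ν) →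
    a₂ * y - b₂ ≤ κ * z + lam * (ρ * ν) → y = c * x + d →
      μ ≤ c * (w ^ 2 - κ * (x * y) - ν * x) - (4 / ρ) * (x ^ 2 - κ * (y * z) - ρ * ν * y)

lemma RegT.of_reg {κ Q ρ a₁ a₂ b₂ c d lam μ : ℝ} (h : Reg κ ρ a₁ a₂ b₂ c d lam 0 μ)
    (hκQ : κ ≤ Q) (hQ : 1 ≤ Q) : RegT κ Q ρ a₁ a₂ b₂ c d lam μ where
  κ0 := h.κ0
  κQ := hκQ
  Q1 := hQ
  ρ1 := h.ρ1
  a1 := h.a1
  a14 := h.a14
  a2 := h.a2
  a24 := h.a24
  b2 := h.b2
  ab2 := h.ab2
  c4 := by linarith [h.c2]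
  c1 := h.c1
  d0 := h.d0
  cd := h.cd
  l0 := h.l0
  l1 := h.l1
  kl := fun ν hν => h.kl ν hν hν.le
  low1 := fun w x y z ν hν => h.low1 w x y z ν hν hν.le
  low2 := fun w x y z ν hν => h.low2 w x y z ν hν hν.le
  upp := fun w x y z ν hν => h.upp w x y z ν hν hν.le

/-- The region for a large `κ`. -/
lemma polZ {κ : ℝ} (hκ : 4 ≤ κ) :
    Pol κ 2 1 2 (κ * (1 / (κ + 12))) (1 - 2 * (1 / (κ + 12))) (1 / 2) (fun _ => 7 / 16) := by
  obtain ⟨θ, hθ⟩ : ∃ θ, θ = 1 / (κ + 12) := ⟨_, rfl⟩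
  rw [← hθ]
  have hθ0 : 0 < θ := by rw [hθ]; positivity
  have hθκ : θ * (κ + 12) = 1 := by
    rw [hθ]
    field_simp
  have hθ16 : θ ≤ 1 / 16 := by nlinarith
  have hc4 : 1 / 4 ≤ κ * θ := by nlinarith
  refine ⟨by norm_num, by norm_num, by norm_num, by norm_num, by positivity, by linarith,
    by norm_num, by norm_num, ?_, ?_, ?_⟩
  · intro x ν q w x0 x1 _ hν hq he w0 w1 _
    have hx : x = (1 + q + ν / 2) / 2 := by linarith
    have e1 : 4 * q * (κ * θ * q + κ * (1 - 2 * θ))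
        = 4 * κ * q - 4 * (κ * θ) * (q * (2 - q)) := by ring
    have hq1 : q ≤ 1 := by linarith
    have h1 : 1 / 4 * (q * (2 - q)) ≤ κ * θ * (q * (2 - q)) :=
      mul_le_mul_of_nonneg_right hc4 (mul_nonneg hq (by linarith))
    have h2 : x ^ 2 - q = (1 - x) ^ 2 + ν / 2 := by
      have : q = 2 * x - 1 - ν / 2 := by linarith
      rw [this]
      ring
    have h3 : 4 * (x ^ 2 - q) ≤ κ * (x ^ 2 - q) :=
      mul_le_mul_of_nonneg_right hκ (by rw [h2]; positivity)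
    have h4 : w ^ 2 ≤ 1 := by nlinarith
    obtain ⟨s, hs⟩ : ∃ s, s = 1 - x := ⟨_, rfl⟩
    obtain ⟨p, hp⟩ : ∃ p, p = ν / 2 := ⟨_, rfl⟩
    have hx' : x = 1 - s := by linarith
    have hν' : ν = 2 * p := by linarith
    have hq' : q = 1 - 2 * s - p := by linarith
    have hs0 : 0 ≤ s := by linarith
    have hp0 : 0 ≤ p := by linarith
    rw [e1]
    have h5 : 7 / 16 ≤ 16 * (x ^ 2 - q) + q * (2 - q) - 4 * ν * q - 2 * 1 + 2 * x * (q + ν) := by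
      have e2 : 16 * (x ^ 2 - q) + q * (2 - q) - 4 * ν * q - 2 * 1 + 2 * x * (q + ν)
          = (4 * s - 3 / 4) ^ 2 + 7 / 16 + 10 * p + 10 * (s * p) + 7 * p ^ 2 := by
        rw [hx', hν', hq']
        ring
      rw [e2]
      have h6 : 0 ≤ s * p := mul_nonneg hs0 hp0
      have h7 := sq_nonneg (4 * s - 3 / 4)
      have h8 := sq_nonneg p
      linarith
    nlinarith
  · intro x ν q w x0 x1 _ hν hq he w0 w1 _
    linarith
  · intro x ν w y x0 x1 hν y1 hy w0 w1 _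
    refine ⟨2 * y - 1, by linarith, Or.inl (by linarith), ?_⟩
    have h1 : κ * x ≤ 2 := by
      have h2 : θ * (κ * x) ≤ θ * 2 := by nlinarith
      exact le_of_mul_le_mul_left h2 hθ0
    have h2 : x ≤ 1 / 2 := by nlinarith
    have h3 : x ≤ 12 * θ := by
      have h4 : x * (κ + 12) ≤ 12 := by nlinarith
      have h5 : θ * (x * (κ + 12)) ≤ θ * 12 := mul_le_mul_of_nonneg_left h4 hθ0.le
      have h6 : θ * (x * (κ + 12)) = x := by
        calc θ * (x * (κ + 12)) = x * (θ * (κ + 12)) := by ring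
          _ = x := by rw [hθκ, mul_one]
      linarith
    have hc : κ * θ = 1 - 12 * θ := by linarith
    have hy0 : 7 / 8 ≤ y := by
      have : 0 ≤ κ * θ * x := by positivity
      linarith
    have h4 : κ * θ * (κ * x) ≤ κ * θ * 2 := mul_le_mul_of_nonneg_left h1 (by positivity)
    have h5 : κ * θ * (κ * x) * y ≤ κ * θ * (κ * x) * 1 :=
      mul_le_mul_of_nonneg_left y1 (by positivity)
    have h6 : 4 * x ^ 2 ≤ 2 * x := by nlinarith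
    have h7 : 21 / 8 ≤ 8 * y ^ 2 - 4 * y := by nlinarith
    have h8 : 0 ≤ ν * (2 * y - κ * θ * x) := by
      apply mul_nonneg hν
      rw [hy]
      have : 0 ≤ κ * θ * x := by positivity
      linarith
    have h9 : 0 ≤ κ * θ * w ^ 2 := by positivity
    have e1 : κ * θ * (w ^ 2 - κ * x * y - ν * x) - 4 * (x ^ 2 - y * (2 * y - 1))
        + 4 * (1 - 1 / 2) * ν * y
        = κ * θ * w ^ 2 - κ * θ * (κ * x) * y - 4 * x ^ 2 + (8 * y ^ 2 - 4 * y)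
          + ν * (2 * y - κ * θ * x) := by ring
    rw [e1]
    linarith

theorem reg_ofT {κ Q ρ a₁ a₂ b₂ c d lam μ m : ℝ} (h : Pol κ a₁ a₂ b₂ c d lam (fun _ => m))
    (hκ : 0 < κ) (hκQ : κ ≤ Q) (hQ : 1 ≤ Q) (hρ : 1 < ρ) (hm : 4 * Q * (ρ - 1) + μ ≤ m)
    (a14 : a₁ ≤ 4) (a21 : 1 ≤ a₂) (a24 : a₂ ≤ 4) (c4 : 1 / 4 ≤ c) (c1 : c ≤ 1) (cd : 1 ≤ c + d)
    (kl : ∀ ν : ℝ, 0 < ν → 1 ≤ κ + lam * ν) :
    RegT κ Q ρ a₁ a₂ b₂ c d lam μ := by
  have hρ0 : 0 < ρ := by linarith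
  have hθ : 0 ≤ 1 - 1 / ρ := by
    rw [sub_nonneg, div_le_one hρ0]
    exact hρ.le
  have hθ1 : 1 - 1 / ρ ≤ ρ - 1 := by
    have h1 : 1 - 1 / ρ = (ρ - 1) / ρ := by field_simp
    rw [h1, div_le_iff₀ hρ0]
    nlinarith
  have hdiv : ∀ ν : ℝ, 0 < ν → ν / ρ ≤ ν := fun ν hν => div_le_self hν.le hρ.le
  -- the lower edges
  have key : ∀ a w x y z ν : ℝ, 0 < ν → 0 ≤ x → x ≤ 1 → 0 ≤ y → 0 ≤ z →
      z ≤ c * y + d → m ≤ 4 * κ * x ^ 2 - 4 * (κ * y) * (c * (κ * y) + κ * d) - 4 * ν * (κ * y)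
        - a * w ^ 2 + a * x * (κ * y + ν) →
      μ ≤ κ * (4 / ρ) * (x ^ 2 - κ * (y * z) - ρ * ν * y) - a * (w ^ 2 - κ * (x * y) - ν * x) := by
    intro a w x y z ν hν hx0 hx1 hy0 hz0 hz hmain
    have h1 : κ * (4 / ρ) * (x ^ 2 - κ * (y * z) - ρ * ν * y) =
        4 * κ * (x ^ 2 - κ * (y * z)) - 4 * κ * (1 - 1 / ρ) * (x ^ 2 - κ * (y * z))
          - 4 * κ * ν * y := by
      field_simp
      ring
    have h2 : x ^ 2 - κ * (y * z) ≤ 1 := by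
      have h3 : x ^ 2 ≤ 1 := by nlinarith
      have h4 : 0 ≤ κ * (y * z) := by positivity
      linarith
    have h3 : 4 * κ * (1 - 1 / ρ) * (x ^ 2 - κ * (y * z)) ≤ 4 * Q * (ρ - 1) := by
      calc 4 * κ * (1 - 1 / ρ) * (x ^ 2 - κ * (y * z)) ≤ 4 * κ * (1 - 1 / ρ) * 1 :=
            mul_le_mul_of_nonneg_left h2 (by positivity)
        _ ≤ 4 * Q * (1 - 1 / ρ) * 1 := by
            have := mul_le_mul_of_nonneg_right hκQ hθ
            linarith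
        _ ≤ 4 * Q * (ρ - 1) := by
            have := mul_le_mul_of_nonneg_left hθ1 (by linarith : 0 ≤ 4 * Q)
            linarith
    have h4 : κ * y * (κ * z) ≤ κ * y * (c * (κ * y) + κ * d) := by
      apply mul_le_mul_of_nonneg_left _ (by positivity)
      have := mul_le_mul_of_nonneg_left hz hκ.le
      linarith
    rw [h1]
    nlinarith
  refine ⟨hκ, hκQ, hQ, hρ, h.a1, a14, a21, a24, h.b2, h.ab2, c4, c1, h.d0, cd, h.l0, h.l1, kl,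
    ?_, ?_, ?_⟩
  · intro w x y z ν hν w0 w1 x0 x1 y0 y1 z0 P0 P1 P2 he
    apply key a₁ w x y z ν hν x0 x1 y0 z0 P2
    apply h.r1 x ν (κ * y) w x0 x1 (by linarith) hν.le (by positivity) he w0 w1
    have h2 := mul_le_mul_of_nonneg_left (hdiv ν hν) h.l0.le
    linarith
  · intro w x y z ν hν w0 w1 x0 x1 y0 y1 z0 P0 P1 P2 he
    apply key a₂ w x y z ν hν x0 x1 y0 z0 P2
    apply h.r2 x ν (κ * y) w x0 x1 (by linarith) hν.le (by positivity) he w0 w1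
    have h2 := mul_le_mul_of_nonneg_left (hdiv ν hν) h.l0.le
    linarith
  · intro w x y z ν hν w0 w1 x0 x1 y0 y1 z0 P0 P1 P2 he
    obtain ⟨H, hH1, hH2, hmain⟩ := h.r3 x ν w y x0 x1 hν.le y1 he w0 w1 P0
    have hH : H ≤ κ * z + lam * (ρ * ν) := by
      rcases hH2 with hH2 | hH2
      · exact hH2.trans P1
      · exact hH2.trans P2
    have h1 : (4 / ρ) * (x ^ 2 - κ * (y * z) - ρ * ν * y) =
        4 / ρ * (x ^ 2 - y * (κ * z)) - 4 * ν * y := by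
      field_simp
    have h2 : 4 / ρ * (x ^ 2 - y * (κ * z)) ≤ 4 / ρ * (x ^ 2 - y * H) + 4 * lam * ν * y := by
      have h3 : y * H ≤ y * (κ * z + lam * (ρ * ν)) := mul_le_mul_of_nonneg_left hH y0
      have h4 : 4 / ρ * (x ^ 2 - y * H) + 4 * lam * ν * y =
          4 / ρ * (x ^ 2 - y * H + y * (lam * (ρ * ν))) := by
        field_simp
      rw [h4]
      apply mul_le_mul_of_nonneg_left _ (by positivity)
      linarith
    have h3 : 4 / ρ * (x ^ 2 - y * H) ≤ 4 * (x ^ 2 - y * H) + 4 * Q * (ρ - 1) := by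
      have h4 : 4 / ρ * (x ^ 2 - y * H) =
          4 * (x ^ 2 - y * H) + 4 * (1 - 1 / ρ) * (y * H - x ^ 2) := by
        field_simp
        ring
      have h5 : y * H - x ^ 2 ≤ 1 := by
        have h6 : y * H ≤ 1 := by nlinarith
        nlinarith [sq_nonneg x]
      have h6 : 4 * (1 - 1 / ρ) * (y * H - x ^ 2) ≤ 4 * (1 - 1 / ρ) * 1 :=
        mul_le_mul_of_nonneg_left h5 (by positivity)
      have h7 : 4 * 1 * (1 - 1 / ρ) ≤ 4 * Q * (ρ - 1) :=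
        mul_le_mul (by linarith) hθ1 hθ (by linarith)
      rw [h4]
      linarith
    rw [h1]
    nlinarith

/-- For every `Q > 1` there are invariant regions with `ρ` arbitrarily close to one. -/
theorem reg_existsT {Q η : ℝ} (hQ1 : 1 < Q) (hη : 0 < η) :
    ∃ ρ : ℝ, 1 < ρ ∧ ρ ≤ 1 + η ∧ ∃ a₁ a₂ b₂ c d lam μ : ℝ, 0 < μ ∧
      RegT (Q / ρ ^ 3) Q ρ a₁ a₂ b₂ c d lam μ := by
  rcases le_or_gt Q 4 with hQ4 | hQ4
  · obtain ⟨ρ, h1, h2, a₁, a₂, b₂, c, d, lam, μ, hμ, hR⟩ := Run7.h969.Dz.reg_exists hQ1 hQ4 hη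
    exact ⟨ρ, h1, h2, a₁, a₂, b₂, c, d, lam, μ, hμ,
      RegT.of_reg hR (div_le_self (by linarith) (one_le_pow₀ h1.le)) hQ1.le⟩
  · have hcont : ContinuousAt (fun θ : ℝ => min (Q / (1 + θ) ^ 3 - 4) (7 / 16 - 4 * Q * θ)) 0 := by
      have h1 : ContinuousAt (fun θ : ℝ => Q / (1 + θ) ^ 3) 0 := by
        apply ContinuousAt.div continuousAt_const (by fun_prop)
        norm_num
      fun_prop
    have hpos : 0 < (fun θ : ℝ => min (Q / (1 + θ) ^ 3 - 4) (7 / 16 - 4 * Q * θ)) 0 := by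
      norm_num
      linarith
    have hev := hcont.eventually (lt_mem_nhds hpos)
    obtain ⟨δ, hδ, hball⟩ := Metric.eventually_nhds_iff.1 hev
    obtain ⟨θ, hθ⟩ : ∃ θ, θ = min (δ / 2) η := ⟨_, rfl⟩
    have hθ0 : 0 < θ := by rw [hθ]; exact lt_min (by positivity) hη
    have hθη : θ ≤ η := by rw [hθ]; exact min_le_right _ _
    have hθδ : θ ≤ δ / 2 := by rw [hθ]; exact min_le_left _ _
    have h1 : 0 < min (Q / (1 + θ) ^ 3 - 4) (7 / 16 - 4 * Q * θ) := hball (by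
      rw [Real.dist_eq, sub_zero, abs_of_pos hθ0]
      linarith)
    have h1a := h1.trans_le (min_le_left _ _)
    have h1b := h1.trans_le (min_le_right _ _)
    have h2 : (1 : ℝ) ≤ (1 + θ) ^ 3 := one_le_pow₀ (by linarith)
    have h4 : 4 ≤ Q / (1 + θ) ^ 3 := by linarith
    obtain ⟨κ, hκ⟩ : ∃ κ, κ = Q / (1 + θ) ^ 3 := ⟨_, rfl⟩
    refine ⟨1 + θ, by linarith, by linarith, 2, 1, 2, κ * (1 / (κ + 12)),
      1 - 2 * (1 / (κ + 12)), 1 / 2, 7 / 16 - 4 * Q * θ, h1b, ?_⟩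
    rw [← hκ] at h4 ⊢
    have hc : κ * (1 / (κ + 12)) ≤ 1 := by
      rw [mul_one_div, div_le_one (by linarith)]
      linarith
    have hc4 : 1 / 4 ≤ κ * (1 / (κ + 12)) := by
      rw [mul_one_div, div_le_div_iff₀ (by norm_num) (by linarith)]
      linarith
    have hcd : 1 ≤ κ * (1 / (κ + 12)) + (1 - 2 * (1 / (κ + 12))) := by
      have : 0 ≤ (κ - 2) * (1 / (κ + 12)) := mul_nonneg (by linarith) (by positivity)
      linarith
    exact reg_ofT (polZ h4) (by linarith) (by rw [hκ]; exact div_le_self (by linarith) h2)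
      hQ1.le (by linarith) (by linarith) (by norm_num) le_rfl (by norm_num) hc4 hc hcd
      fun ν hν => by linarith

end Pool.Agent.Run7.h32.Tr
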