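import Pool.Agent.Run7.h32.Tr.Neg
import Pool.Agent.Run7.h32.Tr.Inv
import Pool.Agent.Run7.h32.Fo.Crit

/-!
The forced dyadic model on a tree: the decay with a rate better than the critical one.
-/

set_option autoImplicit false

open Set Filter Topology

namespace Pool.Agent.Run7.h32.Tr

open Run7.h969.Dy (pow_mul_nat expo)
open Run7.h969.Dz (small_ev)
open Pool.Agent.Run7.h32.Fo (abs_le_lin)

variable {D : ℕ}

set_option maxHeartbeats 1000000 in
/-- The bound from an invariant region. -/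
theorem crit_coreT {β ν s K F S B Q : ℝ} (hD : 0 < D) (hν : 0 < ν) (hs1 : s ≤ 1) (hF0 : 0 ≤ F)
    (hS0 : 0 ≤ S) (hB' : B = 2 ^ β)
    {ρ r g δ μ a₁ a₂ b₂ c d lam E P : ℝ} {k : ℕ}
    (hR : RegT (D * 64 / B ^ 2 / ρ ^ 3) Q ρ a₁ a₂ b₂ c d lam μ)
    (hr : r = B * ρ / 4) (hr1 : 1 < r) (hrs : r ≤ 2 ^ s) (hδ0 : 0 < δ) (hδ1 : δ ≤ 1 / 2)
    (hδa : a₁ * δ < a₁ - 1) (hδb : a₂ * δ < b₂) (hδd : δ < d) (hg0 : 0 < g) (hgK : g * K ≤ δ)
    (hgS : g * (r ^ k * S) ≤ δ) (hgrS : g * (r ^ (k + 1) * S) ≤ δ) (hk1 : 1 ≤ k)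
    (hP0 : 0 < P) (hKP : K < P) (hFP : F < P * ν / 2) (hBρ : B * ρ ^ 2 ≤ 8)
    (hneg : ∀ n ≥ k, D * (B ^ n * (P / ((2 : ℝ) ^ s) ^ (n + 1))) ≤ ν / 2 * 4 ^ n)
    (hE0 : 0 ≤ E) (hE : ∀ n ≥ k, r ^ n * (P / ((2 : ℝ) ^ s) ^ n) ≤ E) (he1 : g * E ≤ 1)
    (heμ : 20 * Q ^ 2 * (g * E) + 8 * Q * (g * F / (B * ρ ^ 2 / (16 * g))) < μ)
    (heν : D * 64 / B ^ 2 / ρ ^ 3 * (g * E) + g * F / (B * ρ ^ 2 / (16 * g))
      < (1 - lam) * (ρ ^ k * (ν / (B * ρ ^ 2 / (16 * g))))) :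
    ∃ C : ℝ, ∀ (T : ℝ) (N : ℕ) (x : Nd D → ℝ) (f X : Nd D → ℝ → ℝ),
    0 < T → (∀ j : Nd D, (2 : ℝ) ^ (s * j.length) * |x j| ≤ K) →
    (∀ t ∈ Icc 0 T, ∀ j : Nd D, |f j t| ≤ F * 2 ^ j.length) →
    (∀ t ∈ Icc 0 T, ∀ j, |X j t| ≤ S) → GalT β ν T N x f X →
      ∀ t ∈ Icc 0 T, ∀ j : Nd D, r ^ j.length * |X j t| ≤ C := by
  have hB0 : 0 < B := by rw [hB']; exact Real.rpow_pos_of_pos two_pos _
  have hD' : (0 : ℝ) < D := by exact_mod_cast hD
  have hρ1 := hR.ρ1
  have hρ0 : 0 < ρ := by linarith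
  have hr0 : 0 < r := by linarith
  obtain ⟨C₀, hC₀⟩ : ∃ C₀, C₀ = B * ρ ^ 2 / (16 * g) := ⟨_, rfl⟩
  have hC₀0 : 0 < C₀ := by rw [hC₀]; positivity
  rw [← hC₀] at heν heμ
  obtain ⟨γ, hγ⟩ : ∃ γ, γ = g * F / C₀ := ⟨_, rfl⟩
  have hγ0 : 0 ≤ γ := by rw [hγ]; positivity
  rw [← hγ] at heν heμ
  obtain ⟨ν₀, hν₀⟩ : ∃ ν₀, ν₀ = ρ ^ k * (ν / C₀) := ⟨_, rfl⟩
  rw [← hν₀] at heν
  have hν₀0 : 0 < ν₀ := by rw [hν₀]; positivity
  have hl := hR.l0
  -- the number of generations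
  obtain ⟨N₀, hN₀⟩ : ∃ N₀ : ℕ, ∀ N ≥ N₀, 1 < lam * (ρ ^ N * ν₀) := by
    have h1 : Tendsto (fun n : ℕ => lam * (ρ ^ n * ν₀)) atTop atTop :=
      ((tendsto_pow_atTop_atTop_of_one_lt hρ1).atTop_mul_const hν₀0).const_mul_atTop hl
    obtain ⟨N₀, h2⟩ := eventually_atTop.1 (h1.eventually_gt_atTop 1)
    exact ⟨N₀, h2⟩
  refine ⟨(1 / g + E) + r ^ (N₀ + k) * S, ?_⟩
  intro T N x f X hT hK hF hle hG
  have hnp := neg_partT hν hP0 hKP hK hG hs1 hF hFP hk1 (by rw [← hB']; exact hneg)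
  intro t ht j
  by_cases hNN : N₀ + k ≤ N ∧ k ≤ j.length
  · -- the invariant region
    obtain ⟨hNN, hkj⟩ := hNN
    obtain ⟨m₀, j₀, hjm, hj₀⟩ : ∃ m₀ j₀ : Nd D, j = m₀ ++ j₀ ∧ j₀.length = k :=
      ⟨j.take (j.length - k), j.drop (j.length - k), (List.take_append_drop _ _).symm, by
        rw [List.length_drop]; omega⟩
    have hlen : ∀ m : Nd D, (m ++ j₀).length = k + m.length := fun m => by
      rw [List.length_append, hj₀, add_comm]
    have hlow : ∀ t ∈ Icc 0 T, ∀ m : Nd D, -(g * E) ≤ g * r ^ (k + m.length) * X (m ++ j₀) t := by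
      intro t ht m
      have h1 := hnp (m ++ j₀) (by rw [hlen]; omega) t ht
      rw [hlen] at h1
      have h2 := hE (k + m.length) (by omega)
      have h3 : g * r ^ (k + m.length) * -(P / ((2 : ℝ) ^ s) ^ (k + m.length))
          ≤ g * r ^ (k + m.length) * X (m ++ j₀) t := mul_le_mul_of_nonneg_left h1.le (by positivity)
      have h4 := mul_le_mul_of_nonneg_left h2 hg0.le
      linarith
    have key := invariantT hR (T := T) (N := N - k) (δ := δ) (C₀ := C₀ * (4 / ρ) ^ k)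
      (e := g * E) (γ := γ) hD
      (by positivity) hν₀0 (by positivity) he1 hγ0 heμ heν
      (fun m t => g * r ^ (k + m.length) * X (m ++ j₀) t)
      (fun m t => g * r ^ (k + m.length) * f (m ++ j₀) t
        / (C₀ * (4 / ρ) ^ k * (4 / ρ) ^ m.length))
      (fun m hm t ht => ?_) hlow
      (fun m hm t => by rw [hG.zero (m ++ j₀) (by rw [hlen]; omega) t, mul_zero])
      (continuousOn_const.mul (hG.cont _))
      (fun i m hm t ht => ?_) (by linarith) hδa hδb hδd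
      (fun t ht => ⟨?_, fun i => ?_⟩) (fun m => ?_) hT.le (hN₀ (N - k) (by omega)) m₀ t ht
    · have hlow' := hlow t ht m₀
      rw [← hlen, ← hjm] at hlow'
      have key' : g * r ^ (k + m₀.length) * X (m₀ ++ j₀) t ≤ 1 := key
      rw [← hlen, ← hjm] at key'
      have h1 : |g * (r ^ j.length * X j t)| ≤ 1 + g * E := by
        have h0 : 0 ≤ g * E := by positivity
        rw [abs_le]
        constructor <;> linarith
      rw [abs_mul, abs_of_pos hg0, abs_mul, abs_of_pos (by positivity : 0 < r ^ j.length)] at h1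
      have h2 : r ^ j.length * |X j t| ≤ (1 + g * E) / g := by
        rw [le_div_iff₀ hg0]
        linarith
      have h3 : (1 + g * E) / g = 1 / g + E := by
        field_simp
      have h4 : 0 ≤ r ^ (N₀ + k) * S := by positivity
      linarith
    · -- the force
      have h1 := hF t ht (m ++ j₀)
      rw [hlen] at h1
      have hden : 0 < C₀ * (4 / ρ) ^ k * (4 / ρ) ^ m.length := by positivity
      have h2 : |g * r ^ (k + m.length) * f (m ++ j₀) t / (C₀ * (4 / ρ) ^ k * (4 / ρ) ^ m.length)|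
          = g * r ^ (k + m.length) * |f (m ++ j₀) t|
            / (C₀ * (4 / ρ) ^ k * (4 / ρ) ^ m.length) := by
        rw [abs_div, abs_of_pos hden, abs_mul, abs_of_pos (by positivity)]
      show |g * r ^ (k + m.length) * f (m ++ j₀) t / (C₀ * (4 / ρ) ^ k * (4 / ρ) ^ m.length)| ≤ γ
      rw [h2, hγ, div_le_div_iff₀ hden hC₀0]
      have h3 : g * r ^ (k + m.length) * |f (m ++ j₀) t| * C₀
          ≤ g * r ^ (k + m.length) * (F * 2 ^ (k + m.length)) * C₀ := by gcongr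
      refine h3.trans ?_
      have h4 : (r * 2) ^ (k + m.length) ≤ (4 / ρ) ^ (k + m.length) := by
        apply pow_le_pow_left₀ (by positivity)
        rw [hr, le_div_iff₀ hρ0]
        linarith
      have h5 : (4 / ρ) ^ k * (4 / ρ) ^ m.length = (4 / ρ) ^ (k + m.length) := by rw [← pow_add]
      calc g * r ^ (k + m.length) * (F * 2 ^ (k + m.length)) * C₀
          = g * F * C₀ * (r * 2) ^ (k + m.length) := by rw [mul_pow]; ring
        _ ≤ g * F * C₀ * (4 / ρ) ^ (k + m.length) := mul_le_mul_of_nonneg_left h4 (by positivity)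
        _ = g * F * (C₀ * (4 / ρ) ^ k * (4 / ρ) ^ m.length) := by rw [← h5]; ring
    · -- the equation
      obtain ⟨L, hL⟩ : ∃ L, L = m.length := ⟨_, rfl⟩
      have hl0 : (m ++ j₀).length = k + L := by rw [hlen, hL]
      have hl1 : (i :: (m ++ j₀)).length = k + L + 1 := by rw [List.length_cons, hl0]
      have hm1 : (i :: m).length = L + 1 := by rw [List.length_cons, hL]
      have h1 := (hG.ode (i :: (m ++ j₀)) (by rw [hl1, hL]; omega) t ht).const_mul
        (g * r ^ (k + L + 1))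
      have hch : ch (fun k' => g * r ^ (k + k'.length) * X (k' ++ j₀) t) (i :: m)
          = g * r ^ (k + (L + 2)) * ch (fun k' => X k' t) (i :: (m ++ j₀)) := by
        rw [ch, ch, Finset.mul_sum]
        refine Finset.sum_congr rfl fun i' _ => ?_
        rw [List.length_cons, hm1]
        rfl
      have h2 : g * r ^ (k + L + 1) * trhs β ν (fun j => X j t) (i :: (m ++ j₀)) =
          C₀ * (4 / ρ) ^ k * (4 / ρ) ^ (L + 1) * ((g * r ^ (k + L) * X (m ++ j₀) t) ^ 2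
          - D * 64 / B ^ 2 / ρ ^ 3 * ((g * r ^ (k + (L + 1)) * X (i :: (m ++ j₀)) t)
            * (g * r ^ (k + (L + 2)) * ch (fun k' => X k' t) (i :: (m ++ j₀)) / D))
          - ρ ^ (L + 1) * ν₀ * (g * r ^ (k + (L + 1)) * X (i :: (m ++ j₀)) t)) := by
        show g * r ^ (k + L + 1) * ((2 : ℝ) ^ (β * ((m ++ j₀).length : ℝ)) * X (m ++ j₀) t ^ 2
          - (2 : ℝ) ^ (β * ((i :: (m ++ j₀)).length : ℝ))
            * (X (i :: (m ++ j₀)) t * ch (fun k' => X k' t) (i :: (m ++ j₀)))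
          - ν * 4 ^ (i :: (m ++ j₀)).length * X (i :: (m ++ j₀)) t) = _
        have e2 : k + (L + 1) = k + L + 1 := rfl
        have e3 : k + (L + 2) = k + L + 2 := rfl
        rw [hl0, hl1, pow_mul_nat, pow_mul_nat, ← hB', hν₀, hC₀, hr, e2, e3]
        obtain ⟨x0, hx0⟩ : ∃ x0, x0 = X (m ++ j₀) t := ⟨_, rfl⟩
        obtain ⟨x1, hx1⟩ : ∃ x1, x1 = X (i :: (m ++ j₀)) t := ⟨_, rfl⟩
        obtain ⟨x2, hx2⟩ : ∃ x2, x2 = ch (fun k' => X k' t) (i :: (m ++ j₀)) := ⟨_, rfl⟩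
        rw [← hx0, ← hx1, ← hx2]
        simp only [div_pow, mul_pow, pow_add]
        have hBn : B ^ L ≠ 0 := by positivity
        have hBk : B ^ k ≠ 0 := by positivity
        have hρn : ρ ^ L ≠ 0 := by positivity
        have hρk : ρ ^ k ≠ 0 := by positivity
        have hDne : (D : ℝ) ≠ 0 := hD'.ne'
        field_simp
        ring
      have h3 : g * r ^ (k + L + 1) * f (i :: (m ++ j₀)) t =
          C₀ * (4 / ρ) ^ k * (4 / ρ) ^ (L + 1) * (g * r ^ (k + (L + 1)) * f (i :: (m ++ j₀)) t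
            / (C₀ * (4 / ρ) ^ k * (4 / ρ) ^ (L + 1))) := by
        have hden : C₀ * (4 / ρ) ^ k * (4 / ρ) ^ (L + 1) ≠ 0 := by positivity
        rw [mul_div_cancel₀ _ hden]
        rfl
      rw [mul_add, h2, h3, ← mul_add] at h1
      have h4 : HasDerivWithinAt (fun t => g * r ^ (k + L + 1) * X (i :: (m ++ j₀)) t)
        (C₀ * (4 / ρ) ^ k * (4 / ρ) ^ (m.length + 1) * ((g * r ^ (k + m.length) * X (m ++ j₀) t) ^ 2
          - D * 64 / B ^ 2 / ρ ^ 3 * ((g * r ^ (k + (i :: m).length) * X (i :: m ++ j₀) t)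
            * (ch (fun k' => g * r ^ (k + k'.length) * X (k' ++ j₀) t) (i :: m) / D))
          - ρ ^ (m.length + 1) * ν₀ * (g * r ^ (k + (i :: m).length) * X (i :: m ++ j₀) t)
          + g * r ^ (k + (i :: m).length) * f (i :: m ++ j₀) t
            / (C₀ * (4 / ρ) ^ k * (4 / ρ) ^ (i :: m).length))) (Icc 0 T) t := by
        rw [hch, hm1, ← hL]
        exact h1
      have h5 : (fun t => g * r ^ (k + L + 1) * X (i :: (m ++ j₀)) t)
          = fun t => g * r ^ (k + (i :: m).length) * X (i :: m ++ j₀) t := by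
        rw [hm1]
        rfl
      rw [h5] at h4
      exact h4
    · show g * r ^ (k + 0) * X ([] ++ j₀) t ≤ δ
      have h1 := (le_abs_self (X ([] ++ j₀) t)).trans (hle t ht ([] ++ j₀))
      have h2 : g * (r ^ k * X ([] ++ j₀) t) ≤ g * (r ^ k * S) :=
        mul_le_mul_of_nonneg_left (mul_le_mul_of_nonneg_left h1 (by positivity)) hg0.le
      rw [add_zero]
      linarith
    · show g * r ^ (k + 1) * X ([i] ++ j₀) t ≤ δ
      have h1 := (le_abs_self (X ([i] ++ j₀) t)).trans (hle t ht ([i] ++ j₀))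
      have h2 : g * (r ^ (k + 1) * X ([i] ++ j₀) t) ≤ g * (r ^ (k + 1) * S) :=
        mul_le_mul_of_nonneg_left (mul_le_mul_of_nonneg_left h1 (by positivity)) hg0.le
      linarith
    · show g * r ^ (k + m.length) * X (m ++ j₀) 0 ≤ δ
      rw [← hlen]
      by_cases hn : (m ++ j₀).length ≤ N
      · rw [hG.init _ hn, mul_assoc]
        have h3 := hK (m ++ j₀)
        rw [pow_mul_nat] at h3
        have h4 := (mul_le_mul_of_nonneg_right (pow_le_pow_left₀ hr0.le hrs (m ++ j₀).length)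
          (abs_nonneg (x (m ++ j₀)))).trans h3
        have h5 : r ^ (m ++ j₀).length * x (m ++ j₀) ≤ K :=
          (mul_le_mul_of_nonneg_left (le_abs_self _) (by positivity)).trans h4
        exact (mul_le_mul_of_nonneg_left h5 hg0.le).trans hgK
      · rw [hG.zero _ (by omega) 0, mul_zero]
        exact hδ0.le
  · -- few generations
    have h0 : 0 ≤ 1 / g := by positivity
    by_cases hn : j.length ≤ N
    · have h1 : r ^ j.length ≤ r ^ (N₀ + k) := pow_le_pow_right₀ hr1.le (by omega)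
      have h2 : r ^ j.length * |X j t| ≤ r ^ (N₀ + k) * S :=
        mul_le_mul h1 (hle t ht j) (abs_nonneg _) (by positivity)
      linarith
    · rw [hG.zero j (by omega) t, abs_zero, mul_zero]
      positivity

set_option maxHeartbeats 1000000 in
/-- The decay with a rate better than the critical one, `2 ≤ β < 3`. -/
theorem critT {β ν s : ℝ} (hD : 0 < D) (hβ2 : 2 ≤ β) (hβ : β < 3) (hν : 0 < ν)
    (hs2 : β - 2 < s) (hs1 : s ≤ 1) :
    ∃ s' : ℝ, 0 < s' ∧ β - 2 < s' ∧ s' ≤ s ∧ ∀ K F S : ℝ, 0 ≤ K → 0 ≤ F → 0 ≤ S → ∃ C : ℝ,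
    ∀ (T : ℝ) (N : ℕ) (x : Nd D → ℝ) (f X : Nd D → ℝ → ℝ),
    0 < T → (∀ j : Nd D, (2 : ℝ) ^ (s * j.length) * |x j| ≤ K) →
    (∀ t ∈ Icc 0 T, ∀ j : Nd D, |f j t| ≤ F * 2 ^ j.length) →
    (∀ t ∈ Icc 0 T, ∀ j, |X j t| ≤ S) → GalT β ν T N x f X →
      ∀ t ∈ Icc 0 T, ∀ j : Nd D, (2 : ℝ) ^ (s' * j.length) * |X j t| ≤ C := by
  obtain ⟨B, hB'⟩ : ∃ B : ℝ, B = 2 ^ β := ⟨_, rfl⟩
  obtain ⟨q, hq⟩ : ∃ q : ℝ, q = 2 ^ s := ⟨_, rfl⟩
  have hD1 : (1 : ℝ) ≤ D := by exact_mod_cast hD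
  have hD' : (0 : ℝ) < D := by linarith
  have hq0 : 0 < q := by rw [hq]; exact Real.rpow_pos_of_pos two_pos _
  have hB0 : 0 < B := by rw [hB']; exact Real.rpow_pos_of_pos two_pos _
  have hB4 : 4 ≤ B := by
    rw [hB']
    have h1 : (4 : ℝ) = 2 ^ (2 : ℝ) := by norm_num
    rw [h1]
    exact Real.rpow_le_rpow_of_exponent_le (by norm_num) hβ2
  have hB8 : B < 8 := by
    rw [hB']
    have h1 : (8 : ℝ) = 2 ^ (3 : ℝ) := by norm_num
    rw [h1]
    exact Real.rpow_lt_rpow_of_exponent_lt (by norm_num) hβ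
  have hBs : B < 4 * q := by
    have h1 : (4 : ℝ) * 2 ^ s = 2 ^ (2 + s) := by
      rw [Real.rpow_add two_pos]
      norm_num
    rw [hq, h1, hB']
    exact Real.rpow_lt_rpow_of_exponent_lt (by norm_num) (by linarith)
  obtain ⟨Q, hQ⟩ : ∃ Q : ℝ, Q = D * 64 / B ^ 2 := ⟨_, rfl⟩
  have hQ1 : 1 < Q := by
    rw [hQ, lt_div_iff₀ (by positivity)]
    nlinarith
  have hQ0 : 0 < Q := by linarith
  obtain ⟨η, hη'⟩ : ∃ η, η = min ((4 * q / B - 1) / 2) (min 1 ((8 / B - 1) / 3)) := ⟨_, rfl⟩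
  have hη0 : 0 < η := by
    have h1 : 1 < 4 * q / B := by
      rw [lt_div_iff₀ hB0]
      linarith
    have h2 : 1 < 8 / B := by
      rw [lt_div_iff₀ hB0]
      linarith
    rw [hη']
    exact lt_min (by linarith) (lt_min one_pos (by linarith))
  have hη1 : η ≤ (4 * q / B - 1) / 2 := by rw [hη']; exact min_le_left _ _
  have hη2 : η ≤ 1 := by rw [hη']; exact (min_le_right _ _).trans (min_le_left _ _)
  have hη3 : η ≤ (8 / B - 1) / 3 := by rw [hη']; exact (min_le_right _ _).trans (min_le_right _ _)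
  obtain ⟨ρ, hρ1, hρ2, a₁, a₂, b₂, c, d, lam, μ, hμ, hR⟩ := reg_existsT hQ1 hη0
  have hρ0 : 0 < ρ := by linarith
  have hBρ : B * ρ ^ 2 ≤ 8 := by
    have h1 : ρ ^ 2 ≤ 8 / B := by
      have h2 : ρ ^ 2 ≤ (1 + η) ^ 2 := pow_le_pow_left₀ hρ0.le hρ2 2
      have h3 : (1 + η) ^ 2 ≤ 1 + 3 * η := by nlinarith
      linarith
    rw [le_div_iff₀ hB0] at h1
    linarith
  obtain ⟨r, hr⟩ : ∃ r, r = B * ρ / 4 := ⟨_, rfl⟩
  have hr1 : 1 < r := by
    rw [hr, lt_div_iff₀ (by norm_num)]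
    nlinarith
  have hr0 : 0 < r := by linarith
  have hrq : r < q := by
    rw [hr, div_lt_iff₀ (by norm_num)]
    have h1 : 1 < 4 * q / B := by
      rw [lt_div_iff₀ hB0]
      linarith
    have h1 : ρ < 4 * q / B := by linarith
    rw [lt_div_iff₀ hB0] at h1
    linarith
  have hrs : r ≤ 2 ^ s := by rw [← hq]; exact hrq.le
  obtain ⟨s', h1, h2, h3, h4⟩ := expo hB' hr hr1 hrs hρ1
  refine ⟨s', h1, h2, h3, fun K F S hK0 hF0 hS0 => ?_⟩
  -- the small number
  have ha1 : 0 < a₁ := by linarith [hR.a1]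
  have ha2 : 0 < a₂ := by linarith [hR.a2]
  obtain ⟨δ, hδ⟩ : ∃ δ, δ = min (1 / 2) (min ((a₁ - 1) / (2 * a₁)) (min (b₂ / (2 * a₂)) (d / 2))) :=
    ⟨_, rfl⟩
  have hδ1 : δ ≤ 1 / 2 := by rw [hδ]; exact min_le_left _ _
  have hδ2 : δ ≤ (a₁ - 1) / (2 * a₁) := by
    rw [hδ]; exact (min_le_right _ _).trans (min_le_left _ _)
  have hδ3 : δ ≤ b₂ / (2 * a₂) := by
    rw [hδ]; exact (min_le_right _ _).trans ((min_le_right _ _).trans (min_le_left _ _))
  have hδ4 : δ ≤ d / 2 := by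
    rw [hδ]; exact (min_le_right _ _).trans ((min_le_right _ _).trans (min_le_right _ _))
  have hδ0 : 0 < δ := by
    rw [hδ]
    have h1 := hR.a1
    have h3 := hR.b2
    have h4 := hR.d0
    refine lt_min (by norm_num) (lt_min (div_pos (by linarith) (by linarith))
      (lt_min (by positivity) (by positivity)))
  have hδa : a₁ * δ < a₁ - 1 := by
    rw [le_div_iff₀ (by positivity)] at hδ2
    have := hR.a1
    linarith
  have hδb : a₂ * δ < b₂ := by
    rw [le_div_iff₀ (by positivity)] at hδ3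
    have := hR.b2
    linarith
  have hδd : δ < d := by linarith [hR.d0]
  -- the constant of the negative parts
  obtain ⟨P, hP⟩ : ∃ P, P = K + 1 + 2 * F / ν := ⟨_, rfl⟩
  have hFν : 0 ≤ 2 * F / ν := by positivity
  have hKP : K < P := by rw [hP]; linarith
  have hP0 : 0 < P := by linarith
  have hFP : F < P * ν / 2 := by
    have e1 : P * ν / 2 = (K + 1) * ν / 2 + F := by
      rw [hP]
      field_simp
    rw [e1]
    have : 0 < (K + 1) * ν / 2 := by positivity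
    linarith
  -- the first generation of the region
  obtain ⟨n₁, hn₁⟩ := small_ev (β := β) (C := P) hν hs2 hP0.le (D / q)
  rw [← hB', ← hq] at hn₁
  have hκ0 := hR.κ0
  have hl1 := hR.l1
  have hl1' : 0 < 1 - lam := by linarith
  have hlim : Tendsto (fun n : ℕ => Q / ρ ^ 3 * (P * (r / q) ^ n)) atTop (𝓝 0) := by
    have h1 : r / q < 1 := by rw [div_lt_one hq0]; exact hrq
    have := ((tendsto_pow_atTop_nhds_zero_of_lt_one (by positivity : 0 ≤ r / q) h1).const_mul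
      P).const_mul (Q / ρ ^ 3)
    simpa using this
  obtain ⟨n₂, hn₂⟩ := eventually_atTop.1 (hlim.eventually (gt_mem_nhds
    (by positivity : 0 < (1 - lam) * (8 * ν / (B * ρ ^ 2)))))
  obtain ⟨k, hk⟩ : ∃ k, k = max 1 (max n₁ n₂) := ⟨_, rfl⟩
  have hk1 : 1 ≤ k := by rw [hk]; exact le_max_left _ _
  have hkn₁ : n₁ ≤ k := by rw [hk]; exact (le_max_left _ _).trans (le_max_right _ _)
  have hkn₂ : n₂ ≤ k := by rw [hk]; exact (le_max_right _ _).trans (le_max_right _ _)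
  obtain ⟨E, hE⟩ : ∃ E, E = P * (r / q) ^ k := ⟨_, rfl⟩
  have hE0 : 0 < E := by rw [hE]; positivity
  have hEν : Q / ρ ^ 3 * E < (1 - lam) * (8 * ν / (B * ρ ^ 2)) := by
    rw [hE]
    exact hn₂ k hkn₂
  obtain ⟨g, hg⟩ : ∃ g, g = min (δ / (1 + K + r ^ k * S + r ^ (k + 1) * S))
    (min (1 / E) (min (μ / (40 * Q ^ 2 * E + 256 * Q * F / (B * ρ ^ 2) + 1))
      (min 1 ((1 - lam) * ν / (2 * (F + 1)))))) := ⟨_, rfl⟩
  have hrk : 0 ≤ r ^ k * S := by positivity
  have hrk1 : 0 ≤ r ^ (k + 1) * S := by positivity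
  have hden : 0 < 1 + K + r ^ k * S + r ^ (k + 1) * S := by positivity
  have hFB : 0 ≤ 256 * Q * F / (B * ρ ^ 2) := by positivity
  have hg0 : 0 < g := by
    rw [hg]
    exact lt_min (by positivity) (lt_min (by positivity) (lt_min (by positivity)
      (lt_min one_pos (by positivity))))
  have hg1 : g * (1 + K + r ^ k * S + r ^ (k + 1) * S) ≤ δ := by
    rw [← le_div_iff₀ hden, hg]
    exact min_le_left _ _
  have hg2 : g * E ≤ 1 := by
    rw [← le_div_iff₀ hE0, hg]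
    exact (min_le_right _ _).trans (min_le_left _ _)
  have hg3 : g * (40 * Q ^ 2 * E + 256 * Q * F / (B * ρ ^ 2) + 1) ≤ μ := by
    rw [← le_div_iff₀ (by positivity), hg]
    exact (min_le_right _ _).trans ((min_le_right _ _).trans (min_le_left _ _))
  have hg4 : g ≤ 1 := by
    rw [hg]
    exact (min_le_right _ _).trans ((min_le_right _ _).trans ((min_le_right _ _).trans
      (min_le_left _ _)))
  have hg5 : g * (2 * (F + 1)) ≤ (1 - lam) * ν := by
    rw [← le_div_iff₀ (by positivity), hg]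
    exact (min_le_right _ _).trans ((min_le_right _ _).trans ((min_le_right _ _).trans
      (min_le_right _ _)))
  have hgK : g * K ≤ δ := by
    have h1 : g * K ≤ g * (1 + K + r ^ k * S + r ^ (k + 1) * S) :=
      mul_le_mul_of_nonneg_left (by linarith) hg0.le
    linarith
  have hgS : g * (r ^ k * S) ≤ δ := by
    have h1 : g * (r ^ k * S) ≤ g * (1 + K + r ^ k * S + r ^ (k + 1) * S) :=
      mul_le_mul_of_nonneg_left (by linarith) hg0.le
    linarith
  have hgrS : g * (r ^ (k + 1) * S) ≤ δ := by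
    have h1 : g * (r ^ (k + 1) * S) ≤ g * (1 + K + r ^ k * S + r ^ (k + 1) * S) :=
      mul_le_mul_of_nonneg_left (by linarith) hg0.le
    linarith
  -- the force term
  have hγe : g * F / (B * ρ ^ 2 / (16 * g)) = g * (g * (16 * F / (B * ρ ^ 2))) := by
    field_simp
  have hFB' : 0 ≤ 16 * F / (B * ρ ^ 2) := by positivity
  rw [hQ] at hR
  have hcore := crit_coreT (K := K) (F := F) (E := E) (S := S) (P := P) hD hν hs1 hF0 hS0 hB' hR hr
    hr1 hrs hδ0 hδ1 hδa hδb hδd hg0 hgK hgS hgrS hk1 hP0 hKP hFP hBρ (fun n hn => ?_) hE0.le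
    (fun n hn => ?_) hg2 ?_ ?_
  · obtain ⟨C, hC⟩ := hcore
    refine ⟨C, fun T N x f X hT hK hF hX hG t ht n => ?_⟩
    rw [pow_mul_nat, h4]
    exact hC T N x f X hT hK hF hX hG t ht n
  · have h1 := hn₁ n (hkn₁.trans hn)
    rw [← hq]
    have h2 : D * (B ^ n * (P / q ^ (n + 1))) = B ^ n * (P / q ^ n) * (D / q) := by
      field_simp
      ring
    rw [h2]
    exact h1.le
  · rw [← hq, hE]
    have h1 : r ^ n * (P / q ^ n) = P * (r / q) ^ n := by
      rw [div_pow]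
      field_simp
    rw [h1]
    apply mul_le_mul_of_nonneg_left _ (by linarith)
    exact pow_le_pow_of_le_one (by positivity) (by rw [div_le_one hq0]; exact hrq.le) hn
  · rw [hγe, ← hQ]
    have i1 : 8 * Q * (g * (g * (16 * F / (B * ρ ^ 2))))
        ≤ 8 * Q * (g * (1 * (16 * F / (B * ρ ^ 2)))) :=
      mul_le_mul_of_nonneg_left (mul_le_mul_of_nonneg_left
        (mul_le_mul_of_nonneg_right hg4 hFB') hg0.le) (by positivity)
    have i2 : g * (40 * Q ^ 2 * E + 256 * Q * F / (B * ρ ^ 2) + 1)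
        = 2 * (20 * Q ^ 2 * (g * E)) + 2 * (8 * Q * (g * (1 * (16 * F / (B * ρ ^ 2))))) + g := by
      ring
    have i3 : 0 ≤ 8 * Q * (g * (1 * (16 * F / (B * ρ ^ 2)))) := by positivity
    have i4 : 0 ≤ 20 * Q ^ 2 * (g * E) := by positivity
    linarith
  · rw [hγe, ← hQ]
    have h1 : ν / (B * ρ ^ 2 / (16 * g)) = g * (16 * ν / (B * ρ ^ 2)) := by
      field_simp
    have h2 : 1 ≤ ρ ^ k := one_le_pow₀ hρ1.le
    rw [h1]
    have h3 : g * (Q / ρ ^ 3 * E) < g * ((1 - lam) * (8 * ν / (B * ρ ^ 2))) :=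
      mul_lt_mul_of_pos_left hEν hg0
    have h4 : 0 ≤ (1 - lam) * (g * (16 * ν / (B * ρ ^ 2))) :=
      mul_nonneg (by linarith) (by positivity)
    have h5 : 1 * ((1 - lam) * (g * (16 * ν / (B * ρ ^ 2))))
        ≤ ρ ^ k * ((1 - lam) * (g * (16 * ν / (B * ρ ^ 2)))) := mul_le_mul_of_nonneg_right h2 h4
    have h6 : g * (16 * F / (B * ρ ^ 2)) ≤ (1 - lam) * (8 * ν / (B * ρ ^ 2)) := by
      have i1 : g * (2 * F) ≤ (1 - lam) * ν := by
        have : g * (2 * F) ≤ g * (2 * (F + 1)) :=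
          mul_le_mul_of_nonneg_left (by linarith) hg0.le
        linarith
      have i2 : 0 ≤ 8 / (B * ρ ^ 2) := by positivity
      have i3 := mul_le_mul_of_nonneg_right i1 i2
      calc g * (16 * F / (B * ρ ^ 2)) = g * (2 * F) * (8 / (B * ρ ^ 2)) := by ring
        _ ≤ _ := i3
        _ = _ := by ring
    have h7 := mul_le_mul_of_nonneg_left h6 hg0.le
    have h8 : (1 - lam) * (g * (16 * ν / (B * ρ ^ 2)))
        = g * ((1 - lam) * (8 * ν / (B * ρ ^ 2))) + g * ((1 - lam) * (8 * ν / (B * ρ ^ 2))) := by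
      ring
    linarith

/-- The case `β < 2`. -/
theorem critT_low {β ν s : ℝ} (hβ : β < 2) (hν : 0 < ν) (hs : 0 < s) (hs1 : s ≤ 1) :
    ∃ s' : ℝ, 0 < s' ∧ β - 2 < s' ∧ s' ≤ s ∧ ∀ K F S : ℝ, 0 ≤ K → 0 ≤ F → 0 ≤ S → ∃ C : ℝ,
    ∀ (T : ℝ) (N : ℕ) (x : Nd D → ℝ) (f X : Nd D → ℝ → ℝ),
    0 < T → (∀ j : Nd D, (2 : ℝ) ^ (s * j.length) * |x j| ≤ K) →
    (∀ t ∈ Icc 0 T, ∀ j : Nd D, |f j t| ≤ F * 2 ^ j.length) →
    (∀ t ∈ Icc 0 T, ∀ j, |X j t| ≤ S) → GalT β ν T N x f X →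
      ∀ t ∈ Icc 0 T, ∀ j : Nd D, (2 : ℝ) ^ (s' * j.length) * |X j t| ≤ C := by
  obtain ⟨B, hB'⟩ : ∃ B : ℝ, B = 2 ^ β := ⟨_, rfl⟩
  have hB0 : 0 < B := by rw [hB']; exact Real.rpow_pos_of_pos two_pos _
  obtain ⟨s', hs'⟩ : ∃ s', s' = min s (2 - β) := ⟨_, rfl⟩
  have hs'0 : 0 < s' := by rw [hs']; exact lt_min hs (by linarith)
  have hs's : s' ≤ s := by rw [hs']; exact min_le_left _ _
  have hs'b : s' ≤ 2 - β := by rw [hs']; exact min_le_right _ _
  obtain ⟨r, hr⟩ : ∃ r : ℝ, r = 2 ^ s' := ⟨_, rfl⟩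
  have hr0 : 0 < r := by rw [hr]; exact Real.rpow_pos_of_pos two_pos _
  have hr1 : 1 ≤ r := by rw [hr]; exact Real.one_le_rpow (by norm_num) hs'0.le
  have hrq : r ≤ 2 ^ s := by
    rw [hr]
    exact Real.rpow_le_rpow_of_exponent_le (by norm_num) hs's
  have hr2 : r ≤ 2 := by
    rw [hr]
    calc (2 : ℝ) ^ s' ≤ 2 ^ (1 : ℝ) :=
          Real.rpow_le_rpow_of_exponent_le (by norm_num) (hs's.trans hs1)
      _ = 2 := Real.rpow_one 2
  have hrB : r * B ≤ 4 := by
    rw [hr, hB', ← Real.rpow_add two_pos]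
    have h1 : (4 : ℝ) = 2 ^ (2 : ℝ) := by norm_num
    rw [h1]
    exact Real.rpow_le_rpow_of_exponent_le (by norm_num) (by linarith)
  refine ⟨s', hs'0, by linarith, hs's, ?_⟩
  intro K F S hK0 hF0 hS0
  -- the high generations
  obtain ⟨n₀, hn₀⟩ := small_ev (β := β) (s := 0) (C := S) hν (by linarith) hS0 D
  rw [← hB'] at hn₀
  have hn₀' : ∀ n ≥ n₀, B ^ n * (D * S) ≤ ν / 2 * 4 ^ n := by
    intro n hn
    have h1 := hn₀ n hn
    rw [Real.rpow_zero, one_pow, div_one] at h1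
    linarith
  refine ⟨r ^ n₀ * S + (K + r * S ^ 2 / (2 * ν) + 2 * F / ν), ?_⟩
  intro T N x f X hT hK hF hle hG t ht n
  have p1 : 0 ≤ r * S ^ 2 / (2 * ν) := by positivity
  have p2 : 0 ≤ 2 * F / ν := by positivity
  have hrS : 0 ≤ r ^ n₀ * S := by positivity
  rw [pow_mul_nat, ← hr]
  by_cases hn : n.length ≤ n₀
  · have h1 : r ^ n.length * |X n t| ≤ r ^ n₀ * S :=
      mul_le_mul (pow_le_pow_right₀ hr1 hn) (hle t ht n) (abs_nonneg _) (by positivity)
    linarith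
  · cases n with
    | nil =>
      rw [List.length_nil] at hn
      omega
    | cons i p =>
    obtain ⟨m, hm⟩ : ∃ m, m = p.length := ⟨_, rfl⟩
    have hlen : (i :: p).length = m + 1 := by rw [List.length_cons, hm]
    rw [hlen] at hn ⊢
    by_cases hmN : m + 1 ≤ N
    · obtain ⟨P, hP⟩ : ∃ P, P = (K + r * S ^ 2 / (2 * ν) + 2 * F / ν) / r ^ (m + 1) := ⟨_, rfl⟩
      have hP0 : 0 ≤ P := by rw [hP]; positivity
      have hd := abs_le_lin (h := X (i :: p)) (g := fun τ => B ^ m * X p τ ^ 2 + f (i :: p) τ)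
        (a := fun τ => B ^ (m + 1) * ch (fun k => X k τ) (i :: p) + ν * 4 ^ (m + 1)) (T := T)
        (l := ν / 2 * 4 ^ (m + 1)) (P := P)
        (fun τ hτ => ?_) ?_ (fun τ hτ => ?_) (fun τ hτ => ?_) hP0 ?_ t ht
      · rw [hP, le_div_iff₀ (by positivity), mul_comm] at hd
        linarith
      · refine (hG.ode (i :: p) (by rw [hlen]; exact hmN) τ hτ).congr_deriv ?_
        show (2 : ℝ) ^ (β * (p.length : ℝ)) * X p τ ^ 2
          - (2 : ℝ) ^ (β * ((i :: p).length : ℝ)) * (X (i :: p) τ * ch (fun k => X k τ) (i :: p))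
          - ν * 4 ^ (i :: p).length * X (i :: p) τ + f (i :: p) τ = _
        rw [hlen, ← hm, pow_mul_nat, pow_mul_nat, ← hB']
        ring
      · exact (continuousOn_const.mul (ch_cont hG.cont _)).add continuousOn_const
      · have h2 : X p τ ^ 2 ≤ S ^ 2 := by
          rw [← sq_abs]
          exact pow_le_pow_left₀ (abs_nonneg _) (hle τ hτ p) 2
        have h3 : |B ^ m * X p τ ^ 2| ≤ ν / 2 * 4 ^ (m + 1) * ((r * S ^ 2 / (2 * ν)) / r ^ (m + 1)) := by
          rw [abs_of_nonneg (by positivity)]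
          calc B ^ m * X p τ ^ 2 ≤ B ^ m * S ^ 2 := mul_le_mul_of_nonneg_left h2 (by positivity)
            _ = (r * B) ^ m * (S ^ 2 / r ^ m) := by
                rw [mul_pow]
                field_simp
            _ ≤ 4 ^ m * (S ^ 2 / r ^ m) :=
                mul_le_mul_of_nonneg_right (pow_le_pow_left₀ (by positivity) hrB m) (by positivity)
            _ = ν / 2 * 4 ^ (m + 1) * ((r * S ^ 2 / (2 * ν)) / r ^ (m + 1)) := by
                field_simp
                ring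
        have h5 : |f (i :: p) τ| ≤ ν / 2 * 4 ^ (m + 1) * (2 * F / ν / r ^ (m + 1)) := by
          refine (hF τ hτ (i :: p)).trans ?_
          rw [hlen]
          have e1 : ν / 2 * 4 ^ (m + 1) * (2 * F / ν / r ^ (m + 1))
              = F * (4 ^ (m + 1) / r ^ (m + 1)) := by
            field_simp
          rw [e1]
          apply mul_le_mul_of_nonneg_left _ hF0
          rw [le_div_iff₀ (by positivity), ← mul_pow]
          exact pow_le_pow_left₀ (by positivity) (by linarith) _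
        refine (abs_add_le _ _).trans ((add_le_add h3 h5).trans ?_)
        rw [← mul_add]
        apply mul_le_mul_of_nonneg_left _ (by positivity)
        rw [hP, ← add_div]
        apply div_le_div_of_nonneg_right _ (by positivity)
        linarith
      · have h1 := hn₀' (m + 1) (by omega)
        have h2 : B ^ (m + 1) * -(D * S) ≤ B ^ (m + 1) * ch (fun k => X k τ) (i :: p) := by
          apply mul_le_mul_of_nonneg_left _ (by positivity)
          have h3 : ∑ _i : Fin D, -S ≤ ch (fun k => X k τ) (i :: p) :=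
            Finset.sum_le_sum fun i' _ => by
              have h4 := hle τ hτ (i' :: i :: p)
              have h5 := neg_abs_le (X (i' :: i :: p) τ)
              linarith
          rw [Finset.sum_const, Finset.card_univ, Fintype.card_fin, nsmul_eq_mul] at h3
          linarith
        linarith
      · rw [hG.init _ (by rw [hlen]; exact hmN), hP, le_div_iff₀ (by positivity), mul_comm]
        have h2 : r ^ (m + 1) * |x (i :: p)| ≤ K := by
          have h3 := hK (i :: p)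
          rw [pow_mul_nat, hlen] at h3
          exact (mul_le_mul_of_nonneg_right (pow_le_pow_left₀ hr0.le hrq _)
            (abs_nonneg _)).trans h3
        linarith
    · rw [hG.zero (i :: p) (by rw [hlen]; omega) t, abs_zero, mul_zero]
      positivity

/-- **All the exponents `β < 3`.** -/
theorem critT_all {β ν s : ℝ} (hD : 0 < D) (hβ : β < 3) (hν : 0 < ν) (hs : 0 < s)
    (hs2 : β - 2 < s) (hs1 : s ≤ 1) :
    ∃ s' : ℝ, 0 < s' ∧ β - 2 < s' ∧ s' ≤ s ∧ ∀ K F S : ℝ, 0 ≤ K → 0 ≤ F → 0 ≤ S → ∃ C : ℝ,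
    ∀ (T : ℝ) (N : ℕ) (x : Nd D → ℝ) (f X : Nd D → ℝ → ℝ),
    0 < T → (∀ j : Nd D, (2 : ℝ) ^ (s * j.length) * |x j| ≤ K) →
    (∀ t ∈ Icc 0 T, ∀ j : Nd D, |f j t| ≤ F * 2 ^ j.length) →
    (∀ t ∈ Icc 0 T, ∀ j, |X j t| ≤ S) → GalT β ν T N x f X →
      ∀ t ∈ Icc 0 T, ∀ j : Nd D, (2 : ℝ) ^ (s' * j.length) * |X j t| ≤ C := by
  rcases lt_or_ge β 2 with h | h
  · exact critT_low h hν hs hs1
  · exact critT hD h hβ hν hs2 hs1

end Pool.Agent.Run7.h32.Tr
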