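import Pool.Agent.Run7.h32.Fo.Time
import Pool.Agent.Run7.h32.Tr.Cauchy

/-!
The forced dyadic model on a tree: the time derivative of the truncated solutions.
-/

set_option autoImplicit false

open Set Filter Topology MeasureTheory

namespace Pool.Agent.Run7.h32.Tr

open Pool.Agent.Run7.h32.Fo (ii_of ii_sum sq_of_int young)
open Run7.h969.Dy (pow_mul_nat)

variable {D : ℕ}

/-- the derivative of the input -/
noncomputable def dinp (β : ℝ) (x v : Nd D → ℝ) : Nd D → ℝ
  | [] => 0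
  | _ :: j => (2 : ℝ) ^ (β * j.length) * (2 * (x j * v j))

/-- the derivative of the right hand side -/
noncomputable def dtrhs (β ν : ℝ) (x v : Nd D → ℝ) (j : Nd D) : ℝ :=
  dinp β x v j - (2 : ℝ) ^ (β * j.length) * (v j * ch x j + x j * ch v j)
    - ν * 4 ^ j.length * v j

lemma hasDeriv_ch {X : Nd D → ℝ → ℝ} {V : Nd D → ℝ} {S : Set ℝ} {t : ℝ}
    (h : ∀ k, HasDerivWithinAt (X k) (V k) S t) (j : Nd D) :
    HasDerivWithinAt (fun s => ch (fun k => X k s) j) (ch V j) S t :=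
  HasDerivWithinAt.fun_sum fun _ _ => h _

lemma hasDeriv_trhs {β ν : ℝ} {X : Nd D → ℝ → ℝ} {V : Nd D → ℝ} {S : Set ℝ} {t : ℝ}
    (h : ∀ k, HasDerivWithinAt (X k) (V k) S t) (j : Nd D) :
    HasDerivWithinAt (fun s => trhs β ν (fun k => X k s) j)
      (dtrhs β ν (fun k => X k t) V j) S t := by
  have h1 : HasDerivWithinAt (fun s => inp β (fun k => X k s) j)
      (dinp β (fun k => X k t) V j) S t := by
    cases j with
    | nil => exact hasDerivWithinAt_const _ _ _
    | cons i j =>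
      simp only [inp, dinp]
      refine (((h j).fun_pow 2).const_mul _).congr_deriv ?_
      rw [show 2 - 1 = 1 from rfl, pow_one]
      push_cast
      ring
  exact (h1.sub (((h j).mul (hasDeriv_ch h j)).const_mul _)).sub ((h j).const_mul _)

lemma lev_congr {n : ℕ} {F G : Nd D → ℝ} (h : ∀ j : Nd D, j.length = n → F j = G j) :
    ∑ j ∈ lev D n, F j = ∑ j ∈ lev D n, G j :=
  Finset.sum_congr rfl fun j hj => h j (mem_lev.1 hj)

/-- the pointwise estimate, with the boundary term -/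
lemma dtrhs_bulk {β ν : ℝ} {x v : Nd D → ℝ} {b : ℕ → ℝ} (hD : 0 < D) (hb0 : ∀ n, 0 ≤ b n)
    (hb : ∀ n, b n ≤ b (n + 1))
    (hx : ∀ j : Nd D, (2 : ℝ) ^ (β * j.length) * |x j| ≤ b j.length)
    (hx' : ∀ (j : Nd D) (i : Fin D), (2 : ℝ) ^ (β * j.length) * |x (i :: j)| ≤ b j.length)
    (N : ℕ) :
    ∑ j ∈ tre D N, v j * dtrhs β ν x v j
      + ∑ j ∈ lev D N, (2 : ℝ) ^ (β * j.length) * x j * (v j * ch v j)
      ≤ 5 / 2 * D * ∑ j ∈ tre D N, b j.length * v j ^ 2
        - ν * ∑ j ∈ tre D N, 4 ^ j.length * v j ^ 2 - D * sqr b v N := by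
  have hD1 : (1 : ℝ) ≤ D := by exact_mod_cast hD
  -- the term with the children of `x`
  have hcx : ∀ j : Nd D, -((2 : ℝ) ^ (β * j.length) * ch x j) ≤ D * b j.length := by
    intro j
    have h1 : ∑ _i : Fin D, -b j.length ≤ (2 : ℝ) ^ (β * j.length) * ch x j := by
      rw [ch, Finset.mul_sum]
      refine Finset.sum_le_sum fun i _ => ?_
      have h2 := hx' j i
      have h3 := mul_le_mul_of_nonneg_left (neg_abs_le (x (i :: j)))
        (Real.rpow_nonneg two_pos.le (β * j.length))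
      linarith
    rw [Finset.sum_const, Finset.card_univ, Fintype.card_fin, nsmul_eq_mul] at h1
    linarith
  induction N with
  | zero =>
    rw [sum_tre_zero, sum_lev_zero, sum_tre_zero, sum_tre_zero, sqr, sum_lev_zero]
    have h1 := mul_le_mul_of_nonneg_right (hcx []) (sq_nonneg (v []))
    have h3 : 0 ≤ b 0 * v [] ^ 2 := mul_nonneg (hb0 0) (sq_nonneg _)
    have h4 : 0 ≤ D * (b 0 * v [] ^ 2) := mul_nonneg (by linarith) h3
    simp only [dtrhs, dinp, List.length_nil, pow_zero, mul_one, one_mul] at h1 ⊢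
    obtain ⟨p, hp⟩ : ∃ p : ℝ, p = (2 : ℝ) ^ (β * ((0 : ℕ) : ℝ)) := ⟨_, rfl⟩
    rw [← hp] at h1 ⊢
    have e1 : v [] * (0 - p * (v [] * ch x [] + x [] * ch v []) - ν * v [])
        + p * x [] * (v [] * ch v []) = -(p * ch x []) * v [] ^ 2 - ν * v [] ^ 2 := by ring
    rw [e1]
    linarith
  | succ N ih =>
    rw [sum_tre_succ, sum_tre_succ N (fun j => b j.length * v j ^ 2),
      sum_tre_succ N (fun j => (4 : ℝ) ^ j.length * v j ^ 2)]
    have hlevb : ∑ j ∈ lev D (N + 1), b j.length * v j ^ 2 = sqr b v (N + 1) := by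
      rw [sqr, Finset.mul_sum]
      exact lev_congr fun j hj => by rw [hj]
    rw [hlevb]
    have h1 : ∑ j ∈ lev D (N + 1), v j * dtrhs β ν x v j
        = ∑ j ∈ lev D (N + 1), v j * dinp β x v j
          + ∑ j ∈ lev D (N + 1), -((2 : ℝ) ^ (β * j.length) * ch x j) * v j ^ 2
          - ∑ j ∈ lev D (N + 1), (2 : ℝ) ^ (β * j.length) * x j * (v j * ch v j)
          - ν * ∑ j ∈ lev D (N + 1), 4 ^ j.length * v j ^ 2 := by
      rw [Finset.mul_sum, ← Finset.sum_add_distrib, ← Finset.sum_sub_distrib,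
        ← Finset.sum_sub_distrib]
      refine Finset.sum_congr rfl fun j _ => ?_
      simp only [dtrhs]
      ring
    have h2 : ∑ j ∈ lev D (N + 1), v j * dinp β x v j
        = 2 * ∑ j ∈ lev D N, (2 : ℝ) ^ (β * j.length) * x j * (v j * ch v j) := by
      rw [sum_lev_succ, Finset.mul_sum]
      refine Finset.sum_congr rfl fun j _ => ?_
      simp only [dinp, ch]
      rw [Finset.mul_sum, Finset.mul_sum, Finset.mul_sum]
      exact Finset.sum_congr rfl fun i _ => by ring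
    have h3 : ∑ j ∈ lev D (N + 1), -((2 : ℝ) ^ (β * j.length) * ch x j) * v j ^ 2
        ≤ D * sqr b v (N + 1) := by
      rw [sqr, Finset.mul_sum, Finset.mul_sum]
      refine Finset.sum_le_sum fun j hj => ?_
      have h4 := mul_le_mul_of_nonneg_right (hcx j) (sq_nonneg (v j))
      rw [mem_lev.1 hj] at h4 ⊢
      linarith
    have h4 : ∑ j ∈ lev D N, (2 : ℝ) ^ (β * j.length) * x j * (v j * ch v j) ≤ cr b v N := by
      rw [cr, Finset.mul_sum]
      refine Finset.sum_le_sum fun j hj => ?_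
      have h5 := hx j
      have h6 : |ch v j| ≤ ch (fun k => |v k|) j := Finset.abs_sum_le_sum_abs _ _
      have hp : (0 : ℝ) ≤ (2 : ℝ) ^ (β * j.length) := Real.rpow_nonneg two_pos.le _
      rw [mem_lev.1 hj] at h5 hp ⊢
      calc (2 : ℝ) ^ (β * (N : ℝ)) * x j * (v j * ch v j)
          ≤ |(2 : ℝ) ^ (β * (N : ℝ)) * x j * (v j * ch v j)| := le_abs_self _
        _ = (2 : ℝ) ^ (β * (N : ℝ)) * |x j| * (|v j| * |ch v j|) := by
            rw [abs_mul, abs_mul, abs_mul (v j), abs_of_nonneg hp]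
        _ ≤ b N * (|v j| * ch (fun k => |v k|) j) :=
            mul_le_mul h5 (mul_le_mul_of_nonneg_left h6 (abs_nonneg _)) (by positivity) (hb0 N)
    have h5 := cr_le (d := v) (hb0 N) (hb N)
    have h6 : 0 ≤ sqr b v (N + 1) := sqr_nn (hb0 _)
    have h7 : 0 ≤ (D - 1) * sqr b v (N + 1) := mul_nonneg (by linarith) h6
    rw [h1, h2]
    linarith

/-- the pointwise estimate -/
lemma dtrhs_le {β ν K : ℝ} (hD : 0 < D) (hν : 0 < ν) {x v g : Nd D → ℝ} (hK0 : 0 ≤ K)
    (hK : ∀ j : Nd D, (2 : ℝ) ^ (β * j.length) * |x j| ≤ ν / (10 * D) * 4 ^ j.length + K)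
    (hK' : ∀ (j : Nd D) (i : Fin D),
      (2 : ℝ) ^ (β * j.length) * |x (i :: j)| ≤ ν / (10 * D) * 4 ^ j.length + K) (N : ℕ)
    (hv : ∀ j : Nd D, N < j.length → v j = 0) :
    ∑ j ∈ tre D N, 2 * (v j * (dtrhs β ν x v j + g j))
      ≤ 5 * D * K * ∑ j ∈ tre D N, v j ^ 2
        - ν / 2 * ∑ j ∈ tre D N, 4 ^ j.length * v j ^ 2
        + 2 / ν * ∑ j ∈ tre D N, g j ^ 2 / 4 ^ j.length := by
  have hD1 : (1 : ℝ) ≤ D := by exact_mod_cast hD
  have hD0 : (0 : ℝ) < D := by linarith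
  have h1 := dtrhs_bulk (β := β) (ν := ν) (x := x) (v := v)
    (b := fun n => ν / (10 * D) * 4 ^ n + K) hD (fun n => by positivity)
    (fun n => by
      have h2 : (4 : ℝ) ^ n ≤ 4 ^ (n + 1) := pow_le_pow_right₀ (by norm_num) (Nat.le_succ n)
      have h3 := mul_le_mul_of_nonneg_left h2 (by positivity : 0 ≤ ν / (10 * D))
      linarith) hK hK' N
  have h2 : ∑ j ∈ lev D N, (2 : ℝ) ^ (β * j.length) * x j * (v j * ch v j) = 0 := by
    refine Finset.sum_eq_zero fun j hj => ?_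
    have h3 : ch v j = 0 := by
      refine Finset.sum_eq_zero fun i _ => ?_
      apply hv
      rw [List.length_cons, mem_lev.1 hj]
      omega
    rw [h3, mul_zero, mul_zero]
  have h3 : 5 / 2 * D * ∑ j ∈ tre D N, (ν / (10 * D) * 4 ^ j.length + K) * v j ^ 2
      = ν / 4 * ∑ j ∈ tre D N, 4 ^ j.length * v j ^ 2
        + 5 / 2 * D * K * ∑ j ∈ tre D N, v j ^ 2 := by
    rw [Finset.mul_sum, Finset.mul_sum, Finset.mul_sum, ← Finset.sum_add_distrib]
    refine Finset.sum_congr rfl fun j _ => ?_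
    field_simp
    ring
  have h4 : 0 ≤ D * sqr (fun n => ν / (10 * D) * 4 ^ n + K) v N :=
    mul_nonneg hD0.le (sqr_nn (by positivity))
  have h5 : ∑ j ∈ tre D N, 2 * (v j * (dtrhs β ν x v j + g j))
      = 2 * ∑ j ∈ tre D N, v j * dtrhs β ν x v j
        + ∑ j ∈ tre D N, 2 * (g j * v j) := by
    rw [Finset.mul_sum, ← Finset.sum_add_distrib]
    exact Finset.sum_congr rfl fun n _ => by ring
  have h6 : ∑ j ∈ tre D N, 2 * (g j * v j)
      ≤ ν / 2 * ∑ j ∈ tre D N, 4 ^ j.length * v j ^ 2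
        + 2 / ν * ∑ j ∈ tre D N, g j ^ 2 / 4 ^ j.length := by
    rw [Finset.mul_sum, Finset.mul_sum, ← Finset.sum_add_distrib]
    refine Finset.sum_le_sum fun j _ => ?_
    have := young (ν := ν / 2) (by positivity) (a := g j) (b := v j) j.length
    have e : 1 / (ν / 2) = 2 / ν := by field_simp
    rwa [e] at this
  have h7 : 0 ≤ ν * ∑ j ∈ tre D N, (4 : ℝ) ^ j.length * v j ^ 2 :=
    mul_nonneg hν.le (Finset.sum_nonneg fun j _ => by positivity)
  rw [h2, add_zero, h3] at h1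
  rw [h5]
  linarith

section

variable {β ν T : ℝ} {N : ℕ} {x : Nd D → ℝ} {f X : Nd D → ℝ → ℝ}

/-- the time derivative of the truncated solution -/
noncomputable def VT (β ν : ℝ) (N : ℕ) (f X : Nd D → ℝ → ℝ) (j : Nd D) (t : ℝ) : ℝ :=
  if j.length ≤ N then trhs β ν (fun k => X k t) j + f j t else 0

lemma VT_der (h : GalT β ν T N x f X) (j : Nd D) {t : ℝ} (ht : t ∈ Icc 0 T) :
    HasDerivWithinAt (X j) (VT β ν N f X j t) (Icc 0 T) t := by
  by_cases hn : j.length ≤ N
  · simp only [VT, hn, ite_true]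
    exact h.ode j hn t ht
  · simp only [VT, hn, ite_false]
    have : X j = fun _ => 0 := by
      funext t
      exact h.zero j (by omega) t
    rw [this]
    exact hasDerivWithinAt_const _ _ _

lemma VT_cont (h : GalT β ν T N x f X) (hf : ∀ j, ContinuousOn (f j) (Icc 0 T)) (j : Nd D) :
    ContinuousOn (VT β ν N f X j) (Icc 0 T) := by
  by_cases hn : j.length ≤ N
  · have : VT β ν N f X j = fun t => trhs β ν (fun k => X k t) j + f j t := by
      funext t
      simp only [VT, hn, ite_true]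
    rw [this]
    exact (trhs_cont h.cont j).add (hf j)
  · have : VT β ν N f X j = fun _ => 0 := by
      funext t
      simp only [VT, hn, ite_false]
    rw [this]
    exact continuousOn_const

lemma VT_zero {j : Nd D} (hn : N < j.length) (t : ℝ) : VT β ν N f X j t = 0 := by
  simp only [VT]
  rw [if_neg (by omega)]

/-- the derivative as a primitive -/
lemma VT_int (h : GalT β ν T N x f X) (hf : ∀ j, ContinuousOn (f j) (Icc 0 T))
    {g : Nd D → ℝ → ℝ} (hg : ∀ j, IntervalIntegrable (g j) volume 0 T)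
    (hfg : ∀ j, ∀ t ∈ Icc 0 T, f j t = f j 0 + ∫ s in (0 : ℝ)..t, g j s) {j : Nd D}
    (hn : j.length ≤ N) {t : ℝ} (ht : t ∈ Icc 0 T) :
    IntervalIntegrable (fun s => dtrhs β ν (fun k => X k s) (fun k => VT β ν N f X k s) j + g j s)
      volume 0 t ∧
    VT β ν N f X j t = VT β ν N f X j 0 + ∫ s in (0 : ℝ)..t,
      (dtrhs β ν (fun k => X k s) (fun k => VT β ν N f X k s) j + g j s) := by
  have h0T : (0 : ℝ) ∈ Icc 0 T := ⟨le_rfl, ht.1.trans ht.2⟩
  have hc := h.cont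
  have hV := VT_cont h hf
  have hdc : ContinuousOn (fun s => dtrhs β ν (fun k => X k s) (fun k => VT β ν N f X k s) j)
      (Icc 0 T) := by
    have h1 : ContinuousOn (fun s => dinp β (fun k => X k s) (fun k => VT β ν N f X k s) j)
        (Icc 0 T) := by
      cases j with
      | nil => exact continuousOn_const
      | cons i j =>
        exact continuousOn_const.mul (continuousOn_const.mul ((hc j).mul (hV j)))
    exact (h1.sub (continuousOn_const.mul (((hV j).mul (ch_cont hc j)).add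
      ((hc j).mul (ch_cont hV j))))).sub (continuousOn_const.mul (hV j))
  have hgt : IntervalIntegrable (g j) volume 0 t := (hg j).mono_set (by
    rw [uIcc_of_le ht.1, uIcc_of_le (ht.1.trans ht.2)]
    exact Icc_subset_Icc_right ht.2)
  have hd : ∫ s in (0 : ℝ)..t, dtrhs β ν (fun k => X k s) (fun k => VT β ν N f X k s) j
      = trhs β ν (fun k => X k t) j - trhs β ν (fun k => X k 0) j := by
    refine intervalIntegral.integral_eq_sub_of_hasDerivAt_of_le ht.1
      (f := fun s => trhs β ν (fun k => X k s) j) ?_ ?_ (ii_of hdc h0T ht)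
    · exact (trhs_cont hc j).mono (Icc_subset_Icc_right ht.2)
    · intro s hs
      have hsI : s ∈ Icc 0 T := ⟨hs.1.le, hs.2.le.trans ht.2⟩
      exact (hasDeriv_trhs (fun k => VT_der h k hsI) j).hasDerivAt
        (Icc_mem_nhds hs.1 (hs.2.trans_le ht.2))
  refine ⟨(ii_of hdc h0T ht).add hgt, ?_⟩
  rw [intervalIntegral.integral_add (ii_of hdc h0T ht) hgt, hd]
  simp only [VT, hn, ite_true]
  rw [hfg j t ht]
  ring

/-- **The estimate of the time derivative.** -/
theorem galT_time {K Γ E : ℝ} (hD : 0 < D) (hν : 0 < ν) (h : GalT β ν T N x f X)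
    (hf : ∀ j, ContinuousOn (f j) (Icc 0 T)) {g : Nd D → ℝ → ℝ}
    (hg : ∀ n, IntervalIntegrable (g n) volume 0 T)
    (hg2 : ∀ n, IntervalIntegrable (fun s => g n s ^ 2) volume 0 T)
    (hfg : ∀ n, ∀ t ∈ Icc 0 T, f n t = f n 0 + ∫ s in (0 : ℝ)..t, g n s) (hK0 : 0 ≤ K)
    (hK : ∀ t ∈ Icc 0 T, ∀ j : Nd D,
      (2 : ℝ) ^ (β * j.length) * |X j t| ≤ ν / (10 * D) * 4 ^ j.length + K)
    (hK' : ∀ t ∈ Icc 0 T, ∀ (j : Nd D) (i : Fin D),
      (2 : ℝ) ^ (β * j.length) * |X (i :: j) t| ≤ ν / (10 * D) * 4 ^ j.length + K)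
    (hΓ : ∀ M : ℕ, ∫ s in (0 : ℝ)..T, ∑ j ∈ tre D M, g j s ^ 2 / 4 ^ j.length ≤ Γ)
    (hE : ∑ j ∈ tre D N, VT β ν N f X j 0 ^ 2 ≤ E) {t : ℝ} (ht : t ∈ Icc 0 T) :
    ∑ j ∈ tre D N, VT β ν N f X j t ^ 2 ≤ (E + 2 / ν * Γ) * Real.exp (5 * D * K * t) ∧
    ν / 2 * (∫ s in (0 : ℝ)..t, ∑ j ∈ tre D N, 4 ^ j.length * VT β ν N f X j s ^ 2)
      ≤ (E + 2 / ν * Γ) * (1 + 5 * D * K * (T * Real.exp (5 * D * K * T))) := by
  have hT : 0 ≤ T := ht.1.trans ht.2
  have h0T : (0 : ℝ) ∈ Icc 0 T := ⟨le_rfl, hT⟩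
  have hTT : T ∈ Icc 0 T := ⟨hT, le_rfl⟩
  have hV := VT_cont h hf
  have hyc : ContinuousOn (fun t => ∑ j ∈ tre D N, VT β ν N f X j t ^ 2) (Icc 0 T) :=
    continuousOn_finsetSum _ fun n _ => (hV n).pow 2
  have hgi : ∀ M : ℕ, IntervalIntegrable (fun s => ∑ j ∈ tre D M, g j s ^ 2 / 4 ^ j.length)
      volume 0 T := fun M => by
    refine ii_sum (F := fun (n : Nd D) s => g n s ^ 2 / 4 ^ n.length) _ fun n _ => ?_
    exact (hg2 n).div_const _
  -- the integrated inequality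
  have key : ∀ t ∈ Icc 0 T, ∑ j ∈ tre D N, VT β ν N f X j t ^ 2
      + ν / 2 * (∫ s in (0 : ℝ)..t, ∑ j ∈ tre D N, 4 ^ j.length * VT β ν N f X j s ^ 2)
      ≤ (E + 2 / ν * Γ)
        + 5 * D * K * ∫ s in (0 : ℝ)..t, ∑ j ∈ tre D N, VT β ν N f X j s ^ 2 := by
    intro t ht
    have hsub : uIcc 0 t ⊆ uIcc 0 T := by
      rw [uIcc_of_le ht.1, uIcc_of_le hT]
      exact Icc_subset_Icc_right ht.2
    have hs : ∀ n ∈ tre D N, IntervalIntegrable (fun s => 2 * (VT β ν N f X n s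
        * (dtrhs β ν (fun k => X k s) (fun k => VT β ν N f X k s) n + g n s))) volume 0 t ∧
        ∫ s in (0 : ℝ)..t, 2 * (VT β ν N f X n s
        * (dtrhs β ν (fun k => X k s) (fun k => VT β ν N f X k s) n + g n s))
        = VT β ν N f X n t ^ 2 - VT β ν N f X n 0 ^ 2 := by
      intro n hn
      have hnN : n.length ≤ N := mem_tre.1 hn
      exact sq_of_int ht.1 (VT_int h hf hg hfg hnN ht).1 fun s hs =>
        (VT_int h hf hg hfg hnN ⟨hs.1, hs.2.trans ht.2⟩).2
    have h1 : ∫ s in (0 : ℝ)..t, ∑ n ∈ tre D N, 2 * (VT β ν N f X n s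
        * (dtrhs β ν (fun k => X k s) (fun k => VT β ν N f X k s) n + g n s))
        = ∑ j ∈ tre D N, VT β ν N f X j t ^ 2
          - ∑ j ∈ tre D N, VT β ν N f X j 0 ^ 2 := by
      rw [intervalIntegral.integral_finsetSum fun n hn => (hs n hn).1, ← Finset.sum_sub_distrib]
      exact Finset.sum_congr rfl fun n hn => (hs n hn).2
    have hi1 : IntervalIntegrable (fun s => ∑ n ∈ tre D N, 2 * (VT β ν N f X n s
        * (dtrhs β ν (fun k => X k s) (fun k => VT β ν N f X k s) n + g n s))) volume 0 t :=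
      ii_sum _ fun n hn => (hs n hn).1
    have hi2 := ii_of hyc h0T ht
    have hi3 := ii_of (sum4_cont hV N) h0T ht
    have hi4 := (hgi N).mono_set hsub
    have h2 : ∫ s in (0 : ℝ)..t, ∑ n ∈ tre D N, 2 * (VT β ν N f X n s
        * (dtrhs β ν (fun k => X k s) (fun k => VT β ν N f X k s) n + g n s))
        ≤ ∫ s in (0 : ℝ)..t, (5 * D * K * (∑ j ∈ tre D N, VT β ν N f X j s ^ 2)
          - ν / 2 * (∑ j ∈ tre D N, 4 ^ j.length * VT β ν N f X j s ^ 2)
          + 2 / ν * (∑ j ∈ tre D N, g j s ^ 2 / 4 ^ j.length)) := by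
      refine intervalIntegral.integral_mono_on ht.1 hi1
        (((hi2.const_mul _).sub (hi3.const_mul _)).add (hi4.const_mul _)) fun s hs => ?_
      have hsI : s ∈ Icc 0 T := ⟨hs.1, hs.2.trans ht.2⟩
      exact dtrhs_le hD hν hK0 (hK s hsI) (hK' s hsI) N (fun j hj => VT_zero hj s)
    rw [h1, intervalIntegral.integral_add ((hi2.const_mul _).sub (hi3.const_mul _))
      (hi4.const_mul _), intervalIntegral.integral_sub (hi2.const_mul _) (hi3.const_mul _),
      intervalIntegral.integral_const_mul (5 * D * K), intervalIntegral.integral_const_mul (ν / 2),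
      intervalIntegral.integral_const_mul (2 / ν)] at h2
    have h3 : ∫ s in (0 : ℝ)..t, ∑ j ∈ tre D N, g j s ^ 2 / 4 ^ j.length ≤ Γ := by
      refine le_trans ?_ (hΓ N)
      have h5 : 0 ≤ ∫ s in t..T, ∑ j ∈ tre D N, g j s ^ 2 / 4 ^ j.length :=
        intervalIntegral.integral_nonneg ht.2 fun s _ => Finset.sum_nonneg fun n _ => by positivity
      have h4 := intervalIntegral.integral_add_adjacent_intervals hi4
        ((hgi N).mono_set (by
          rw [uIcc_of_le ht.2, uIcc_of_le hT]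
          exact Icc_subset_Icc_left ht.1 : uIcc t T ⊆ uIcc 0 T))
      linarith
    have h4 := mul_le_mul_of_nonneg_left h3 (by positivity : 0 ≤ 2 / ν)
    linarith
  have hdn : ∀ t ∈ Icc 0 T, 0 ≤ ν / 2 * (∫ s in (0 : ℝ)..t,
      ∑ j ∈ tre D N, 4 ^ j.length * VT β ν N f X j s ^ 2) := fun t ht =>
    mul_nonneg (by positivity) (intervalIntegral.integral_nonneg ht.1 fun s _ =>
      Finset.sum_nonneg fun n _ => by positivity)
  have hgr := Run7.h969.Dz.gron (K := 5 * D * K) (ε := E + 2 / ν * Γ) hyc (by positivity)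
    (fun t ht => by
      have := key t ht
      have := hdn t ht
      linarith)
  refine ⟨hgr t ht, ?_⟩
  have h0 : 0 ≤ E + 2 / ν * Γ := by
    have := hgr 0 h0T
    simp only [mul_zero, Real.exp_zero, mul_one] at this
    exact le_trans (Finset.sum_nonneg fun n _ => sq_nonneg _) this
  have h1 := key t ht
  have h2 : ∫ s in (0 : ℝ)..t, ∑ j ∈ tre D N, VT β ν N f X j s ^ 2
      ≤ ∫ s in (0 : ℝ)..t, (E + 2 / ν * Γ) * Real.exp (5 * D * K * T) := by
    refine intervalIntegral.integral_mono_on ht.1 (ii_of hyc h0T ht) intervalIntegrable_const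
      fun s hs => ?_
    have hsI : s ∈ Icc 0 T := ⟨hs.1, hs.2.trans ht.2⟩
    refine (hgr s hsI).trans ?_
    apply mul_le_mul_of_nonneg_left _ h0
    apply Real.exp_le_exp.2
    exact mul_le_mul_of_nonneg_left hsI.2 (by positivity)
  rw [intervalIntegral.integral_const, smul_eq_mul, sub_zero] at h2
  have h3 : t * ((E + 2 / ν * Γ) * Real.exp (5 * D * K * T))
      ≤ T * ((E + 2 / ν * Γ) * Real.exp (5 * D * K * T)) :=
    mul_le_mul_of_nonneg_right ht.2 (by positivity)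
  have h4 := mul_le_mul_of_nonneg_left (h2.trans h3) (by positivity : 0 ≤ 5 * D * K)
  have h5 : 0 ≤ ∑ j ∈ tre D N, VT β ν N f X j t ^ 2 :=
    Finset.sum_nonneg fun n _ => sq_nonneg _
  calc _ ≤ (E + 2 / ν * Γ) + 5 * D * K * (T * ((E + 2 / ν * Γ) * Real.exp (5 * D * K * T))) := by linarith
    _ = _ := by ring

end

end Pool.Agent.Run7.h32.Tr
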