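import Pool.Agent.Run7.h32.Fo.Data
import Pool.Agent.Run7.h32.Tr.Crit
import Pool.Agent.Run7.h32.Tr.Cauchy
import Pool.Agent.Run7.h32.Tr.Time

/-!
The forced dyadic model on a tree: bounds which are uniform in the truncation.
-/

set_option autoImplicit false

open Set Filter Topology MeasureTheory

namespace Pool.Agent.Run7.h32.Tr

open Pool.Agent.Run7.h32.Fo (ii_of ii_sum cs_int)
open Run7.h969.Dy (pow_mul_nat)

/-- The admissible data: `x ∈ V ∩ H²`, `f(0) ∈ H`, and `∂ₜ f = g` in `L²(0, T; V')` for every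
`T`. -/
structure AdmT {D : ℕ} (x : Nd D → ℝ) (f g : Nd D → ℝ → ℝ) : Prop where
  init : Summable fun j : Nd D => (16 : ℝ) ^ j.length * x j ^ 2
  f0 : Summable fun j => f j 0 ^ 2
  gi : ∀ T j, 0 ≤ T → IntervalIntegrable (g j) volume 0 T
  gi2 : ∀ T j, 0 ≤ T → IntervalIntegrable (fun t => g j t ^ 2) volume 0 T
  fg : ∀ j t, 0 ≤ t → f j t = f j 0 + ∫ s in (0 : ℝ)..t, g j s
  gs : ∀ T, 0 ≤ T → Summable fun j : Nd D => (∫ t in (0 : ℝ)..T, g j t ^ 2) / 4 ^ j.length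

variable {D : ℕ} {x : Nd D → ℝ} {f g : Nd D → ℝ → ℝ} {β ν T : ℝ}

lemma AdmT.fcont (h : AdmT x f g) (hT : 0 ≤ T) (j : Nd D) : ContinuousOn (f j) (Icc 0 T) := by
  have h1 : IntegrableOn (g j) (uIcc 0 T) := by
    rw [← intervalIntegrable_iff']
    exact h.gi T j hT
  have h2 := intervalIntegral.continuousOn_primitive_interval h1
  rw [uIcc_of_le hT] at h2
  refine (continuousOn_const.add h2 : ContinuousOn (fun t => f j 0 + ∫ s in (0 : ℝ)..t, g j s)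
    (Icc 0 T)).congr fun t ht => h.fg j t ht.1

lemma AdmT.fsq (h : AdmT x f g) {t : ℝ} (ht : t ∈ Icc 0 T) (j : Nd D) :
    f j t ^ 2 ≤ 2 * f j 0 ^ 2 + 2 * T * ∫ s in (0 : ℝ)..T, g j s ^ 2 := by
  have hT : 0 ≤ T := ht.1.trans ht.2
  have h1 := cs_int ht.1 (h.gi t j ht.1) (h.gi2 t j ht.1)
  have h2 : ∫ s in (0 : ℝ)..t, g j s ^ 2 ≤ ∫ s in (0 : ℝ)..T, g j s ^ 2 := by
    refine intervalIntegral.integral_mono_interval le_rfl ht.1 ht.2
      (Eventually.of_forall fun s => sq_nonneg _) (h.gi2 T j hT)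
  have h3 : 0 ≤ ∫ s in (0 : ℝ)..t, g j s ^ 2 :=
    intervalIntegral.integral_nonneg ht.1 fun s _ => sq_nonneg _
  have h4 : t * ∫ s in (0 : ℝ)..t, g j s ^ 2 ≤ T * ∫ s in (0 : ℝ)..T, g j s ^ 2 :=
    mul_le_mul ht.2 h2 h3 hT
  rw [h.fg j t ht.1]
  have h5 := two_mul_le_add_sq (f j 0) (∫ s in (0 : ℝ)..t, g j s)
  nlinarith

/-- The bounds of the data. -/
lemma AdmT.bounds (h : AdmT x f g) (hT : 0 ≤ T) : ∃ R : ℝ, 0 ≤ R ∧
    (∀ j : Nd D, |x j| ≤ R / 4 ^ j.length) ∧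
    (∀ M : ℕ, ∑ j ∈ tre D M, (16 : ℝ) ^ j.length * x j ^ 2 ≤ R) ∧
    (∀ M : ℕ, ∑ j ∈ tre D M, x j ^ 2 ≤ R) ∧
    (∀ M : ℕ, ∑ j ∈ tre D M, f j 0 ^ 2 ≤ R) ∧
    (∀ t ∈ Icc 0 T, ∀ j : Nd D, |f j t| ≤ R * 2 ^ j.length) ∧
    (∀ M : ℕ, ∫ s in (0 : ℝ)..T, ∑ j ∈ tre D M, f j s ^ 2 / 4 ^ j.length ≤ R) ∧
    (∀ M : ℕ, ∫ s in (0 : ℝ)..T, ∑ j ∈ tre D M, g j s ^ 2 / 4 ^ j.length ≤ R) := by
  obtain ⟨a, ha⟩ : ∃ a, a = ∑' j : Nd D, (16 : ℝ) ^ j.length * x j ^ 2 := ⟨_, rfl⟩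
  obtain ⟨b, hb⟩ : ∃ b, b = ∑' j : Nd D, f j 0 ^ 2 := ⟨_, rfl⟩
  obtain ⟨c, hc⟩ : ∃ c, c = ∑' j : Nd D, (∫ t in (0 : ℝ)..T, g j t ^ 2) / 4 ^ j.length := ⟨_, rfl⟩
  have ha0 : 0 ≤ a := by rw [ha]; exact tsum_nonneg fun n => by positivity
  have hb0 : 0 ≤ b := by rw [hb]; exact tsum_nonneg fun n => by positivity
  have hgn : ∀ j, 0 ≤ ∫ t in (0 : ℝ)..T, g j t ^ 2 := fun n =>
    intervalIntegral.integral_nonneg hT fun s _ => sq_nonneg _
  have hc0 : 0 ≤ c := by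
    rw [hc]
    exact tsum_nonneg fun n => div_nonneg (hgn n) (by positivity)
  have haM : ∀ M : ℕ, ∑ j ∈ tre D M, (16 : ℝ) ^ j.length * x j ^ 2 ≤ a := fun M => by
    rw [ha]
    exact h.init.sum_le_tsum _ fun n _ => by positivity
  have hbM : ∀ M : ℕ, ∑ j ∈ tre D M, f j 0 ^ 2 ≤ b := fun M => by
    rw [hb]
    exact h.f0.sum_le_tsum _ fun n _ => by positivity
  have hcM : ∀ M : ℕ, ∑ j ∈ tre D M, (∫ t in (0 : ℝ)..T, g j t ^ 2) / 4 ^ j.length ≤ c :=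
    fun M => by
      rw [hc]
      exact (h.gs T hT).sum_le_tsum _ fun n _ => div_nonneg (hgn n) (by positivity)
  have han : ∀ j : Nd D, (16 : ℝ) ^ j.length * x j ^ 2 ≤ a := fun j =>
    (Finset.single_le_sum (f := fun j : Nd D => (16 : ℝ) ^ j.length * x j ^ 2)
      (fun n _ => by positivity) (mem_tre.2 (le_refl j.length))).trans (haM _)
  have hbn : ∀ j : Nd D, f j 0 ^ 2 ≤ b := fun j =>
    (Finset.single_le_sum (f := fun j => f j 0 ^ 2) (fun n _ => by positivity)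
      (mem_tre.2 (le_refl j.length))).trans (hbM _)
  have hcn : ∀ j : Nd D, (∫ t in (0 : ℝ)..T, g j t ^ 2) / 4 ^ j.length ≤ c := fun j =>
    (Finset.single_le_sum (f := fun j : Nd D => (∫ t in (0 : ℝ)..T, g j t ^ 2) / 4 ^ j.length)
      (fun n _ => div_nonneg (hgn n) (by positivity))
      (mem_tre.2 (le_refl j.length))).trans (hcM _)
  have hp1 : ∀ n : ℕ, (1 : ℝ) ≤ 4 ^ n := fun n => one_le_pow₀ (by norm_num)
  obtain ⟨R, hR⟩ : ∃ R, R = (1 + a) + b + (1 + (2 * b + 2 * T * c)) + T * (2 * b + 2 * T * c) + c :=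
    ⟨_, rfl⟩
  have hTc : 0 ≤ 2 * b + 2 * T * c := by positivity
  have hTc2 : 0 ≤ T * (2 * b + 2 * T * c) := by positivity
  have hR0 : 0 ≤ R := by rw [hR]; positivity
  have hfsq : ∀ t ∈ Icc 0 T, ∀ j : Nd D, f j t ^ 2 / 4 ^ j.length ≤ 2 * (f j 0 ^ 2)
      + 2 * T * ((∫ s in (0 : ℝ)..T, g j s ^ 2) / 4 ^ j.length) := by
    intro t ht j
    rw [div_le_iff₀ (by positivity)]
    have h1 := h.fsq ht j
    have h2 : (2 * (f j 0 ^ 2) + 2 * T * ((∫ s in (0 : ℝ)..T, g j s ^ 2) / 4 ^ j.length))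
        * 4 ^ j.length
        = 2 * f j 0 ^ 2 * 4 ^ j.length + 2 * T * ∫ s in (0 : ℝ)..T, g j s ^ 2 := by
      field_simp
    rw [h2]
    have h3 : 2 * f j 0 ^ 2 * 1 ≤ 2 * f j 0 ^ 2 * 4 ^ j.length :=
      mul_le_mul_of_nonneg_left (hp1 _) (by positivity)
    linarith
  have hfin : ∀ M : ℕ, IntervalIntegrable (fun s => ∑ j ∈ tre D M, f j s ^ 2 / 4 ^ j.length)
      volume 0 T := fun M => by
    refine ii_sum (F := fun (j : Nd D) s => f j s ^ 2 / 4 ^ j.length) _ fun n _ => ?_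
    refine ContinuousOn.intervalIntegrable ?_
    rw [uIcc_of_le hT]
    exact ((h.fcont hT n).pow 2).div_const _
  refine ⟨R, hR0, fun j => ?_, fun M => (haM M).trans (by rw [hR]; linarith), fun M => ?_,
    fun M => (hbM M).trans (by rw [hR]; linarith), fun t ht j => ?_, fun M => ?_, fun M => ?_⟩
  · rw [le_div_iff₀ (by positivity)]
    have h1 : (|x j| * 4 ^ j.length) ^ 2 ≤ (1 + a) ^ 2 := by
      rw [mul_pow, sq_abs, ← pow_mul, mul_comm j.length 2, pow_mul]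
      norm_num
      have := han j
      nlinarith
    have h2 := abs_le_of_sq_le_sq h1 (by linarith)
    rw [abs_of_nonneg (by positivity)] at h2
    rw [hR]
    linarith
  · refine le_trans ?_ ((haM M).trans (by rw [hR]; linarith))
    refine Finset.sum_le_sum fun j _ => ?_
    have h1 : (1 : ℝ) ≤ 16 ^ j.length := one_le_pow₀ (by norm_num)
    nlinarith [sq_nonneg (x j)]
  · have h1 : |f j t| ^ 2 ≤ ((1 + (2 * b + 2 * T * c)) * 2 ^ j.length) ^ 2 := by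
      rw [sq_abs, mul_pow, ← pow_mul, mul_comm j.length 2, pow_mul]
      norm_num
      have h2 := hfsq t ht j
      rw [div_le_iff₀ (by positivity)] at h2
      refine h2.trans (mul_le_mul_of_nonneg_right ?_ (by positivity))
      have h3 := hbn j
      have h4 := mul_le_mul_of_nonneg_left (hcn j) (by positivity : 0 ≤ 2 * T)
      nlinarith
    have h2 := abs_le_of_sq_le_sq h1 (by positivity)
    rw [abs_abs] at h2
    refine h2.trans (mul_le_mul_of_nonneg_right ?_ (by positivity))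
    rw [hR]
    linarith
  · have h1 : ∫ s in (0 : ℝ)..T, ∑ j ∈ tre D M, f j s ^ 2 / 4 ^ j.length
        ≤ ∫ _s in (0 : ℝ)..T, (2 * b + 2 * T * c) := by
      refine intervalIntegral.integral_mono_on hT (hfin M) intervalIntegrable_const fun s hs => ?_
      refine (Finset.sum_le_sum fun n _ => hfsq s hs n).trans ?_
      rw [Finset.sum_add_distrib, ← Finset.mul_sum, ← Finset.mul_sum]
      exact add_le_add (mul_le_mul_of_nonneg_left (hbM M) (by norm_num))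
        (mul_le_mul_of_nonneg_left (hcM M) (by positivity))
    rw [intervalIntegral.integral_const, smul_eq_mul, sub_zero] at h1
    refine h1.trans ?_
    rw [hR]
    linarith
  · rw [intervalIntegral.integral_finsetSum fun n _ => (h.gi2 T n hT).div_const _]
    refine le_trans (le_of_eq ?_) ((hcM M).trans (by rw [hR]; linarith))
    exact Finset.sum_congr rfl fun n _ => intervalIntegral.integral_div _ _

/-- a function of the parent -/
def par (G : Nd D → ℝ) : Nd D → ℝ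
  | [] => 0
  | _ :: j => G j

lemma sum_par_le {G : Nd D → ℝ} (hG : ∀ j, 0 ≤ G j) (N : ℕ) :
    ∑ j ∈ tre D N, par G j ≤ D * ∑ j ∈ tre D N, G j := by
  have h1 : ∑ j ∈ tre D N, par G j + D * ∑ j ∈ lev D N, G j = D * ∑ j ∈ tre D N, G j := by
    induction N with
    | zero =>
      rw [sum_tre_zero, sum_lev_zero, sum_tre_zero]
      simp only [par]
      ring
    | succ N ih =>
      have h2 : ∑ j ∈ lev D (N + 1), par G j = D * ∑ j ∈ lev D N, G j := by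
        rw [sum_lev_succ, Finset.mul_sum]
        refine Finset.sum_congr rfl fun j _ => ?_
        simp only [par]
        rw [Finset.sum_const, Finset.card_univ, Fintype.card_fin, nsmul_eq_mul]
      rw [sum_tre_succ, sum_tre_succ N G, h2]
      linarith
  have h2 : 0 ≤ D * ∑ j ∈ lev D N, G j :=
    mul_nonneg (Nat.cast_nonneg _) (Finset.sum_nonneg fun j _ => hG j)
  linarith

/-- the square of the sum over the children -/
lemma ch_sq (y : Nd D → ℝ) (j : Nd D) : ch y j ^ 2 ≤ D * ∑ i : Fin D, y (i :: j) ^ 2 := by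
  have h := sq_sum_le_card_mul_sum_sq (s := (Finset.univ : Finset (Fin D)))
    (f := fun i => y (i :: j))
  rw [Finset.card_univ, Fintype.card_fin] at h
  exact h

/-- The size of the derivative at the time `0`. -/
lemma trhs0_le {R : ℝ} (hR : 0 ≤ R) (hβ : β < 3) {y : Nd D → ℝ}
    (hy : ∀ j : Nd D, |y j| ≤ R / 4 ^ j.length) (N : ℕ)
    (h16 : ∑ j ∈ tre D N, (16 : ℝ) ^ j.length * y j ^ 2 ≤ R) :
    ∑ j ∈ tre D N, (trhs β ν y j + ν * 4 ^ j.length * y j) ^ 2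
      ≤ 2 * (D * R ^ 3) + 2 * (D ^ 2 * R ^ 3) := by
  obtain ⟨B, hB⟩ : ∃ B : ℝ, B = 2 ^ β := ⟨_, rfl⟩
  have hB0 : 0 < B := by rw [hB]; exact Real.rpow_pos_of_pos two_pos _
  have hB8 : B ≤ 8 := by
    rw [hB]
    calc (2 : ℝ) ^ β ≤ 2 ^ (3 : ℝ) := Real.rpow_le_rpow_of_exponent_le (by norm_num) hβ.le
      _ = 8 := by norm_num
  have hBn : ∀ m : ℕ, B ^ m ≤ 8 ^ m := fun m => pow_le_pow_left₀ hB0.le hB8 m
  have hysq : ∀ j : Nd D, y j ^ 2 ≤ R ^ 2 / 16 ^ j.length := by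
    intro j
    rw [← sq_abs]
    refine (pow_le_pow_left₀ (abs_nonneg _) (hy j) 2).trans (le_of_eq ?_)
    rw [div_pow, ← pow_mul, mul_comm j.length 2, pow_mul]
    norm_num
  obtain ⟨G, hG⟩ : ∃ G : Nd D → ℝ, G = fun j => (B ^ j.length * y j ^ 2) ^ 2 := ⟨_, rfl⟩
  have hG0 : ∀ j, 0 ≤ G j := fun j => by rw [hG]; positivity
  have hsq8 : ∀ j : Nd D, (B ^ j.length) ^ 2 ≤ 4 ^ j.length * 16 ^ j.length := by
    intro j
    calc (B ^ j.length) ^ 2 ≤ (8 ^ j.length) ^ 2 := pow_le_pow_left₀ (by positivity) (hBn _) 2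
      _ = 4 ^ j.length * 16 ^ j.length := by
          rw [← pow_mul, mul_comm j.length 2, pow_mul, ← mul_pow]
          norm_num
  have hGle : ∀ j, G j ≤ R ^ 2 * (16 ^ j.length * y j ^ 2) := by
    intro j
    rw [hG]
    have h1 := hysq j
    have h4 : (4 : ℝ) ^ j.length ≤ 16 ^ j.length := pow_le_pow_left₀ (by norm_num) (by norm_num) _
    calc (B ^ j.length * y j ^ 2) ^ 2 = (B ^ j.length) ^ 2 * y j ^ 2 * y j ^ 2 := by ring
      _ ≤ (4 ^ j.length * 16 ^ j.length) * y j ^ 2 * y j ^ 2 := by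
          apply mul_le_mul_of_nonneg_right _ (sq_nonneg _)
          exact mul_le_mul_of_nonneg_right (hsq8 j) (sq_nonneg _)
      _ = (16 ^ j.length * y j ^ 2) * (4 ^ j.length * y j ^ 2) := by ring
      _ ≤ (16 ^ j.length * y j ^ 2) * (4 ^ j.length * (R ^ 2 / 16 ^ j.length)) := by
          apply mul_le_mul_of_nonneg_left _ (by positivity)
          exact mul_le_mul_of_nonneg_left h1 (by positivity)
      _ ≤ (16 ^ j.length * y j ^ 2) * (16 ^ j.length * (R ^ 2 / 16 ^ j.length)) := by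
          apply mul_le_mul_of_nonneg_left _ (by positivity)
          exact mul_le_mul_of_nonneg_right h4 (by positivity)
      _ = _ := by
          field_simp
  have hinp : ∀ j, inp β y j ^ 2 = par G j := by
    intro j
    cases j with
    | nil => simp only [inp, par]; norm_num
    | cons i j =>
      simp only [inp, par]
      rw [hG, pow_mul_nat, ← hB]
  have hchb : ∀ j : Nd D, ((2 : ℝ) ^ (β * j.length) * (y j * ch y j)) ^ 2
      ≤ D ^ 2 * (R ^ 2 * (16 ^ j.length * y j ^ 2)) := by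
    intro j
    rw [pow_mul_nat, ← hB]
    have h1 : ch y j ^ 2 ≤ D ^ 2 * (R ^ 2 / 16 ^ j.length) := by
      refine (ch_sq y j).trans ?_
      have h2 : ∑ i : Fin D, y (i :: j) ^ 2 ≤ ∑ _i : Fin D, R ^ 2 / 16 ^ j.length := by
        refine Finset.sum_le_sum fun i _ => (hysq (i :: j)).trans ?_
        apply div_le_div_of_nonneg_left (sq_nonneg R) (by positivity)
        rw [List.length_cons]
        exact pow_le_pow_right₀ (by norm_num) (Nat.le_succ _)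
      rw [Finset.sum_const, Finset.card_univ, Fintype.card_fin, nsmul_eq_mul] at h2
      calc (D : ℝ) * ∑ i : Fin D, y (i :: j) ^ 2 ≤ D * (D * (R ^ 2 / 16 ^ j.length)) :=
            mul_le_mul_of_nonneg_left h2 (Nat.cast_nonneg _)
        _ = _ := by ring
    have h4 : (4 : ℝ) ^ j.length ≤ 16 ^ j.length := pow_le_pow_left₀ (by norm_num) (by norm_num) _
    calc (B ^ j.length * (y j * ch y j)) ^ 2 = (B ^ j.length) ^ 2 * y j ^ 2 * ch y j ^ 2 := by ring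
      _ ≤ (4 ^ j.length * 16 ^ j.length) * y j ^ 2 * ch y j ^ 2 := by
          apply mul_le_mul_of_nonneg_right _ (sq_nonneg _)
          exact mul_le_mul_of_nonneg_right (hsq8 j) (sq_nonneg _)
      _ = (16 ^ j.length * y j ^ 2) * (4 ^ j.length * ch y j ^ 2) := by ring
      _ ≤ (16 ^ j.length * y j ^ 2) * (4 ^ j.length * (D ^ 2 * (R ^ 2 / 16 ^ j.length))) := by
          apply mul_le_mul_of_nonneg_left _ (by positivity)
          exact mul_le_mul_of_nonneg_left h1 (by positivity)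
      _ ≤ (16 ^ j.length * y j ^ 2) * (16 ^ j.length * (D ^ 2 * (R ^ 2 / 16 ^ j.length))) := by
          apply mul_le_mul_of_nonneg_left _ (by positivity)
          exact mul_le_mul_of_nonneg_right h4 (by positivity)
      _ = _ := by
          field_simp
  have hpt : ∀ j ∈ tre D N, (trhs β ν y j + ν * 4 ^ j.length * y j) ^ 2
      ≤ 2 * par G j + 2 * (D ^ 2 * (R ^ 2 * (16 ^ j.length * y j ^ 2))) := by
    intro j _
    have e : trhs β ν y j + ν * 4 ^ j.length * y j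
        = inp β y j - (2 : ℝ) ^ (β * j.length) * (y j * ch y j) := by
      simp only [trhs]
      ring
    rw [e]
    have h1 := hchb j
    have h2 := hinp j
    nlinarith [sq_nonneg (inp β y j + (2 : ℝ) ^ (β * j.length) * (y j * ch y j))]
  refine (Finset.sum_le_sum hpt).trans ?_
  rw [Finset.sum_add_distrib, ← Finset.mul_sum, ← Finset.mul_sum, ← Finset.mul_sum,
    ← Finset.mul_sum]
  have h1 := sum_par_le hG0 N
  have h2 : ∑ j ∈ tre D N, G j ≤ R ^ 2 * R := by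
    refine (Finset.sum_le_sum fun j _ => hGle j).trans ?_
    rw [← Finset.mul_sum]
    exact mul_le_mul_of_nonneg_left h16 (sq_nonneg R)
  have h3 := mul_le_mul_of_nonneg_left h2 (Nat.cast_nonneg D : (0 : ℝ) ≤ D)
  have h4 : (D : ℝ) ^ 2 * (R ^ 2 * ∑ j ∈ tre D N, 16 ^ j.length * y j ^ 2)
      ≤ D ^ 2 * (R ^ 2 * R) :=
    mul_le_mul_of_nonneg_left (mul_le_mul_of_nonneg_left h16 (sq_nonneg R)) (by positivity)
  have e : R ^ 2 * R = R ^ 3 := by ring
  rw [e] at h3 h4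
  linarith

lemma VT_zero_time {N : ℕ} {X : Nd D → ℝ → ℝ} {R : ℝ} (hβ : β < 3)
    (h : GalT β ν T N x f X) (hx : ∀ j : Nd D, |x j| ≤ R / 4 ^ j.length) (hR : 0 ≤ R)
    (h16 : ∀ M : ℕ, ∑ j ∈ tre D M, (16 : ℝ) ^ j.length * x j ^ 2 ≤ R)
    (hf0 : ∀ M : ℕ, ∑ j ∈ tre D M, f j 0 ^ 2 ≤ R) :
    ∑ j ∈ tre D N, VT β ν N f X j 0 ^ 2
      ≤ 3 * (2 * (D * R ^ 3) + 2 * (D ^ 2 * R ^ 3)) + 3 * ν ^ 2 * R + 3 * R := by
  have hy : ∀ j : Nd D, |X j 0| ≤ R / 4 ^ j.length := by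
    intro j
    by_cases hn : j.length ≤ N
    · rw [h.init j hn]
      exact hx j
    · rw [h.zero j (by omega), abs_zero]
      positivity
  have h16' : ∑ j ∈ tre D N, (16 : ℝ) ^ j.length * X j 0 ^ 2 ≤ R := by
    refine le_trans (le_of_eq ?_) (h16 N)
    exact Finset.sum_congr rfl fun j hj => by rw [h.init j (mem_tre.1 hj)]
  have h0 := trhs0_le (ν := ν) hR hβ (y := fun j => X j 0) hy N h16'
  have h1 : ∀ j ∈ tre D N, VT β ν N f X j 0 ^ 2
      ≤ 3 * (trhs β ν (fun k => X k 0) j + ν * 4 ^ j.length * X j 0) ^ 2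
        + 3 * ν ^ 2 * (16 ^ j.length * X j 0 ^ 2) + 3 * f j 0 ^ 2 := by
    intro j hj
    have hnN := mem_tre.1 hj
    simp only [VT, hnN, ite_true]
    obtain ⟨a, ha⟩ : ∃ a, a = trhs β ν (fun k => X k 0) j + ν * 4 ^ j.length * X j 0 := ⟨_, rfl⟩
    have h4 : trhs β ν (fun k => X k 0) j + f j 0 = a + -(ν * 4 ^ j.length * X j 0) + f j 0 := by
      rw [ha]
      ring
    have h5 : (a + -(ν * 4 ^ j.length * X j 0) + f j 0) ^ 2
        ≤ 3 * a ^ 2 + 3 * (ν * 4 ^ j.length * X j 0) ^ 2 + 3 * f j 0 ^ 2 := by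
      nlinarith [sq_nonneg (a + ν * 4 ^ j.length * X j 0), sq_nonneg (a - f j 0),
        sq_nonneg (ν * 4 ^ j.length * X j 0 + f j 0)]
    have h6 : (ν * 4 ^ j.length * X j 0) ^ 2 = ν ^ 2 * (16 ^ j.length * X j 0 ^ 2) := by
      rw [mul_pow, mul_pow, ← pow_mul, mul_comm j.length 2, pow_mul]
      norm_num
      ring
    rw [h4, ← ha]
    rw [h6] at h5
    linarith
  refine (Finset.sum_le_sum h1).trans ?_
  rw [Finset.sum_add_distrib, Finset.sum_add_distrib, ← Finset.mul_sum, ← Finset.mul_sum,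
    ← Finset.mul_sum]
  have h9 := mul_le_mul_of_nonneg_left h16' (by positivity : 0 ≤ 3 * ν ^ 2)
  have h10 := hf0 N
  linarith

/-- The constant of absorption. -/
lemma absorbT {s A c : ℝ} (hν : 0 < ν) (hs : β - 2 < s) (hA : 0 ≤ A) (hc : 0 < c) :
    ∃ K : ℝ, 0 ≤ K ∧ ∀ n : ℕ, (2 : ℝ) ^ (β * n) * (A / (2 ^ s) ^ n) ≤ ν / c * 4 ^ n + K := by
  obtain ⟨n₀, hn₀⟩ := Run7.h969.Dz.small_ev (β := β) hν hs hA (c / 2)
  obtain ⟨q, hq⟩ : ∃ q : ℝ, q = 2 ^ s := ⟨_, rfl⟩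
  have hq0 : 0 < q := by rw [hq]; exact Real.rpow_pos_of_pos two_pos _
  have hB0 : (0 : ℝ) < 2 ^ β := Real.rpow_pos_of_pos two_pos _
  rw [← hq] at hn₀ ⊢
  refine ⟨∑ n ∈ Finset.range n₀, (2 ^ β) ^ n * (A / q ^ n),
    Finset.sum_nonneg fun n _ => by positivity, fun n => ?_⟩
  rw [pow_mul_nat]
  by_cases hn : n₀ ≤ n
  · have h1 := hn₀ n hn
    have h2 : 0 ≤ ∑ n ∈ Finset.range n₀, ((2 : ℝ) ^ β) ^ n * (A / q ^ n) :=
      Finset.sum_nonneg fun n _ => by positivity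
    have h3 : ((2 : ℝ) ^ β) ^ n * (A / q ^ n) ≤ ν / c * 4 ^ n := by
      rw [div_mul_eq_mul_div, le_div_iff₀ hc]
      linarith
    linarith
  · have h1 : ((2 : ℝ) ^ β) ^ n * (A / q ^ n)
        ≤ ∑ n ∈ Finset.range n₀, ((2 : ℝ) ^ β) ^ n * (A / q ^ n) :=
      Finset.single_le_sum (f := fun n => ((2 : ℝ) ^ β) ^ n * (A / q ^ n))
        (fun n _ => by positivity) (Finset.mem_range.2 (by omega))
    have h2 : 0 ≤ ν / c * 4 ^ n := by positivity
    linarith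

/-- **The uniform bounds.** -/
theorem unifT (hD : 0 < D) (hβ : β < 3) (hν : 0 < ν) (had : AdmT x f g) :
    ∃ s : ℝ, 0 < s ∧ β - 2 < s ∧ ∀ T : ℝ, 0 < T → ∃ A K W : ℝ, 0 ≤ A ∧ 0 ≤ K ∧ 0 ≤ W ∧
      (∀ n : ℕ, (2 : ℝ) ^ (β * n) * (A / (2 ^ s) ^ n) ≤ ν / (10 * D) * 4 ^ n + K) ∧
      ∀ (N : ℕ) (X : Nd D → ℝ → ℝ), GalT β ν T N x f X →
        (∀ t ∈ Icc 0 T, ∀ j : Nd D, |X j t| ≤ A / (2 ^ s) ^ j.length) ∧
        (∀ t ∈ Icc 0 T, ∑ j ∈ tre D N, X j t ^ 2 ≤ W) ∧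
        (∫ s in (0 : ℝ)..T, ∑ j ∈ tre D N, 4 ^ j.length * X j s ^ 2 ≤ W) ∧
        (∀ t ∈ Icc 0 T, ∑ j ∈ tre D N, VT β ν N f X j t ^ 2 ≤ W) ∧
        (∫ s in (0 : ℝ)..T, ∑ j ∈ tre D N, 4 ^ j.length * VT β ν N f X j s ^ 2 ≤ W) := by
  have hD' : (0 : ℝ) < D := by exact_mod_cast hD
  obtain ⟨s, hs0, hs, hs1, hcrit⟩ := critT_all hD hβ hν one_pos (by linarith : β - 2 < 1) le_rfl
  refine ⟨s, hs0, hs, fun T hT => ?_⟩
  obtain ⟨R, hR0, hx, h16, hx2, hf0, hF, hΦ, hΓ⟩ := had.bounds hT.le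
  have hfc : ∀ j, ContinuousOn (f j) (Icc 0 T) := fun j => had.fcont hT.le j
  obtain ⟨C, hC⟩ := hcrit R R (√(R + R / ν)) hR0 hR0 (Real.sqrt_nonneg _)
  have hx1 : ∀ j : Nd D, (2 : ℝ) ^ ((1 : ℝ) * j.length) * |x j| ≤ R := by
    intro j
    rw [one_mul, Real.rpow_natCast]
    have h1 := mul_le_mul_of_nonneg_left (hx j) (by positivity : (0 : ℝ) ≤ 2 ^ j.length)
    refine h1.trans ?_
    rw [mul_div_assoc', div_le_iff₀ (by positivity), mul_comm]
    exact mul_le_mul_of_nonneg_left (pow_le_pow_left₀ (by norm_num) (by norm_num) _) hR0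
  obtain ⟨A, hA⟩ : ∃ A, A = max C 0 := ⟨_, rfl⟩
  have hA0 : 0 ≤ A := by rw [hA]; exact le_max_right _ _
  obtain ⟨q, hq⟩ : ∃ q : ℝ, q = 2 ^ s := ⟨_, rfl⟩
  have hq0 : 0 < q := by rw [hq]; exact Real.rpow_pos_of_pos two_pos _
  have hq1 : 1 < q := by rw [hq]; exact Real.one_lt_rpow (by norm_num) hs0
  obtain ⟨K, hK0, hK⟩ := absorbT (β := β) (c := 10 * D) hν hs hA0 (by positivity)
  obtain ⟨E, hE⟩ : ∃ E, E = 3 * (2 * (D * R ^ 3) + 2 * (D ^ 2 * R ^ 3)) + 3 * ν ^ 2 * R + 3 * R :=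
    ⟨_, rfl⟩
  have hE0 : 0 ≤ E := by rw [hE]; positivity
  obtain ⟨W, hW⟩ : ∃ W, W = (R + R / ν) + (R + R / ν) / ν
      + (E + 2 / ν * R) * Real.exp (5 * D * K * T)
      + 2 / ν * ((E + 2 / ν * R) * (1 + 5 * D * K * (T * Real.exp (5 * D * K * T)))) := ⟨_, rfl⟩
  have hW0 : 0 ≤ W := by rw [hW]; positivity
  refine ⟨A, K, W, hA0, hK0, hW0, hK, fun N X hX => ?_⟩
  have hTT : T ∈ Icc 0 T := ⟨hT.le, le_rfl⟩
  have hXA : ∀ t ∈ Icc 0 T, ∀ j : Nd D, |X j t| ≤ A / (2 ^ s) ^ j.length := by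
    intro t ht j
    have h1 := hC T N x f X hT hx1 hF (fun t ht j => abs_le_energyT hν hX hfc hx2 hΦ ht j) hX t ht j
    rw [le_div_iff₀ (by positivity), mul_comm, ← pow_mul_nat]
    exact h1.trans (by rw [hA]; exact le_max_left _ _)
  have hKX : ∀ t ∈ Icc 0 T, ∀ j : Nd D,
      (2 : ℝ) ^ (β * j.length) * |X j t| ≤ ν / (10 * D) * 4 ^ j.length + K :=
    fun t ht j => (mul_le_mul_of_nonneg_left (hXA t ht j)
      (Real.rpow_nonneg two_pos.le _)).trans (hK _)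
  have hKX' : ∀ t ∈ Icc 0 T, ∀ (j : Nd D) (i : Fin D),
      (2 : ℝ) ^ (β * j.length) * |X (i :: j) t| ≤ ν / (10 * D) * 4 ^ j.length + K := by
    intro t ht j i
    refine (mul_le_mul_of_nonneg_left ((hXA t ht (i :: j)).trans ?_)
      (Real.rpow_nonneg two_pos.le _)).trans (hK _)
    rw [← hq, List.length_cons]
    apply div_le_div_of_nonneg_left hA0 (by positivity)
    exact pow_le_pow_right₀ hq1.le (Nat.le_succ _)
  have hen : ∀ t ∈ Icc 0 T, ∑ j ∈ tre D N, X j t ^ 2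
      + ν * ∫ s in (0 : ℝ)..t, ∑ j ∈ tre D N, 4 ^ j.length * X j s ^ 2 ≤ R + R / ν :=
    fun t ht => le_energyT hν hX hfc hx2 hΦ ht
  have htm : ∀ t ∈ Icc 0 T, _ := fun t ht => galT_time (K := K) (Γ := R) (E := E) hD hν hX hfc
    (fun j => had.gi T j hT.le)
    (fun j => had.gi2 T j hT.le) (fun j t ht => had.fg j t ht.1) hK0 hKX hKX' hΓ
    (by rw [hE]; exact VT_zero_time hβ hX hx hR0 h16 hf0) ht
  have hRν : 0 ≤ R / ν := by positivity
  have p1 : 0 ≤ (R + R / ν) / ν := by positivity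
  have p2 : 0 ≤ (E + 2 / ν * R) * Real.exp (5 * D * K * T) := by positivity
  have p3 : 0 ≤ 2 / ν * ((E + 2 / ν * R)
        * (1 + 5 * D * K * (T * Real.exp (5 * D * K * T)))) := by positivity
  refine ⟨hXA, fun t ht => ?_, ?_, fun t ht => ?_, ?_⟩
  · have h1 := hen t ht
    have h2 : 0 ≤ ν * ∫ s in (0 : ℝ)..t, ∑ j ∈ tre D N, 4 ^ j.length * X j s ^ 2 :=
      mul_nonneg hν.le (intervalIntegral.integral_nonneg ht.1 fun s _ =>
        Finset.sum_nonneg fun n _ => by positivity)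
    rw [hW]
    linarith
  · have h1 := hen T hTT
    have h2 : 0 ≤ ∑ j ∈ tre D N, X j T ^ 2 := Finset.sum_nonneg fun n _ => sq_nonneg _
    have h3 : ∫ s in (0 : ℝ)..T, ∑ j ∈ tre D N, 4 ^ j.length * X j s ^ 2
        ≤ (R + R / ν) / ν := by
      rw [le_div_iff₀ hν, mul_comm]
      linarith
    rw [hW]
    linarith
  · refine (htm t ht).1.trans ?_
    have h1 : Real.exp (5 * D * K * t) ≤ Real.exp (5 * D * K * T) :=
      Real.exp_le_exp.2 (mul_le_mul_of_nonneg_left ht.2 (by positivity))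
    have h2 := mul_le_mul_of_nonneg_left h1
      (by positivity : 0 ≤ E + 2 / ν * R)
    rw [hW]
    linarith
  · have h1 := (htm T hTT).2
    have h2 : ∫ s in (0 : ℝ)..T, ∑ j ∈ tre D N, 4 ^ j.length * VT β ν N f X j s ^ 2
        ≤ 2 / ν * ((E + 2 / ν * R) * (1 + 5 * D * K * (T * Real.exp (5 * D * K * T)))) := by
      have h3 := mul_le_mul_of_nonneg_left h1 (by positivity : 0 ≤ 2 / ν)
      rw [← mul_assoc, show 2 / ν * (ν / 2) = 1 by field_simp, one_mul] at h3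
      exact h3
    rw [hW]
    linarith

end Pool.Agent.Run7.h32.Tr
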