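import Pool.Agent.Run7.h32.Fo.Exist
import Pool.Agent.Run7.h32.Tr.Data

/-!
The forced dyadic model on a tree: the strong solution.
-/

set_option autoImplicit false

open Set Filter Topology MeasureTheory

namespace Pool.Agent.Run7.h32.Tr

open Pool.Agent.Run7.h32.Fo (ii_of cauchy_of_bound int_tendsto)

variable {D : ℕ} {x : Nd D → ℝ} {f g : Nd D → ℝ → ℝ} {β ν T : ℝ}

/-- A solution of the forced dyadic model on the tree on `[0, ∞)`. -/
structure SolT (β ν : ℝ) (x : Nd D → ℝ) (f X : Nd D → ℝ → ℝ) : Prop where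
  init : ∀ j, X j 0 = x j
  ode : ∀ j t, 0 ≤ t →
    HasDerivWithinAt (X j) (trhs β ν (fun k => X k t) j + f j t) (Ici 0) t

lemma ch_tendsto {Y : ℕ → Nd D → ℝ → ℝ} {X : Nd D → ℝ → ℝ} {t : ℝ}
    (h : ∀ k, Tendsto (fun N => Y N k t) atTop (𝓝 (X k t))) (j : Nd D) :
    Tendsto (fun N => ch (fun k => Y N k t) j) atTop (𝓝 (ch (fun k => X k t) j)) :=
  tendsto_finsetSum _ fun _ _ => h _

lemma trhs_tendsto {Y : ℕ → Nd D → ℝ → ℝ} {X : Nd D → ℝ → ℝ} {t : ℝ}
    (h : ∀ k, Tendsto (fun N => Y N k t) atTop (𝓝 (X k t))) (j : Nd D) :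
    Tendsto (fun N => trhs β ν (fun k => Y N k t) j) atTop (𝓝 (trhs β ν (fun k => X k t) j)) := by
  have h1 : Tendsto (fun N => inp β (fun k => Y N k t) j) atTop
      (𝓝 (inp β (fun k => X k t) j)) := by
    cases j with
    | nil => exact tendsto_const_nhds
    | cons i j => exact ((h j).pow 2).const_mul _
  exact (h1.sub (((h j).mul (ch_tendsto h j)).const_mul _)).sub ((h j).const_mul _)

/-- **The strong solution.** -/
theorem exists_strongT (hD : 0 < D) (hβ : β < 3) (hν : 0 < ν) (had : AdmT x f g) :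
    ∃ s : ℝ, 0 < s ∧ β - 2 < s ∧ ∃ X : Nd D → ℝ → ℝ, SolT β ν x f X ∧ ∀ T : ℝ, 0 < T → ∃ W : ℝ,
      0 ≤ W ∧
      (∀ t ∈ Icc 0 T, ∀ j : Nd D, |X j t| ≤ W / (2 ^ s) ^ j.length) ∧
      (∀ t ∈ Icc 0 T, ∀ M : ℕ, ∑ j ∈ tre D M, X j t ^ 2 ≤ W) ∧
      (∀ M : ℕ, ∫ s in (0 : ℝ)..T, ∑ j ∈ tre D M, 4 ^ j.length * X j s ^ 2 ≤ W) ∧
      (∀ t ∈ Icc 0 T, ∀ M : ℕ,
        ∑ j ∈ tre D M, (trhs β ν (fun k => X k t) j + f j t) ^ 2 ≤ W) ∧
      (∀ M : ℕ, ∫ s in (0 : ℝ)..T, ∑ j ∈ tre D M,
        4 ^ j.length * (trhs β ν (fun k => X k s) j + f j s) ^ 2 ≤ W) := by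
  have hD' : (0 : ℝ) < D := by exact_mod_cast hD
  obtain ⟨s, hs0, hs, hun⟩ := unifT hD hβ hν had
  refine ⟨s, hs0, hs, ?_⟩
  obtain ⟨q, hq⟩ : ∃ q : ℝ, q = 2 ^ s := ⟨_, rfl⟩
  have hq0 : 0 < q := by rw [hq]; exact Real.rpow_pos_of_pos two_pos _
  have hq1 : 1 < q := by rw [hq]; exact Real.one_lt_rpow (by norm_num) hs0
  rw [← hq] at hun ⊢
  -- the truncated solutions
  have hex : ∀ N : ℕ, ∃ Y : Nd D → ℝ → ℝ, GalT β ν ((N : ℝ) + 1) N x f Y := fun N =>
    exist_galT β N x hν (by positivity) fun n => had.fcont (by positivity) n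
  choose Y hY using hex
  have hYT : ∀ {T : ℝ} {N : ℕ}, T ≤ (N : ℝ) + 1 → GalT β ν T N x f (Y N) := fun h => (hY _).mono h
  -- the differences
  have hdiff : ∀ T : ℝ, 0 < T → ∀ n : Nd D, ∃ b : ℕ → ℝ, ∃ N₀ : ℕ, Tendsto b atTop (𝓝 0) ∧
      ∀ N M, N₀ ≤ N → N ≤ M → ∀ t ∈ Icc 0 T, |Y N n t - Y M n t| ≤ b N := by
    intro T hT n
    obtain ⟨A, K, E, hA0, hK0, hE0, hK, hB⟩ := hun T hT
    obtain ⟨k₀, hk₀⟩ := exists_nat_ge T
    obtain ⟨W, hW⟩ : ∃ W : ℝ, W = (4 * D) ^ n.length * (4 * D * A ^ 2 * (ν + K) * T * Real.exp (8 * D * K * T)) :=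
      ⟨_, rfl⟩
    have hW0 : 0 ≤ W := by rw [hW]; positivity
    refine ⟨fun N => √W * (1 / q) ^ N, max n.length k₀, ?_, fun N M hN hNM t ht => ?_⟩
    · have h1 : Tendsto (fun N : ℕ => (1 / q) ^ N) atTop (𝓝 0) :=
        tendsto_pow_atTop_nhds_zero_of_lt_one (by positivity) (by rw [div_lt_one hq0]; exact hq1)
      simpa using h1.const_mul (√W)
    · have hnN : n.length ≤ N := (le_max_left _ _).trans hN
      have hkN : k₀ ≤ N := (le_max_right _ _).trans hN
      have hTN : T ≤ (N : ℝ) + 1 := by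
        have : (k₀ : ℝ) ≤ N := by exact_mod_cast hkN
        linarith
      have hTM : T ≤ (M : ℝ) + 1 := by
        have : (N : ℝ) ≤ M := by exact_mod_cast hNM
        linarith
      have h1 := cauchy_galT (β := β) hD hν hT.le hq1.le hA0 hK0 (fun m => by
          have h2 := hK m
          have h3 : (0 : ℝ) ≤ ν * 4 ^ m := by positivity
          have h4 : ν / (10 * D) * 4 ^ m ≤ 1 / (4 * D) * ν * 4 ^ m := by
            have e1 : ν / (10 * D) * 4 ^ m = (1 / D) * (1 / 10) * (ν * 4 ^ m) := by field_simp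
            have e2 : 1 / (4 * D) * ν * 4 ^ m = (1 / D) * (1 / 4) * (ν * 4 ^ m) := by field_simp
            rw [e1, e2]
            apply mul_le_mul_of_nonneg_right _ h3
            exact mul_le_mul_of_nonneg_left (by norm_num) (by positivity)
          linarith) hNM (hYT hTN) (hYT hTM) (hB N _ (hYT hTN)).1 (hB M _ (hYT hTM)).1 ht
      have h2 : (1 / (4 * D) : ℝ) ^ n.length * (Y N n t - Y M n t) ^ 2
          ≤ ∑ n ∈ tre D N, (1 / (4 * D) : ℝ) ^ n.length * (Y N n t - Y M n t) ^ 2 :=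
        Finset.single_le_sum
          (f := fun n : Nd D => (1 / (4 * D) : ℝ) ^ n.length * (Y N n t - Y M n t) ^ 2)
          (fun n _ => by positivity) (mem_tre.2 hnN)
      have h3 : 4 * D * A ^ 2 * (ν + K) * T / (q ^ N) ^ 2 * Real.exp (8 * D * K * t)
          ≤ 4 * D * A ^ 2 * (ν + K) * T / (q ^ N) ^ 2 * Real.exp (8 * D * K * T) :=
        mul_le_mul_of_nonneg_left (Real.exp_le_exp.2 (mul_le_mul_of_nonneg_left ht.2
          (by positivity))) (by positivity)
      have h4 := mul_le_mul_of_nonneg_left (h2.trans (h1.trans h3)) (by positivity : (0 : ℝ) ≤ (4 * D) ^ n.length)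
      have h5 : (4 * D : ℝ) ^ n.length * ((1 / (4 * D)) ^ n.length * (Y N n t - Y M n t) ^ 2)
          = (Y N n t - Y M n t) ^ 2 := by
        have e1 : (4 * D : ℝ) * (1 / (4 * D)) = 1 := by field_simp
        rw [← mul_assoc, ← mul_pow, e1, one_pow, one_mul]
      have h6 : (4 * D : ℝ) ^ n.length
          * (4 * D * A ^ 2 * (ν + K) * T / (q ^ N) ^ 2 * Real.exp (8 * D * K * T))
          = (√W * (1 / q) ^ N) ^ 2 := by
        rw [mul_pow (√W), Real.sq_sqrt hW0, hW, div_pow, one_pow, div_pow, one_pow]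
        field_simp
      rw [h5, h6] at h4
      have h7 := abs_le_of_sq_le_sq h4 (by positivity)
      exact h7
  have hlim : ∀ (n : Nd D) (t : ℝ), 0 ≤ t → ∃ L, Tendsto (fun N => Y N n t) atTop (𝓝 L) := by
    intro n t ht
    obtain ⟨b, N₀, hb, hbd⟩ := hdiff (t + 1) (by linarith) n
    exact cauchySeq_tendsto_of_complete (cauchy_of_bound (N₀ := N₀)
      (fun N M hN hNM => hbd N M hN hNM t ⟨ht, by linarith⟩) hb)
  choose! X hX using hlim
  have hunif : ∀ T : ℝ, 0 < T → ∀ n, TendstoUniformlyOn (fun N t => Y N n t) (X n) atTop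
      (Icc 0 T) := by
    intro T hT n
    obtain ⟨b, N₀, hb, hbd⟩ := hdiff T hT n
    rw [Metric.tendstoUniformlyOn_iff]
    intro ε hε
    filter_upwards [hb.eventually (gt_mem_nhds hε), eventually_ge_atTop N₀] with N hN hN0 t ht
    rw [Real.dist_eq, abs_sub_comm]
    refine lt_of_le_of_lt ?_ hN
    have h1 : Tendsto (fun M => |Y N n t - Y M n t|) atTop (𝓝 |Y N n t - X n t|) :=
      (tendsto_const_nhds.sub (hX n t ht.1)).abs
    refine le_of_tendsto h1 ?_
    filter_upwards [eventually_ge_atTop N] with M hM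
    exact hbd N M hN0 hM t ht
  have hev : ∀ T : ℝ, ∀ᶠ N : ℕ in atTop, T ≤ (N : ℝ) + 1 := by
    intro T
    obtain ⟨k₀, hk₀⟩ := exists_nat_ge T
    filter_upwards [eventually_ge_atTop k₀] with N hN
    have : (k₀ : ℝ) ≤ N := by exact_mod_cast hN
    linarith
  have hcT : ∀ T : ℝ, 0 < T → ∀ n, ContinuousOn (X n) (Icc 0 T) := by
    intro T hT n
    refine (hunif T hT n).continuousOn (Eventually.frequently ?_)
    filter_upwards [hev T] with N hN
    exact (hYT hN).cont n
  have hxn : ∀ n, X n 0 = x n := by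
    intro n
    refine tendsto_nhds_unique (hX n 0 le_rfl) ?_
    refine tendsto_const_nhds.congr' ?_
    filter_upwards [eventually_ge_atTop n.length] with N hN
    exact ((hY N).init n hN).symm
  -- the derivative
  have hVT : ∀ n t, 0 ≤ t → Tendsto (fun N => VT β ν N f (Y N) n t) atTop
      (𝓝 (trhs β ν (fun k => X k t) n + f n t)) := by
    intro n t ht
    have h1 : Tendsto (fun N => trhs β ν (fun k => Y N k t) n + f n t) atTop
        (𝓝 (trhs β ν (fun k => X k t) n + f n t)) :=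
      (trhs_tendsto (fun k => hX k t ht) n).add tendsto_const_nhds
    refine h1.congr' ?_
    filter_upwards [eventually_ge_atTop n.length] with N hN
    simp only [VT, hN, ite_true]
  have hVc : ∀ T, 0 < T → ∀ n, ContinuousOn (fun t => trhs β ν (fun k => X k t) n + f n t)
      (Icc 0 T) := fun T hT n => (trhs_cont (hcT T hT) n).add (had.fcont hT.le n)
  have hVb : ∀ T : ℝ, 0 < T → ∃ E : ℝ, 0 ≤ E ∧ ∀ᶠ N in atTop, ∀ t ∈ Icc 0 T, ∀ n,
      |VT β ν N f (Y N) n t| ≤ E := by
    intro T hT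
    obtain ⟨A, K, E, hA0, hK0, hE0, hK, hB⟩ := hun T hT
    refine ⟨√E, Real.sqrt_nonneg _, ?_⟩
    filter_upwards [hev T] with N hN t ht n
    apply Real.abs_le_sqrt
    by_cases hn : n.length ≤ N
    · exact (Finset.single_le_sum (f := fun n => VT β ν N f (Y N) n t ^ 2) (fun n _ => sq_nonneg _)
        (mem_tre.2 hn)).trans ((hB N _ (hYT hN)).2.2.2.1 t ht)
    · rw [VT_zero (by omega)]
      norm_num
      exact hE0
  have hinteq : ∀ n t, 0 ≤ t → X n t = x n + ∫ r in (0 : ℝ)..t,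
      (trhs β ν (fun k => X k r) n + f n r) := by
    intro n t ht
    obtain ⟨T, hT⟩ : ∃ T, T = t + 1 := ⟨_, rfl⟩
    have hT0 : 0 < T := by linarith
    have htT : t ∈ Icc 0 T := ⟨ht, by linarith⟩
    obtain ⟨E, hE0, hE⟩ := hVb T hT0
    have h1 : Tendsto (fun N => x n + ∫ r in (0 : ℝ)..t, VT β ν N f (Y N) n r) atTop
        (𝓝 (x n + ∫ r in (0 : ℝ)..t, (trhs β ν (fun k => X k r) n + f n r))) := by
      refine tendsto_const_nhds.add (int_tendsto (C := E) ht ?_ ?_ ?_)
      · filter_upwards [hev T] with N hN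
        exact (VT_cont (hYT hN) (fun n => had.fcont hT0.le n) n).mono (Icc_subset_Icc_right htT.2)
      · filter_upwards [hE] with N hN r hr
        exact hN r ⟨hr.1, hr.2.trans htT.2⟩ n
      · exact fun r hr => hVT n r hr.1
    refine tendsto_nhds_unique (hX n t ht) (h1.congr' ?_)
    filter_upwards [hev T, eventually_ge_atTop n.length] with N hN hnN
    have h2 : ∫ r in (0 : ℝ)..t, VT β ν N f (Y N) n r = Y N n t - Y N n 0 := by
      refine intervalIntegral.integral_eq_sub_of_hasDerivAt_of_le ht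
        (((hYT hN).cont n).mono (Icc_subset_Icc_right htT.2)) ?_
        (ii_of (VT_cont (hYT hN) (fun n => had.fcont hT0.le n) n) ⟨le_rfl, hT0.le⟩ htT)
      intro r hr
      exact (VT_der (hYT hN) n ⟨hr.1.le, hr.2.le.trans htT.2⟩).hasDerivAt
        (Icc_mem_nhds hr.1 (hr.2.trans_le htT.2))
    rw [h2, (hY N).init n hnN]
    ring
  refine ⟨X, ⟨hxn, fun n t ht => ?_⟩, fun T hT => ?_⟩
  · -- the equation
    obtain ⟨G, hG⟩ : ∃ G : ℝ → ℝ, G = fun r => trhs β ν (fun k => X k (max r 0)) n + f n (max r 0) :=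
      ⟨_, rfl⟩
    have hci : ContinuousOn (fun t => trhs β ν (fun k => X k t) n + f n t) (Ici 0) := by
      intro r hr
      have h1 := hVc (r + 1) (by linarith [mem_Ici.1 hr]) n r ⟨hr, by linarith⟩
      refine h1.mono_of_mem_nhdsWithin ?_
      rw [mem_nhdsWithin]
      exact ⟨Iio (r + 1), isOpen_Iio, by simp, fun y hy => ⟨hy.2, (mem_Iio.1 hy.1).le⟩⟩
    have hGc : Continuous G := by
      rw [hG]
      exact hci.comp_continuous (continuous_id.max continuous_const) fun r => mem_Ici.2 (le_max_right _ _)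
    have h1 : HasDerivAt (fun t => x n + ∫ r in (0 : ℝ)..t, G r) (G t) t :=
      (hGc.integral_hasStrictDerivAt 0 t).hasDerivAt.const_add _
    have h2 : G t = trhs β ν (fun k => X k t) n + f n t := by
      rw [hG]
      simp only [max_eq_left ht]
    rw [← h2]
    refine h1.hasDerivWithinAt.congr_of_mem (fun r hr => ?_) ht
    rw [hinteq n r hr]
    congr 1
    refine intervalIntegral.integral_congr fun y hy => ?_
    rw [uIcc_of_le (mem_Ici.1 hr)] at hy
    rw [hG]
    simp only [max_eq_left hy.1]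
  · -- the bounds
    obtain ⟨A, K, E, hA0, hK0, hE0, hK, hB⟩ := hun T hT
    obtain ⟨E', hE'0, hE'⟩ := hVb T hT
    refine ⟨A + E, by positivity, fun t ht n => ?_, fun t ht M => ?_, fun M => ?_,
      fun t ht M => ?_, fun M => ?_⟩
    · have h1 : |X n t| ≤ A / q ^ n.length := by
        refine le_of_tendsto (hX n t ht.1).abs ?_
        filter_upwards [hev T] with N hN
        exact (hB N _ (hYT hN)).1 t ht n
      exact h1.trans (div_le_div_of_nonneg_right (by linarith) (by positivity))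
    · have h1 : Tendsto (fun N => ∑ n ∈ tre D M, Y N n t ^ 2) atTop
          (𝓝 (∑ n ∈ tre D M, X n t ^ 2)) :=
        tendsto_finsetSum _ fun n _ => (hX n t ht.1).pow 2
      refine (le_of_tendsto h1 ?_).trans (by linarith : E ≤ A + E)
      filter_upwards [hev T, eventually_ge_atTop M] with N hN hM
      refine le_trans ?_ ((hB N _ (hYT hN)).2.1 t ht)
      exact Finset.sum_le_sum_of_subset_of_nonneg (tre_mono hM)
        fun n _ _ => sq_nonneg _
    · have h1 : Tendsto (fun N => ∫ r in (0 : ℝ)..T, ∑ n ∈ tre D M, (4 : ℝ) ^ n.length * Y N n r ^ 2)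
          atTop (𝓝 (∫ r in (0 : ℝ)..T, ∑ n ∈ tre D M, (4 : ℝ) ^ n.length * X n r ^ 2)) := by
        refine int_tendsto (C := ∑ n ∈ tre D M, (4 : ℝ) ^ n.length * A ^ 2) hT.le ?_ ?_ ?_
        · filter_upwards [hev T] with N hN
          exact sum4_cont (hYT hN).cont M
        · filter_upwards [hev T] with N hN t ht
          rw [abs_of_nonneg (Finset.sum_nonneg fun n _ => by positivity)]
          refine Finset.sum_le_sum fun n _ => mul_le_mul_of_nonneg_left ?_ (by positivity)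
          rw [← sq_abs]
          refine pow_le_pow_left₀ (abs_nonneg _) (((hB N _ (hYT hN)).1 t ht n).trans ?_) 2
          exact div_le_self hA0 (one_le_pow₀ hq1.le)
        · exact fun t ht => tendsto_finsetSum _ fun n _ => ((hX n t ht.1).pow 2).const_mul _
      refine (le_of_tendsto h1 ?_).trans (by linarith : E ≤ A + E)
      filter_upwards [hev T, eventually_ge_atTop M] with N hN hM
      refine le_trans ?_ (hB N _ (hYT hN)).2.2.1
      refine intervalIntegral.integral_mono_on hT.le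
        (ii_of (sum4_cont (hYT hN).cont M) ⟨le_rfl, hT.le⟩ ⟨hT.le, le_rfl⟩)
        (ii_of (sum4_cont (hYT hN).cont N) ⟨le_rfl, hT.le⟩ ⟨hT.le, le_rfl⟩) fun r hr => ?_
      exact Finset.sum_le_sum_of_subset_of_nonneg (tre_mono hM)
        fun n _ _ => by positivity
    · have h1 : Tendsto (fun N => ∑ n ∈ tre D M, VT β ν N f (Y N) n t ^ 2) atTop
          (𝓝 (∑ n ∈ tre D M, (trhs β ν (fun k => X k t) n + f n t) ^ 2)) :=
        tendsto_finsetSum _ fun n _ => (hVT n t ht.1).pow 2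
      refine (le_of_tendsto h1 ?_).trans (by linarith : E ≤ A + E)
      filter_upwards [hev T, eventually_ge_atTop M] with N hN hM
      refine le_trans ?_ ((hB N _ (hYT hN)).2.2.2.1 t ht)
      exact Finset.sum_le_sum_of_subset_of_nonneg (tre_mono hM)
        fun n _ _ => sq_nonneg _
    · have h1 : Tendsto (fun N => ∫ r in (0 : ℝ)..T, ∑ n ∈ tre D M,
          (4 : ℝ) ^ n.length * VT β ν N f (Y N) n r ^ 2)
          atTop (𝓝 (∫ r in (0 : ℝ)..T, ∑ n ∈ tre D M,
            (4 : ℝ) ^ n.length * (trhs β ν (fun k => X k r) n + f n r) ^ 2)) := by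
        refine int_tendsto (C := ∑ n ∈ tre D M, (4 : ℝ) ^ n.length * E' ^ 2) hT.le ?_ ?_ ?_
        · filter_upwards [hev T] with N hN
          exact sum4_cont (VT_cont (hYT hN) (fun n => had.fcont hT.le n)) M
        · filter_upwards [hE'] with N hN t ht
          rw [abs_of_nonneg (Finset.sum_nonneg fun n _ => by positivity)]
          refine Finset.sum_le_sum fun n _ => mul_le_mul_of_nonneg_left ?_ (by positivity)
          rw [← sq_abs]
          exact pow_le_pow_left₀ (abs_nonneg _) (hN t ht n) 2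
        · exact fun t ht => tendsto_finsetSum _ fun n _ => ((hVT n t ht.1).pow 2).const_mul _
      refine (le_of_tendsto h1 ?_).trans (by linarith : E ≤ A + E)
      filter_upwards [hev T, eventually_ge_atTop M] with N hN hM
      refine le_trans ?_ (hB N _ (hYT hN)).2.2.2.2
      refine intervalIntegral.integral_mono_on hT.le
        (ii_of (sum4_cont (VT_cont (hYT hN) (fun n => had.fcont hT.le n)) M) ⟨le_rfl, hT.le⟩
          ⟨hT.le, le_rfl⟩)
        (ii_of (sum4_cont (VT_cont (hYT hN) (fun n => had.fcont hT.le n)) N) ⟨le_rfl, hT.le⟩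
          ⟨hT.le, le_rfl⟩) fun r hr => ?_
      exact Finset.sum_le_sum_of_subset_of_nonneg (tre_mono hM)
        fun n _ _ => by positivity

end Pool.Agent.Run7.h32.Tr
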