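import Pool.Agent.Run7.h32.Tr.WS
import Pool.Agent.Run7.h32.Fo.Final

/-!
The forced dyadic model on a tree: the energy equality and the uniqueness.
-/

set_option autoImplicit false

open Set Filter Topology MeasureTheory

namespace Pool.Agent.Run7.h32.Tr

open Pool.Agent.Run7.h32.Fo (ii_of rate_lt_one work_le)
open Run7.h969.Dy (pow_mul_nat)

variable {D : ℕ} {x : Nd D → ℝ} {f g X Z : Nd D → ℝ → ℝ} {β ν T : ℝ}

set_option maxHeartbeats 1000000 in
/-- **Uniqueness** among the solutions with the energy inequality. -/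
theorem ws_forcedT {s C W E : ℝ} {δ : ℕ → ℝ} (hD : 0 < D) (hν : 0 < ν) (hs0 : 0 < s)
    (hs : β - 2 < s) (hT : 0 ≤ T) (hC : 0 ≤ C) (hX : SolT β ν x f X) (hZ : SolT β ν x f Z)
    (hf : ∀ j, ContinuousOn (f j) (Icc 0 T))
    (hXs : ∀ t ∈ Icc 0 T, ∀ j : Nd D, |X j t| ≤ C / (2 ^ s) ^ j.length)
    (hXD : ∀ M : ℕ, ∫ s in (0 : ℝ)..T, ∑ j ∈ tre D M, 4 ^ j.length * X j s ^ 2 ≤ W)
    (hZD : ∀ M : ℕ, ∫ s in (0 : ℝ)..T, ∑ j ∈ tre D M, 4 ^ j.length * Z j s ^ 2 ≤ W)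
    (hZe : ∀ N : ℕ, ∀ t ∈ Icc 0 T, ∑ j ∈ tre D N, Z j t ^ 2
      + 2 * ν * ∫ s in (0 : ℝ)..t, ∑ j ∈ tre D N, 4 ^ j.length * Z j s ^ 2
      ≤ E + 2 * (∫ s in (0 : ℝ)..t, ∑ j ∈ tre D N, f j s * Z j s) + 2 * δ N)
    (hx : Tendsto (fun N => ∑ j ∈ tre D N, x j ^ 2) atTop (𝓝 E))
    (hδ : Tendsto δ atTop (𝓝 0)) (n : Nd D) : Z n T = X n T := by
  have hD0 : (0 : ℝ) < D := by exact_mod_cast hD
  obtain ⟨B, hB⟩ : ∃ B : ℝ, B = 2 ^ β := ⟨_, rfl⟩
  obtain ⟨q, hq⟩ : ∃ q : ℝ, q = 2 ^ s := ⟨_, rfl⟩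
  have hB0 : 0 < B := by rw [hB]; exact Real.rpow_pos_of_pos two_pos _
  have hq0 : 0 < q := by rw [hq]; exact Real.rpow_pos_of_pos two_pos _
  have hq1 : 1 < q := by rw [hq]; exact Real.one_lt_rpow (by norm_num) hs0
  have hσ : B / (4 * q) < 1 := by
    rw [hB, hq]
    exact rate_lt_one hs
  have hσ0 : 0 < B / (4 * q) := by positivity
  have h0T : (0 : ℝ) ∈ Icc 0 T := ⟨le_rfl, hT⟩
  have hTT : T ∈ Icc 0 T := ⟨hT, le_rfl⟩
  have hcX : ∀ k, ContinuousOn (X k) (Icc 0 T) := fun k => hX.cont k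
  have hcZ : ∀ k, ContinuousOn (Z k) (Icc 0 T) := fun k => hZ.cont k
  obtain ⟨K, hK0, hK⟩ := absorbT (β := β) (c := 10 * D) hν hs hC (by positivity)
  rw [← hq] at hXs hK
  -- the bound for every `N`
  obtain ⟨ε, hε⟩ : ∃ ε : ℕ → ℝ, ε = fun N => (E - ∑ j ∈ tre D N, x j ^ 2) + 2 * δ N
    + 34 * D * C * (B / (4 * q)) ^ N * W := ⟨_, rfl⟩
  have key : ∀ N : ℕ, ∑ k ∈ tre D N, (X k T - Z k T) ^ 2 ≤ ε N * Real.exp (5 * D * K * T) := by
    intro N
    have hyc : ContinuousOn (fun t => ∑ k ∈ tre D N, (X k t - Z k t) ^ 2) (Icc 0 T) :=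
      continuousOn_finsetSum _ fun k _ => ((hcX k).sub (hcZ k)).pow 2
    refine Run7.h969.Dz.gron hyc (by positivity) (fun t ht => ?_) T hTT
    have hsub : Icc 0 t ⊆ Icc 0 T := Icc_subset_Icc_right ht.2
    have hii : ∀ f : ℝ → ℝ, ContinuousOn f (Icc 0 T) → IntervalIntegrable f volume 0 t :=
      fun f hf => ii_of hf h0T ht
    -- the product
    have hcr : ContinuousOn (fun r => ∑ k ∈ tre D N,
        (X k r * trhs β ν (fun j => Z j r) k + Z k r * trhs β ν (fun j => X j r) k)) (Icc 0 T) :=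
      continuousOn_finsetSum _ fun k _ =>
        ((hcX k).mul (trhs_cont hcZ k)).add ((hcZ k).mul (trhs_cont hcX k))
    have hfX := sumf_cont hf hcX N
    have hfZ := sumf_cont hf hcZ N
    have hJ : (∫ r in (0 : ℝ)..t, ∑ k ∈ tre D N,
        (X k r * trhs β ν (fun j => Z j r) k + Z k r * trhs β ν (fun j => X j r) k))
        + (∫ r in (0 : ℝ)..t, ∑ k ∈ tre D N, f k r * X k r)
        + (∫ r in (0 : ℝ)..t, ∑ k ∈ tre D N, f k r * Z k r)
        = ∑ k ∈ tre D N, X k t * Z k t - ∑ k ∈ tre D N, x k ^ 2 := by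
      have h0 : ∑ k ∈ tre D N, x k ^ 2
          = ∑ k ∈ tre D N, X k 0 * Z k 0 :=
        Finset.sum_congr rfl fun k _ => by rw [hX.init, hZ.init, pow_two]
      rw [h0, ← intervalIntegral.integral_add (hii _ hcr) (hii _ hfX),
        ← intervalIntegral.integral_add ((hii _ hcr).add (hii _ hfX)) (hii _ hfZ)]
      refine intervalIntegral.integral_eq_sub_of_hasDerivAt_of_le ht.1
        (f := fun r => ∑ k ∈ tre D N, X k r * Z k r) ?_ ?_
        (((hii _ hcr).add (hii _ hfX)).add (hii _ hfZ))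
      · exact continuousOn_finsetSum _ fun k _ => ((hcX k).mono hsub).mul ((hcZ k).mono hsub)
      · intro r hr
        have h1 : HasDerivAt (fun r => ∑ k ∈ tre D N, X k r * Z k r)
            (∑ k ∈ tre D N, ((trhs β ν (fun j => X j r) k + f k r) * Z k r
              + X k r * (trhs β ν (fun j => Z j r) k + f k r))) r :=
          HasDerivAt.fun_sum fun k _ => (hX.at k hr.1).fun_mul (hZ.at k hr.1)
        refine h1.congr_deriv ?_
        rw [← Finset.sum_add_distrib, ← Finset.sum_add_distrib]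
        exact Finset.sum_congr rfl fun k _ => by ring
    -- the pointwise bound
    have hpt : ∀ r ∈ Icc 0 t, -2 * ∑ k ∈ tre D N,
        (X k r * trhs β ν (fun j => Z j r) k + Z k r * trhs β ν (fun j => X j r) k)
        ≤ 2 * ν * ∑ j ∈ tre D N, 4 ^ j.length * X j r ^ 2
          + 2 * ν * ∑ j ∈ tre D N, 4 ^ j.length * Z j r ^ 2
          + 5 * D * K * ∑ k ∈ tre D N, (X k r - Z k r) ^ 2
          + 16 * D * C * (B / (4 * q)) ^ N * (∑ j ∈ tre D (N + 1), 4 ^ j.length * X j r ^ 2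
            + ∑ j ∈ tre D (N + 1), 4 ^ j.length * Z j r ^ 2) := fun r hr =>
      cross_le (y := fun j => X j r) (z := fun j => Z j r) hD hν hK0 hq1.le hB hC
        (hXs r (hsub hr)) hK N
    -- the integral
    have hI : ∀ (Y : Nd D → ℝ → ℝ), (∀ k, ContinuousOn (Y k) (Icc 0 T)) → ∀ M : ℕ,
        IntervalIntegrable (fun r => ∑ j ∈ tre D M, (4 : ℝ) ^ j.length * Y j r ^ 2) volume 0 t :=
      fun Y hY M => hii _ (sum4_cont hY M)
    have h1 : -2 * ∫ r in (0 : ℝ)..t, ∑ k ∈ tre D N,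
        (X k r * trhs β ν (fun j => Z j r) k + Z k r * trhs β ν (fun j => X j r) k)
        ≤ 2 * ν * (∫ r in (0 : ℝ)..t, ∑ j ∈ tre D N, 4 ^ j.length * X j r ^ 2)
          + 2 * ν * (∫ r in (0 : ℝ)..t, ∑ j ∈ tre D N, 4 ^ j.length * Z j r ^ 2)
          + 5 * D * K * (∫ r in (0 : ℝ)..t, ∑ k ∈ tre D N, (X k r - Z k r) ^ 2)
          + 16 * D * C * (B / (4 * q)) ^ N
            * ((∫ r in (0 : ℝ)..t, ∑ j ∈ tre D (N + 1), 4 ^ j.length * X j r ^ 2)
            + ∫ r in (0 : ℝ)..t, ∑ j ∈ tre D (N + 1), 4 ^ j.length * Z j r ^ 2) := by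
      rw [← intervalIntegral.integral_const_mul, ← intervalIntegral.integral_const_mul,
        ← intervalIntegral.integral_const_mul, ← intervalIntegral.integral_const_mul,
        ← intervalIntegral.integral_add (hI X hcX _) (hI Z hcZ _),
        ← intervalIntegral.integral_const_mul,
        ← intervalIntegral.integral_add ((hI X hcX _).const_mul _) ((hI Z hcZ _).const_mul _),
        ← intervalIntegral.integral_add (((hI X hcX _).const_mul _).add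
          ((hI Z hcZ _).const_mul _)) ((hii _ hyc).const_mul _),
        ← intervalIntegral.integral_add ((((hI X hcX _).const_mul _).add
          ((hI Z hcZ _).const_mul _)).add ((hii _ hyc).const_mul _))
          (((hI X hcX _).add (hI Z hcZ _)).const_mul _)]
      refine intervalIntegral.integral_mono_on ht.1 ((hii _ hcr).const_mul _)
        (((((hI X hcX _).const_mul _).add
          ((hI Z hcZ _).const_mul _)).add ((hii _ hyc).const_mul _)).add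
          (((hI X hcX _).add (hI Z hcZ _)).const_mul _)) hpt
    have h3 := (int_le_int hcX ht (N + 1)).trans (hXD (N + 1))
    have h4 := (int_le_int hcZ ht (N + 1)).trans (hZD (N + 1))
    have h5 : 16 * D * C * (B / (4 * q)) ^ N
        * ((∫ r in (0 : ℝ)..t, ∑ j ∈ tre D (N + 1), 4 ^ j.length * X j r ^ 2)
        + ∫ r in (0 : ℝ)..t, ∑ j ∈ tre D (N + 1), 4 ^ j.length * Z j r ^ 2)
        ≤ 16 * D * C * (B / (4 * q)) ^ N * (2 * W) := by
      apply mul_le_mul_of_nonneg_left _ (by positivity)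
      linarith
    have h6 := solT_id hX hf N ht
    have h7 := hZe N t ht
    have h9 := (neg_abs_le _).trans' (neg_le_neg (flux_leT (q := q) hq1.le hB hC hcX hXs hXD N ht))
    have h8 : ∑ k ∈ tre D N, (X k t - Z k t) ^ 2
        = ∑ k ∈ tre D N, X k t ^ 2 + ∑ k ∈ tre D N, Z k t ^ 2
          - 2 * ∑ k ∈ tre D N, X k t * Z k t := by
      rw [Finset.mul_sum, ← Finset.sum_add_distrib, ← Finset.sum_sub_distrib]
      exact Finset.sum_congr rfl fun k _ => by ring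
    rw [h8, hε]
    simp only
    linarith
  -- the limit
  have hlim : Tendsto (fun N : ℕ => ε N * Real.exp (5 * D * K * T)) atTop (𝓝 0) := by
    have h3 : Tendsto (fun N : ℕ => (B / (4 * q)) ^ N) atTop (𝓝 0) :=
      tendsto_pow_atTop_nhds_zero_of_lt_one hσ0.le hσ
    have h4 := (((hx.const_sub E).add (hδ.const_mul 2)).add
      ((h3.const_mul (34 * D * C)).mul_const W)).mul_const (Real.exp (5 * D * K * T))
    rw [sub_self, mul_zero, mul_zero, zero_mul, add_zero, add_zero, zero_mul] at h4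
    rw [hε]
    exact h4
  have h1 : (X n T - Z n T) ^ 2 ≤ 0 := by
    refine ge_of_tendsto hlim ?_
    filter_upwards [eventually_ge_atTop n.length] with N hN
    refine le_trans ?_ (key N)
    exact Finset.single_le_sum (f := fun k => (X k T - Z k T) ^ 2) (fun k _ => sq_nonneg _)
      (mem_tre.2 hN)
  have h2 : X n T - Z n T = 0 := by
    have := le_antisymm h1 (sq_nonneg _)
    exact pow_eq_zero_iff two_ne_zero |>.1 this
  linarith

lemma int_sum4T (hc : ∀ j, ContinuousOn (Z j) (Icc 0 T)) {t : ℝ} (ht : t ∈ Icc 0 T) (M : ℕ) :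
    ∫ s in (0 : ℝ)..t, ∑ j ∈ tre D M, 4 ^ j.length * Z j s ^ 2
      = ∑ j ∈ tre D M, 4 ^ j.length * ∫ s in (0 : ℝ)..t, Z j s ^ 2 := by
  have h0T : (0 : ℝ) ∈ Icc 0 T := ⟨le_rfl, ht.1.trans ht.2⟩
  have h1 : ∫ s in (0 : ℝ)..t, ∑ j ∈ tre D M, 4 ^ j.length * Z j s ^ 2
      = ∑ j ∈ tre D M, ∫ s in (0 : ℝ)..t, 4 ^ j.length * Z j s ^ 2 :=
    intervalIntegral.integral_finsetSum fun n _ =>
      ii_of (continuousOn_const.mul ((hc n).pow 2)) h0T ht
  rw [h1]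
  exact Finset.sum_congr rfl fun n _ => intervalIntegral.integral_const_mul _ _

lemma int_sumfT (hf : ∀ j, ContinuousOn (f j) (Icc 0 T)) (hc : ∀ j, ContinuousOn (Z j) (Icc 0 T))
    {t : ℝ} (ht : t ∈ Icc 0 T) (M : ℕ) :
    ∫ s in (0 : ℝ)..t, ∑ j ∈ tre D M, f j s * Z j s
      = ∑ j ∈ tre D M, ∫ s in (0 : ℝ)..t, f j s * Z j s := by
  have h0T : (0 : ℝ) ∈ Icc 0 T := ⟨le_rfl, ht.1.trans ht.2⟩
  exact intervalIntegral.integral_finsetSum fun n _ => ii_of ((hf n).mul (hc n)) h0T ht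

lemma work_leT (hf : ∀ j, ContinuousOn (f j) (Icc 0 T)) (hc : ∀ j, ContinuousOn (Z j) (Icc 0 T))
    {t : ℝ} (ht : t ∈ Icc 0 T) (j : Nd D) :
    |∫ s in (0 : ℝ)..t, f j s * Z j s| ≤ ∫ s in (0 : ℝ)..T, |f j s * Z j s| :=
  work_le (f := fun _ : ℕ => f j) (Z := fun _ => Z j) (fun _ => hf j) (fun _ => hc j) ht 0

/-- **The energy equality of the strong solution.** -/
theorem energy_eqT {s C W Φ : ℝ} (hs0 : 0 < s) (hs : β - 2 < s)
    (hC : 0 ≤ C) (hX : SolT β ν x f X) (hf : ∀ j, ContinuousOn (f j) (Icc 0 T))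
    (hXs : ∀ t ∈ Icc 0 T, ∀ j : Nd D, |X j t| ≤ C / (2 ^ s) ^ j.length)
    (hXH : ∀ t ∈ Icc 0 T, ∀ M : ℕ, ∑ j ∈ tre D M, X j t ^ 2 ≤ W)
    (hXD : ∀ M : ℕ, ∫ s in (0 : ℝ)..T, ∑ j ∈ tre D M, 4 ^ j.length * X j s ^ 2 ≤ W)
    (hΦ : ∀ M : ℕ, ∫ s in (0 : ℝ)..T, ∑ j ∈ tre D M, f j s ^ 2 / 4 ^ j.length ≤ Φ) {t : ℝ}
    (ht : t ∈ Icc 0 T) :
    ∑' j, X j t ^ 2 + 2 * ν * ∑' j : Nd D, 4 ^ j.length * ∫ s in (0 : ℝ)..t, X j s ^ 2
      = ∑' j, x j ^ 2 + 2 * ∑' j, ∫ s in (0 : ℝ)..t, f j s * X j s := by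
  obtain ⟨q, hq⟩ : ∃ q : ℝ, q = 2 ^ s := ⟨_, rfl⟩
  have hq0 : 0 < q := by rw [hq]; exact Real.rpow_pos_of_pos two_pos _
  have hq1 : 1 < q := by rw [hq]; exact Real.one_lt_rpow (by norm_num) hs0
  have hB0 : (0 : ℝ) < 2 ^ β := Real.rpow_pos_of_pos two_pos _
  have hσ : 2 ^ β / (4 * q) < 1 := by rw [hq]; exact rate_lt_one hs
  have hσ0 : 0 < 2 ^ β / (4 * q) := by positivity
  rw [← hq] at hXs
  have hT : 0 ≤ T := ht.1.trans ht.2
  have h0T : (0 : ℝ) ∈ Icc 0 T := ⟨le_rfl, hT⟩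
  have hTT : T ∈ Icc 0 T := ⟨hT, le_rfl⟩
  have hc : ∀ j, ContinuousOn (X j) (Icc 0 T) := fun j => hX.cont j
  have h1 := sum_tre_tendsto (tsum_bdT (fun n => sq_nonneg _) (hXH t ht)).1
  have h2s : Summable fun j : Nd D => (4 : ℝ) ^ j.length * ∫ s in (0 : ℝ)..t, X j s ^ 2 := by
    refine (tsum_bdT (C := W) (fun n => mul_nonneg (by positivity)
      (intervalIntegral.integral_nonneg ht.1 fun s _ => sq_nonneg _)) fun M => ?_).1
    rw [← int_sum4T hc ht M]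
    exact (int_le_int hc ht M).trans (hXD M)
  have h2 := sum_tre_tendsto h2s
  have h3s : Summable fun j => x j ^ 2 := by
    have := (tsum_bdT (fun n => sq_nonneg _) (hXH 0 h0T)).1
    simpa only [hX.init] using this
  have h3 := sum_tre_tendsto h3s
  have h4s : Summable fun j => ∫ s in (0 : ℝ)..t, f j s * X j s :=
    Summable.of_norm_bounded (work_summableT hT hf hc hΦ hXD) fun n => by
      rw [Real.norm_eq_abs]
      exact work_leT hf hc ht n
  have h4 := sum_tre_tendsto h4s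
  have h5 : Tendsto (fun N : ℕ => ∫ s in (0 : ℝ)..t, flux β N (fun k => X k s)) atTop (𝓝 0) := by
    have h6 : Tendsto (fun N : ℕ => D * C * (2 ^ β / (4 * q)) ^ N * W) atTop (𝓝 0) := by
      have := ((tendsto_pow_atTop_nhds_zero_of_lt_one hσ0.le hσ).const_mul (D * C)).mul_const W
      simpa using this
    refine squeeze_zero_norm (fun N => ?_) h6
    rw [Real.norm_eq_abs]
    exact flux_leT hq1.le rfl hC hc hXs hXD N ht
  have h6 := (h1.add (h2.const_mul (2 * ν)))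
  have h7 := ((h3.add (h4.const_mul 2)).sub (h5.const_mul 2))
  rw [mul_zero, sub_zero] at h7
  refine tendsto_nhds_unique h6 (h7.congr fun N => ?_)
  have h8 := solT_id hX hf N ht
  rw [int_sum4T hc ht, int_sumfT hf hc ht] at h8
  exact h8.symm

/-- **Uniqueness among the Leray-Hopf solutions.** -/
theorem unique_lhT {s C W Φ : ℝ} (hD : 0 < D) (hν : 0 < ν) (hs0 : 0 < s) (hs : β - 2 < s)
    (hT : 0 < T) (hC : 0 ≤ C) (hX : SolT β ν x f X) (hZ : SolT β ν x f Z)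
    (hf : ∀ j, ContinuousOn (f j) (Icc 0 T)) (hx : Summable fun j => x j ^ 2)
    (hXs : ∀ t ∈ Icc 0 T, ∀ j : Nd D, |X j t| ≤ C / (2 ^ s) ^ j.length)
    (hXD : ∀ M : ℕ, ∫ s in (0 : ℝ)..T, ∑ j ∈ tre D M, 4 ^ j.length * X j s ^ 2 ≤ W)
    (hΦ : ∀ M : ℕ, ∫ s in (0 : ℝ)..T, ∑ j ∈ tre D M, f j s ^ 2 / 4 ^ j.length ≤ Φ)
    (hZH : ∀ t ∈ Icc 0 T, Summable fun j => Z j t ^ 2)
    (hZV : Summable fun j : Nd D => (4 : ℝ) ^ j.length * ∫ s in (0 : ℝ)..T, Z j s ^ 2)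
    (hZe : ∀ t ∈ Icc 0 T, ∑' j, Z j t ^ 2
      + 2 * ν * ∑' j : Nd D, 4 ^ j.length * ∫ s in (0 : ℝ)..t, Z j s ^ 2
      ≤ ∑' j, x j ^ 2 + 2 * ∑' j, ∫ s in (0 : ℝ)..t, f j s * Z j s) (n : Nd D) :
    Z n T = X n T := by
  have h0T : (0 : ℝ) ∈ Icc 0 T := ⟨le_rfl, hT.le⟩
  have hTT : T ∈ Icc 0 T := ⟨hT.le, le_rfl⟩
  have hc : ∀ j, ContinuousOn (Z j) (Icc 0 T) := fun j => hZ.cont j
  have hnn : ∀ t ∈ Icc 0 T, ∀ j : Nd D, 0 ≤ (4 : ℝ) ^ j.length * ∫ s in (0 : ℝ)..t, Z j s ^ 2 :=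
    fun t ht n =>
    mul_nonneg (by positivity) (intervalIntegral.integral_nonneg ht.1 fun s _ => sq_nonneg _)
  obtain ⟨W', hW'⟩ : ∃ W', W' = ∑' j : Nd D, (4 : ℝ) ^ j.length * ∫ s in (0 : ℝ)..T, Z j s ^ 2 :=
    ⟨_, rfl⟩
  have hZD : ∀ M : ℕ, ∫ s in (0 : ℝ)..T, ∑ j ∈ tre D M, 4 ^ j.length * Z j s ^ 2 ≤ W' := by
    intro M
    rw [int_sum4T hc hTT, hW']
    exact hZV.sum_le_tsum _ fun n _ => hnn T hTT n
  have hws := work_summableT hT.le hf hc hΦ hZD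
  obtain ⟨a, ha⟩ : ∃ a : Nd D → ℝ, a = fun j => ∫ s in (0 : ℝ)..T, |f j s * Z j s| := ⟨_, rfl⟩
  have hws' : Summable a := by rw [ha]; exact hws
  have hδ : Tendsto (fun N => ∑' j, a j - ∑ j ∈ tre D N, a j) atTop (𝓝 0) := by
    have := (sum_tre_tendsto hws').const_sub (∑' j, a j)
    rwa [sub_self] at this
  refine ws_forcedT (C := C) (W := max W W') hD hν hs0 hs hT.le hC hX hZ hf hXs
    (fun M => (hXD M).trans (le_max_left _ _)) (fun M => (hZD M).trans (le_max_right _ _))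
    (E := ∑' j, x j ^ 2) (fun N t ht => ?_) (sum_tre_tendsto hx) hδ n
  rw [int_sum4T hc ht, int_sumfT hf hc ht]
  have h2s : Summable fun j : Nd D => (4 : ℝ) ^ j.length * ∫ s in (0 : ℝ)..t, Z j s ^ 2 := by
    refine hZV.of_nonneg_of_le (hnn t ht) fun n => ?_
    refine mul_le_mul_of_nonneg_left ?_ (by positivity)
    exact intervalIntegral.integral_mono_interval le_rfl ht.1 ht.2
      (Eventually.of_forall fun s => sq_nonneg _) (ii_of ((hc n).pow 2) h0T hTT)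
  have h4s : Summable fun j => ∫ s in (0 : ℝ)..t, f j s * Z j s :=
    Summable.of_norm_bounded hws fun n => by
      rw [Real.norm_eq_abs]
      exact work_leT hf hc ht n
  have h1 := (hZH t ht).sum_le_tsum (tre D N) fun n _ => sq_nonneg _
  have h2 := mul_le_mul_of_nonneg_left (h2s.sum_le_tsum (tre D N)
    fun n _ => hnn t ht n) (by positivity : 0 ≤ 2 * ν)
  have h3 : ∑' j, ∫ s in (0 : ℝ)..t, f j s * Z j s
      ≤ ∑ j ∈ tre D N, (∫ s in (0 : ℝ)..t, f j s * Z j s)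
        + (∑' j, a j - ∑ j ∈ tre D N, a j) := by
    have h6 : Summable fun j => a j - ∫ s in (0 : ℝ)..t, f j s * Z j s := hws'.sub h4s
    have h7 := h6.sum_le_tsum (tre D N) fun j _ => by
      have h8 := (le_abs_self _).trans (work_leT hf hc ht j)
      rw [ha]
      simp only
      linarith
    rw [Finset.sum_sub_distrib, hws'.tsum_sub h4s] at h7
    linarith
  have h5 := hZe t ht
  linarith

end Pool.Agent.Run7.h32.Tr
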