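import Pool.Agent.Run7.h32.Tr.Exist
import Pool.Agent.Run7.h32.Fo.WSF
import Pool.Agent.Run7.h969.Dz.Uniq

/-!
The forced dyadic model on a tree: the energy equality of the strong solution and the uniqueness
among the Leray-Hopf solutions.
-/

set_option autoImplicit false

open Set Filter Topology MeasureTheory

namespace Pool.Agent.Run7.h32.Tr

open Pool.Agent.Run7.h32.Fo (ii_of young rate_lt_one)
open Run7.h969.Dy (pow_mul_nat)

variable {D : ℕ} {x : Nd D → ℝ} {f g X Z : Nd D → ℝ → ℝ} {β ν T : ℝ}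

lemma SolT.cont (h : SolT β ν x f X) (j : Nd D) : ContinuousOn (X j) (Icc 0 T) := fun t ht =>
  ((h.ode j t ht.1).continuousWithinAt).mono fun _ hs => hs.1

lemma SolT.at (h : SolT β ν x f X) (j : Nd D) {t : ℝ} (ht : 0 < t) :
    HasDerivAt (X j) (trhs β ν (fun k => X k t) j + f j t) t :=
  (h.ode j t ht.le).hasDerivAt (Ici_mem_nhds ht)

/-- the flux through the generation `N` -/
noncomputable def flux (β : ℝ) (N : ℕ) (y : Nd D → ℝ) : ℝ :=
  ∑ j ∈ lev D N, (2 : ℝ) ^ (β * N) * (y j ^ 2 * ch y j)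

lemma flux_cont' (hc : ∀ j, ContinuousOn (X j) (Icc 0 T)) (N : ℕ) :
    ContinuousOn (fun s => flux β N (fun k => X k s)) (Icc 0 T) := flux_cont hc N

/-- the energy identity of the first generations -/
lemma solT_id (h : SolT β ν x f X) (hf : ∀ j, ContinuousOn (f j) (Icc 0 T)) (N : ℕ) {t : ℝ}
    (ht : t ∈ Icc 0 T) :
    ∑ j ∈ tre D N, X j t ^ 2
      + 2 * ν * ∫ s in (0 : ℝ)..t, ∑ j ∈ tre D N, 4 ^ j.length * X j s ^ 2
      = ∑ j ∈ tre D N, x j ^ 2
        + 2 * (∫ s in (0 : ℝ)..t, ∑ j ∈ tre D N, f j s * X j s)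
        - 2 * ∫ s in (0 : ℝ)..t, flux β N (fun k => X k s) := by
  have h0T : (0 : ℝ) ∈ Icc 0 T := ⟨le_rfl, ht.1.trans ht.2⟩
  have hsub : Icc 0 t ⊆ Icc 0 T := Icc_subset_Icc_right ht.2
  have hc : ∀ j, ContinuousOn (X j) (Icc 0 T) := fun j => h.cont j
  have hi1 := ii_of (sum4_cont hc N) h0T ht
  have hi2 := ii_of (sumf_cont hf hc N) h0T ht
  have hi3 := ii_of (flux_cont' (β := β) hc N) h0T ht
  have h1 : ∫ s in (0 : ℝ)..t, (-2 * flux β N (fun k => X k s)
        - 2 * ν * ∑ j ∈ tre D N, 4 ^ j.length * X j s ^ 2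
        + 2 * ∑ j ∈ tre D N, f j s * X j s)
      = ∑ j ∈ tre D N, X j t ^ 2 - ∑ j ∈ tre D N, X j 0 ^ 2 := by
    refine intervalIntegral.integral_eq_sub_of_hasDerivAt_of_le ht.1
      (f := fun s => ∑ j ∈ tre D N, X j s ^ 2) ?_ ?_ ?_
    · exact continuousOn_finsetSum _ fun n _ => ((hc n).mono hsub).pow 2
    · intro s hs
      have := energy_hdT (S := univ) (f := f) (X := X) (β := β) (ν := ν) (t := s) N
        (fun n _ => (h.at n hs.1).hasDerivWithinAt)
      exact this.hasDerivAt univ_mem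
    · exact ((hi3.const_mul (-2)).sub (hi1.const_mul (2 * ν))).add (hi2.const_mul 2)
  have h2 : ∑ j ∈ tre D N, X j 0 ^ 2 = ∑ j ∈ tre D N, x j ^ 2 :=
    Finset.sum_congr rfl fun j _ => by rw [h.init j]
  rw [intervalIntegral.integral_add ((hi3.const_mul (-2)).sub (hi1.const_mul (2 * ν)))
    (hi2.const_mul 2), intervalIntegral.integral_sub (hi3.const_mul (-2)) (hi1.const_mul (2 * ν)),
    intervalIntegral.integral_const_mul (-2), intervalIntegral.integral_const_mul (2 * ν),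
    intervalIntegral.integral_const_mul 2, h2] at h1
  linarith

/-- a nonnegative family over the nodes with bounded partial sums -/
lemma tsum_bdT {a : Nd D → ℝ} {C : ℝ} (ha : ∀ j, 0 ≤ a j)
    (h : ∀ M : ℕ, ∑ j ∈ tre D M, a j ≤ C) : Summable a ∧ ∑' j, a j ≤ C := by
  have h1 : ∀ u : Finset (Nd D), ∑ j ∈ u, a j ≤ C := by
    intro u
    have h2 : u ⊆ tre D (u.sup List.length) := by
      intro j hj
      rw [mem_tre]
      exact Finset.le_sup (f := List.length) hj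
    exact (Finset.sum_le_sum_of_subset_of_nonneg h2 fun j _ _ => ha j).trans (h _)
  have h2 := summable_of_sum_le ha h1
  exact ⟨h2, h2.tsum_le_of_sum_le h1⟩

lemma tre_tendsto : Tendsto (fun N => tre D N) atTop atTop :=
  tendsto_atTop_finset_of_monotone (fun _ _ h => tre_mono h) fun j => ⟨j.length, mem_tre.2 le_rfl⟩

lemma sum_tre_tendsto {a : Nd D → ℝ} (ha : Summable a) :
    Tendsto (fun N => ∑ j ∈ tre D N, a j) atTop (𝓝 (∑' j, a j)) :=
  ha.hasSum.comp tre_tendsto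

/-- The work of the force is absolutely summable. -/
lemma work_summableT {C Φ : ℝ} (hT : 0 ≤ T) (hf : ∀ j, ContinuousOn (f j) (Icc 0 T))
    (hc : ∀ j, ContinuousOn (Z j) (Icc 0 T))
    (hΦ : ∀ M : ℕ, ∫ s in (0 : ℝ)..T, ∑ j ∈ tre D M, f j s ^ 2 / 4 ^ j.length ≤ Φ)
    (hC : ∀ M : ℕ, ∫ s in (0 : ℝ)..T, ∑ j ∈ tre D M, 4 ^ j.length * Z j s ^ 2 ≤ C) :
    Summable fun j => ∫ s in (0 : ℝ)..T, |f j s * Z j s| := by
  have h0T : (0 : ℝ) ∈ Icc 0 T := ⟨le_rfl, hT⟩
  have hTT : T ∈ Icc 0 T := ⟨hT, le_rfl⟩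
  have hca : ∀ j, ContinuousOn (fun s => |f j s * Z j s|) (Icc 0 T) := fun j =>
    ((hf j).mul (hc j)).abs
  refine (tsum_bdT (C := Φ + C) (fun n => intervalIntegral.integral_nonneg hT
    fun s _ => abs_nonneg _) fun M => ?_).1
  rw [← intervalIntegral.integral_finsetSum fun n _ => ii_of (hca n) h0T hTT]
  have h1 : ∫ s in (0 : ℝ)..T, ∑ j ∈ tre D M, |f j s * Z j s|
      ≤ ∫ s in (0 : ℝ)..T, (∑ j ∈ tre D M, f j s ^ 2 / 4 ^ j.length
        + ∑ j ∈ tre D M, 4 ^ j.length * Z j s ^ 2) := by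
    refine intervalIntegral.integral_mono_on hT
      (ii_of (continuousOn_finsetSum _ fun n _ => hca n) h0T hTT)
      ((ii_of (sum14_cont hf M) h0T hTT).add (ii_of (sum4_cont hc M) h0T hTT)) fun s _ => ?_
    rw [← Finset.sum_add_distrib]
    refine Finset.sum_le_sum fun j _ => ?_
    have h2 := young (ν := 1) one_pos (a := |f j s|) (b := |Z j s|) j.length
    rw [sq_abs, sq_abs] at h2
    rw [abs_mul]
    have h3 : 0 ≤ |f j s| * |Z j s| := by positivity
    have h4 : 0 ≤ f j s ^ 2 / 4 ^ j.length := by positivity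
    norm_num at h2
    linarith
  rw [intervalIntegral.integral_add (ii_of (sum14_cont hf M) h0T hTT)
    (ii_of (sum4_cont hc M) h0T hTT)] at h1
  linarith [hΦ M, hC M]

/-- the integral up to `t` of a nonnegative sum -/
lemma int_le_int (hc : ∀ j, ContinuousOn (X j) (Icc 0 T)) {t : ℝ} (ht : t ∈ Icc 0 T) (M : ℕ) :
    ∫ s in (0 : ℝ)..t, ∑ j ∈ tre D M, (4 : ℝ) ^ j.length * X j s ^ 2
      ≤ ∫ s in (0 : ℝ)..T, ∑ j ∈ tre D M, (4 : ℝ) ^ j.length * X j s ^ 2 := by
  have hT : 0 ≤ T := ht.1.trans ht.2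
  have h0T : (0 : ℝ) ∈ Icc 0 T := ⟨le_rfl, hT⟩
  have hTT : T ∈ Icc 0 T := ⟨hT, le_rfl⟩
  have h5 : 0 ≤ ∫ s in t..T, ∑ j ∈ tre D M, (4 : ℝ) ^ j.length * X j s ^ 2 :=
    intervalIntegral.integral_nonneg ht.2 fun s _ => Finset.sum_nonneg fun n _ => by positivity
  have h4 := intervalIntegral.integral_add_adjacent_intervals
    (ii_of (sum4_cont hc M) h0T ht) (ii_of (sum4_cont hc M) ht hTT)
  linarith

/-- the flux of a solution with a decay rate better than the critical one, pointwise -/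
lemma flux_pt {C q B : ℝ} {y : Nd D → ℝ} (hq1 : 1 ≤ q) (hB : B = 2 ^ β) (hC : 0 ≤ C)
    (hy : ∀ j : Nd D, |y j| ≤ C / q ^ j.length) (N : ℕ) :
    |flux β N y| ≤ D * C * (B / (4 * q)) ^ N * ∑ j ∈ tre D N, 4 ^ j.length * y j ^ 2 := by
  have hB0 : 0 < B := by rw [hB]; exact Real.rpow_pos_of_pos two_pos _
  have hq0 : 0 < q := by linarith
  have h1 : |flux β N y| ≤ ∑ j ∈ lev D N, D * C * (B / (4 * q)) ^ N * (4 ^ j.length * y j ^ 2) := by
    refine (Finset.abs_sum_le_sum_abs _ _).trans (Finset.sum_le_sum fun j hj => ?_)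
    have hl := mem_lev.1 hj
    have h2 : |ch y j| ≤ D * (C / q ^ N) := by
      have h3 : ∑ i : Fin D, |y (i :: j)| ≤ ∑ _i : Fin D, C / q ^ N := by
        refine Finset.sum_le_sum fun i _ => (hy (i :: j)).trans ?_
        rw [List.length_cons, hl]
        exact div_le_div_of_nonneg_left hC (by positivity) (pow_le_pow_right₀ hq1 (Nat.le_succ N))
      rw [Finset.sum_const, Finset.card_univ, Fintype.card_fin, nsmul_eq_mul] at h3
      exact (Finset.abs_sum_le_sum_abs _ _).trans h3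
    rw [pow_mul_nat, ← hB, abs_mul, abs_mul, abs_of_pos (by positivity : 0 < B ^ N),
      abs_of_nonneg (sq_nonneg (y j)), hl]
    calc B ^ N * (y j ^ 2 * |ch y j|) ≤ B ^ N * (y j ^ 2 * (D * (C / q ^ N))) := by gcongr
      _ = D * C * (B / (4 * q)) ^ N * (4 ^ N * y j ^ 2) := by
          rw [div_pow, mul_pow]
          field_simp
  refine h1.trans ?_
  rw [← Finset.mul_sum]
  apply mul_le_mul_of_nonneg_left _ (by positivity)
  exact Finset.sum_le_sum_of_subset_of_nonneg (lev_sub N) fun j _ _ => by positivity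

/-- the flux of a solution with a decay rate better than the critical one -/
lemma flux_leT {C E q B : ℝ} (hq1 : 1 ≤ q) (hB : B = 2 ^ β) (hC : 0 ≤ C)
    (hc : ∀ j, ContinuousOn (X j) (Icc 0 T))
    (hXs : ∀ t ∈ Icc 0 T, ∀ j : Nd D, |X j t| ≤ C / q ^ j.length)
    (hE : ∀ M : ℕ, ∫ s in (0 : ℝ)..T, ∑ j ∈ tre D M, 4 ^ j.length * X j s ^ 2 ≤ E) (N : ℕ) {t : ℝ}
    (ht : t ∈ Icc 0 T) :
    |∫ s in (0 : ℝ)..t, flux β N (fun k => X k s)| ≤ D * C * (B / (4 * q)) ^ N * E := by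
  have hB0 : 0 < B := by rw [hB]; exact Real.rpow_pos_of_pos two_pos _
  have hq0 : 0 < q := by linarith
  have hT : 0 ≤ T := ht.1.trans ht.2
  have h0T : (0 : ℝ) ∈ Icc 0 T := ⟨le_rfl, hT⟩
  have hc4 : ContinuousOn (fun s => D * C * (B / (4 * q)) ^ N * ∑ j ∈ tre D N,
      4 ^ j.length * X j s ^ 2) (Icc 0 T) := continuousOn_const.mul (sum4_cont hc N)
  calc |∫ s in (0 : ℝ)..t, flux β N (fun k => X k s)|
      ≤ ∫ s in (0 : ℝ)..t, |flux β N (fun k => X k s)| :=
        intervalIntegral.abs_integral_le_integral_abs ht.1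
    _ ≤ ∫ s in (0 : ℝ)..t, D * C * (B / (4 * q)) ^ N * ∑ j ∈ tre D N,
        4 ^ j.length * X j s ^ 2 := by
        refine intervalIntegral.integral_mono_on ht.1 (ii_of (flux_cont' hc N).abs h0T ht)
          (ii_of hc4 h0T ht) fun s hs => flux_pt hq1 hB hC (hXs s ⟨hs.1, hs.2.trans ht.2⟩) N
    _ = D * C * (B / (4 * q)) ^ N * ∫ s in (0 : ℝ)..t, ∑ j ∈ tre D N,
        4 ^ j.length * X j s ^ 2 := intervalIntegral.integral_const_mul _ _
    _ ≤ D * C * (B / (4 * q)) ^ N * E :=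
        mul_le_mul_of_nonneg_left ((int_le_int hc ht N).trans (hE N)) (by positivity)

/-- The pointwise bound of the product of two solutions. -/
lemma cross_le {K C q B : ℝ} (hD : 0 < D) (hν : 0 < ν) (hK0 : 0 ≤ K) (hq1 : 1 ≤ q)
    (hB : B = 2 ^ β) (hC : 0 ≤ C) {y z : Nd D → ℝ}
    (hy : ∀ j : Nd D, |y j| ≤ C / q ^ j.length)
    (hK : ∀ n : ℕ, (2 : ℝ) ^ (β * n) * (C / q ^ n) ≤ ν / (10 * D) * 4 ^ n + K) (N : ℕ) :
    -2 * ∑ j ∈ tre D N, (y j * trhs β ν z j + z j * trhs β ν y j)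
      ≤ 2 * ν * ∑ j ∈ tre D N, 4 ^ j.length * y j ^ 2
        + 2 * ν * ∑ j ∈ tre D N, 4 ^ j.length * z j ^ 2
        + 5 * D * K * ∑ j ∈ tre D N, (y j - z j) ^ 2
        + 16 * D * C * (B / (4 * q)) ^ N * (∑ j ∈ tre D (N + 1), 4 ^ j.length * y j ^ 2
            + ∑ j ∈ tre D (N + 1), 4 ^ j.length * z j ^ 2) := by
  have hD1 : (1 : ℝ) ≤ D := by exact_mod_cast hD
  have hD0 : (0 : ℝ) < D := by linarith
  have hB0 : 0 < B := by rw [hB]; exact Real.rpow_pos_of_pos two_pos _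
  have hq0 : 0 < q := by linarith
  obtain ⟨d, hd⟩ : ∃ d : Nd D → ℝ, d = fun j => y j - z j := ⟨_, rfl⟩
  -- the identity
  have hchd : ∀ j, ch d j = ch y j - ch z j := by
    intro j
    rw [hd]
    simp only [ch, Finset.sum_sub_distrib]
  have hlin : ∀ j, trhs β ν y j - trhs β ν z j
      = dtrhs β ν y d j - trhs β ν d j - ν * 4 ^ j.length * d j := by
    intro j
    have h1 : inp β y j - inp β z j = dinp β y d j - inp β d j := by
      cases j with
      | nil => simp only [inp, dinp]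
      | cons i j =>
        simp only [inp, dinp, hd]
        ring
    simp only [trhs, dtrhs]
    rw [hchd]
    have h2 : d j = y j - z j := by rw [hd]
    rw [h2]
    linear_combination h1
  have hE1 := energy_sumT β ν y N
  have hE2 := energy_sumT β ν z N
  have hE3 := energy_sumT β ν d N
  have hbulk := dtrhs_bulk (β := β) (ν := ν) (x := y) (v := d)
    (b := fun n => ν / (10 * D) * 4 ^ n + K) hD (fun n => by positivity)
    (fun n => by
      have h2 : (4 : ℝ) ^ n ≤ 4 ^ (n + 1) := pow_le_pow_right₀ (by norm_num) (Nat.le_succ n)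
      have h3 := mul_le_mul_of_nonneg_left h2 (by positivity : 0 ≤ ν / (10 * D))
      linarith)
    (fun j => (mul_le_mul_of_nonneg_left (hy j) (Real.rpow_nonneg two_pos.le _)).trans (hK _))
    (fun j i => by
      refine (mul_le_mul_of_nonneg_left ((hy (i :: j)).trans ?_)
        (Real.rpow_nonneg two_pos.le _)).trans (hK j.length)
      rw [List.length_cons]
      exact div_le_div_of_nonneg_left hC (by positivity) (pow_le_pow_right₀ hq1 (Nat.le_succ _)))
    N
  have h3 : 5 / 2 * D * ∑ j ∈ tre D N, (ν / (10 * D) * 4 ^ j.length + K) * d j ^ 2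
      = ν / 4 * ∑ j ∈ tre D N, 4 ^ j.length * d j ^ 2
        + 5 / 2 * D * K * ∑ j ∈ tre D N, d j ^ 2 := by
    rw [Finset.mul_sum, Finset.mul_sum, Finset.mul_sum, ← Finset.sum_add_distrib]
    refine Finset.sum_congr rfl fun j _ => ?_
    field_simp
    ring
  have h4 : 0 ≤ D * sqr (fun n => ν / (10 * D) * 4 ^ n + K) d N :=
    mul_nonneg hD0.le (sqr_nn (by positivity))
  have h5 : 0 ≤ ν * ∑ j ∈ tre D N, (4 : ℝ) ^ j.length * d j ^ 2 :=
    mul_nonneg hν.le (Finset.sum_nonneg fun j _ => by positivity)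
  have hid : ∑ j ∈ tre D N, (y j * trhs β ν z j + z j * trhs β ν y j)
      = ∑ j ∈ tre D N, y j * trhs β ν y j + ∑ j ∈ tre D N, z j * trhs β ν z j
        - ∑ j ∈ tre D N, d j * dtrhs β ν y d j + ∑ j ∈ tre D N, d j * trhs β ν d j
        + ν * ∑ j ∈ tre D N, 4 ^ j.length * d j ^ 2 := by
    rw [Finset.mul_sum, ← Finset.sum_add_distrib, ← Finset.sum_sub_distrib,
      ← Finset.sum_add_distrib, ← Finset.sum_add_distrib]
    refine Finset.sum_congr rfl fun j _ => ?_
    have h1 := hlin j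
    have h2 : d j = y j - z j := by rw [hd]
    have h3 : d j * (trhs β ν y j - trhs β ν z j)
        = d j * (dtrhs β ν y d j - trhs β ν d j - ν * 4 ^ j.length * d j) := by rw [h1]
    have h4 : d j * (trhs β ν y j - trhs β ν z j)
        = y j * trhs β ν y j + z j * trhs β ν z j - (y j * trhs β ν z j + z j * trhs β ν y j) := by
      rw [h2]
      ring
    rw [h3] at h4
    linear_combination h4
  -- the boundary terms
  have hbd : ∑ j ∈ lev D N, (2 : ℝ) ^ (β * N) * (y j ^ 2 * ch y j)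
      + ∑ j ∈ lev D N, (2 : ℝ) ^ (β * N) * (z j ^ 2 * ch z j)
      + ∑ j ∈ lev D N, (2 : ℝ) ^ (β * N) * (d j ^ 2 * ch d j)
      - ∑ j ∈ lev D N, (2 : ℝ) ^ (β * j.length) * y j * (d j * ch d j)
      ≤ 8 * D * C * (B / (4 * q)) ^ N * (∑ j ∈ tre D (N + 1), 4 ^ j.length * y j ^ 2
            + ∑ j ∈ tre D (N + 1), 4 ^ j.length * z j ^ 2) := by
    have h6 : (2 : ℝ) ^ (β * N) = B ^ N := by rw [pow_mul_nat, hB]
    have hpt : ∀ j ∈ lev D N, (2 : ℝ) ^ (β * N) * (y j ^ 2 * ch y j)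
        + (2 : ℝ) ^ (β * N) * (z j ^ 2 * ch z j) + (2 : ℝ) ^ (β * N) * (d j ^ 2 * ch d j)
        - (2 : ℝ) ^ (β * j.length) * y j * (d j * ch d j)
        ≤ B ^ N * (8 * (C / q ^ N)) * (D * (y j ^ 2 + z j ^ 2)
          + ∑ i : Fin D, (y (i :: j) ^ 2 + z (i :: j) ^ 2)) := by
      intro j hj
      have hl := mem_lev.1 hj
      have hyj := hy j
      rw [hl] at hyj
      rw [hl, h6]
      have e1 : B ^ N * (y j ^ 2 * ch y j) + B ^ N * (z j ^ 2 * ch z j)
          + B ^ N * (d j ^ 2 * ch d j) - B ^ N * y j * (d j * ch d j)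
          = B ^ N * ∑ i : Fin D, (y j ^ 2 * y (i :: j) + z j ^ 2 * z (i :: j)
            + (y j - z j) ^ 2 * (y (i :: j) - z (i :: j))
            - y j * ((y j - z j) * (y (i :: j) - z (i :: j)))) := by
        rw [Finset.sum_sub_distrib, Finset.sum_add_distrib, Finset.sum_add_distrib,
          ← Finset.mul_sum, ← Finset.mul_sum, ← Finset.mul_sum]
        have e2 : ∑ i : Fin D, y j * ((y j - z j) * (y (i :: j) - z (i :: j)))
            = y j * (d j * ch d j) := by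
          rw [hd]
          simp only [ch]
          rw [Finset.mul_sum, Finset.mul_sum]
        have e3 : ∑ i : Fin D, (y (i :: j) - z (i :: j)) = ch d j := by
          rw [hd]
          rfl
        have e4 : y j - z j = d j := by rw [hd]
        rw [e2, e3, e4]
        simp only [ch]
        ring
      rw [e1]
      have e5 : B ^ N * (8 * (C / q ^ N)) * (D * (y j ^ 2 + z j ^ 2)
          + ∑ i : Fin D, (y (i :: j) ^ 2 + z (i :: j) ^ 2))
          = B ^ N * ∑ i : Fin D, 8 * (C / q ^ N)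
            * (y j ^ 2 + y (i :: j) ^ 2 + z j ^ 2 + z (i :: j) ^ 2) := by
        have e6 : ∀ i : Fin D, 8 * (C / q ^ N)
            * (y j ^ 2 + y (i :: j) ^ 2 + z j ^ 2 + z (i :: j) ^ 2)
            = 8 * (C / q ^ N) * (y j ^ 2 + z j ^ 2)
              + 8 * (C / q ^ N) * (y (i :: j) ^ 2 + z (i :: j) ^ 2) := fun i => by ring
        have e7 : ∑ i : Fin D, 8 * (C / q ^ N)
            * (y j ^ 2 + y (i :: j) ^ 2 + z j ^ 2 + z (i :: j) ^ 2)
            = D * (8 * (C / q ^ N) * (y j ^ 2 + z j ^ 2))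
              + 8 * (C / q ^ N) * ∑ i : Fin D, (y (i :: j) ^ 2 + z (i :: j) ^ 2) := by
          rw [Finset.sum_congr rfl fun i _ => e6 i, Finset.sum_add_distrib, Finset.sum_const,
            Finset.card_univ, Fintype.card_fin, nsmul_eq_mul, Finset.mul_sum]
        rw [e7]
        ring
      rw [e5]
      apply mul_le_mul_of_nonneg_left _ (by positivity)
      refine Finset.sum_le_sum fun i _ => Run7.h969.Dz.bdry_le hyj ?_
      refine (hy (i :: j)).trans ?_
      rw [List.length_cons, hl]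
      exact div_le_div_of_nonneg_left hC (by positivity) (pow_le_pow_right₀ hq1 (Nat.le_succ N))
    rw [← Finset.sum_add_distrib, ← Finset.sum_add_distrib, ← Finset.sum_sub_distrib]
    refine (Finset.sum_le_sum hpt).trans ?_
    rw [← Finset.mul_sum, Finset.sum_add_distrib, ← Finset.mul_sum, ← sum_lev_succ N
      (fun j => y j ^ 2 + z j ^ 2)]
    have e1 : ∀ Y : Nd D → ℝ, (4 : ℝ) ^ N * (D * ∑ j ∈ lev D N, Y j ^ 2
        + ∑ j ∈ lev D (N + 1), Y j ^ 2) ≤ D * ∑ j ∈ tre D (N + 1), (4 : ℝ) ^ j.length * Y j ^ 2 := by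
      intro Y
      have b0 : 4 ^ N * ∑ j ∈ lev D N, Y j ^ 2 ≤ ∑ j ∈ tre D N, (4 : ℝ) ^ j.length * Y j ^ 2 := by
        rw [Finset.mul_sum]
        refine le_trans (le_of_eq (lev_congr fun j hj => ?_))
          (Finset.sum_le_sum_of_subset_of_nonneg (lev_sub N) fun j _ _ => by positivity)
        rw [hj]
      have b1 : 4 ^ N * ∑ j ∈ lev D (N + 1), Y j ^ 2
          ≤ ∑ j ∈ lev D (N + 1), (4 : ℝ) ^ j.length * Y j ^ 2 := by
        rw [Finset.mul_sum]
        refine Finset.sum_le_sum fun j hj => ?_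
        rw [mem_lev.1 hj]
        exact mul_le_mul_of_nonneg_right (pow_le_pow_right₀ (by norm_num) (Nat.le_succ N))
          (sq_nonneg _)
      rw [sum_tre_succ]
      have b2 := mul_le_mul_of_nonneg_left b0 hD0.le
      have b3 : 0 ≤ ∑ j ∈ lev D (N + 1), (4 : ℝ) ^ j.length * Y j ^ 2 :=
        Finset.sum_nonneg fun j _ => by positivity
      have b4 := mul_le_mul_of_nonneg_right hD1 b3
      linarith
    have e2 : B ^ N * (8 * (C / q ^ N)) * (D * ∑ j ∈ lev D N, (y j ^ 2 + z j ^ 2)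
        + ∑ j ∈ lev D (N + 1), (y j ^ 2 + z j ^ 2)) = 8 * C * (B / (4 * q)) ^ N
        * (4 ^ N * (D * ∑ j ∈ lev D N, y j ^ 2 + ∑ j ∈ lev D (N + 1), y j ^ 2)
          + 4 ^ N * (D * ∑ j ∈ lev D N, z j ^ 2 + ∑ j ∈ lev D (N + 1), z j ^ 2)) := by
      rw [div_pow, mul_pow, Finset.sum_add_distrib, Finset.sum_add_distrib]
      field_simp
      ring
    rw [e2]
    have e3 := mul_le_mul_of_nonneg_left (add_le_add (e1 y) (e1 z))
      (by positivity : 0 ≤ 8 * C * (B / (4 * q)) ^ N)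
    linarith
  have hdd : ∑ j ∈ tre D N, (y j - z j) ^ 2 = ∑ j ∈ tre D N, d j ^ 2 := by rw [hd]
  rw [h3] at hbulk
  rw [hdd, hid, hE1, hE2, hE3]
  linarith

end Pool.Agent.Run7.h32.Tr
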